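import Pool.Agent.FLG.P.RmatB

/-!
# FLG-P-Pair: the equivariant Poincaré pairing of `G/P`
-/

set_option autoImplicit false

open scoped BigOperators
open Pool.Agent.DST.TE

namespace Pool.Agent.FLG.Par

open RS

variable {r : ℕ} {P : Par r}

private theorem pa_w0_inv : (P.D.w0)⁻¹ = P.D.w0 := inv_eq_of_mul_eq_one_right w0_mul_self

private theorem pa_yt (y : Fin r → ℂ) : P.D.yt P.D.w0 (P.D.yt P.D.w0 y) = y := by
  rw [← P.D.yt_mul, w0_mul_self, P.D.yt_one]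

private theorem pa_w0_iff {b : Fin r → ℤ} (hb : b ∈ P.D.Φ) :
    P.D.rt P.D.w0 b ∉ P.D.Pos ↔ b ∈ P.D.Pos := by
  constructor
  · intro h
    by_contra h2
    have h3 := (not_pos_iff hb).1 h2
    have h4 := w0_pos h3
    rw [P.D.rt_neg] at h4
    exact h ((pos_or_neg (P.D.rt_mem.2 hb)).resolve_right h4)
  · exact w0_pos

theorem len_w0 (w : P.D.W) : P.len (P.D.w0 * w) + P.len w = P.dm := by
  unfold len dm
  have h1 : P.Pos.filter (fun a => P.D.rt (P.D.w0 * w) a ∉ P.D.Pos) =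
      P.Pos.filter (fun a => P.D.rt w a ∈ P.D.Pos) := by
    refine Finset.filter_congr fun a ha => ?_
    rw [P.D.rt_mul]
    exact pa_w0_iff (P.D.rt_mem.2 (pos_mem ha))
  rw [h1]
  exact Finset.card_filter_add_card_filter_not _

theorem lm_w0_w0 (p : P.X) : P.lm P.D.w0 (P.lm P.D.w0 p) = p := by
  rw [← lm_mul, w0_mul_self, lm_one]

/-- the involution of the fixed points -/
private noncomputable def lmE (P : Par r) : P.X ≃ P.X where
  toFun := P.lm P.D.w0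
  invFun := P.lm P.D.w0
  left_inv := lm_w0_w0
  right_inv := lm_w0_w0

private theorem lm_inj {p q : P.X} (h : P.lm P.D.w0 p = P.lm P.D.w0 q) : p = q := by
  rw [← lm_w0_w0 p, h, lm_w0_w0]

private theorem lm_iff {p q : P.X} : P.lm P.D.w0 p = q ↔ p = P.lm P.D.w0 q :=
  ⟨fun h => by rw [← h, lm_w0_w0], fun h => by rw [h, lm_w0_w0]⟩

/-- the equivariant Poincaré pairing of the Schubert classes -/
noncomputable def Pg (P : Par r) (y : Fin r → ℂ) : Matrix P.X P.X ℂ :=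
  Matrix.of fun u v => Lw P.D.w0 (P.D.yt P.D.w0 y) (P.lm P.D.w0 u) v

private theorem pa_diff (w : P.D.W) : Differentiable ℂ fun y : Fin r → ℂ => P.D.yt w y := by
  rw [differentiable_pi]
  intro j
  unfold yt
  fun_prop

theorem Pg_diff (u v : P.X) : Differentiable ℂ fun y => P.Pg y u v :=
  ((isLeft_Lw P.D.w0).diff (P.lm P.D.w0 u) v).comp (pa_diff P.D.w0)

theorem Pg_zero (u v : P.X) : P.Pg 0 u v = if u = P.lm P.D.w0 v then 1 else 0 := by
  unfold Pg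
  rw [Matrix.of_apply, P.D.yt_zero, (isLeft_Lw P.D.w0).zero, Matrix.one_apply]
  by_cases h : u = P.lm P.D.w0 v
  · rw [if_pos h, if_pos (lm_iff.2 h)]
  · rw [if_neg h, if_neg (fun h' => h (lm_iff.1 h'))]

theorem Pg_det (y : Fin r → ℂ) : (P.Pg y).det ≠ 0 := by
  have h1 : P.Pg y = (Lw P.D.w0 (P.D.yt P.D.w0 y)).submatrix (lmE P) id := rfl
  rw [h1, Matrix.det_permute, (isLeft_Lw P.D.w0).det, mul_one]
  rcases Int.units_eq_one_or (Equiv.Perm.sign (lmE P)) with h | h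
  · rw [h]
    norm_num
  · rw [h]
    norm_num

theorem Pg_homog (x : ℂ) (y : Fin r → ℂ) (u v : P.X) :
    x ^ P.dm * P.Pg (fun i => x * y i) u v = x ^ (P.len u.1 + P.len v.1) * P.Pg y u v := by
  have h1 := (isLeft_Lw P.D.w0).homog x (P.D.yt P.D.w0 y) (P.lm P.D.w0 u) v
  rw [len_lm] at h1
  have h2 : P.D.yt P.D.w0 (fun i => x * y i) = fun i => x * P.D.yt P.D.w0 y i :=
    P.D.yt_smul P.D.w0 x y
  unfold Pg
  rw [Matrix.of_apply, Matrix.of_apply, h2, ← len_w0 u.1, pow_add, pow_add,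
    mul_comm (x ^ P.len (P.D.w0 * u.1)), mul_assoc, mul_assoc, h1]

private theorem pg_gen {y : Fin r → ℂ} {X Y : Matrix P.X P.X ℂ}
    (h : X * Lw P.D.w0 (P.D.yt P.D.w0 y) = Lw P.D.w0 (P.D.yt P.D.w0 y) * Y)
    (h' : ∀ u k, X (P.lm P.D.w0 u) (P.lm P.D.w0 k) = Y k u) :
    P.Pg y * Y = Y.transpose * P.Pg y := by
  ext u v
  have h1 : (P.Pg y * Y) u v = (Lw P.D.w0 (P.D.yt P.D.w0 y) * Y) (P.lm P.D.w0 u) v := rfl
  rw [h1, ← h, Matrix.mul_apply, Matrix.mul_apply]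
  refine (Fintype.sum_equiv (lmE P) _ _ fun k => ?_).symm
  rw [Matrix.transpose_apply, ← h']
  rfl

private theorem edge_symm {u k : P.X} {a : Fin r → ℤ} (ha : a ∈ P.Pos)
    (h : u = P.fl (k.1 * P.D.refl a)) :
    ∃ x ∈ P.WJ, P.D.rt x a ∈ P.Pos ∧ k = P.fl (u.1 * P.D.refl (P.D.rt x a)) := by
  obtain ⟨x, hx, hk⟩ := fl_spec (k.1 * P.D.refl a)
  rw [← h] at hk
  refine ⟨x, hx, wj_pos hx ha, ?_⟩
  have h1 : u.1 * P.D.refl (P.D.rt x a) * x = k.1 := by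
    rw [refl_rt x (pos_mem ha), mul_assoc, inv_mul_cancel_right, ← mul_assoc, ← hk, mul_assoc,
      refl_mul_self (pos_mem ha), mul_one]
  rw [← fl_mul _ hx, h1, fl_val]

private theorem sum_symm (u k : P.X) (f : (Fin r → ℤ) → ℂ)
    (hf : ∀ v ∈ P.WJ, ∀ a ∈ P.Pos, f (P.D.rt v a) = f a) :
    (∑ a ∈ P.Pos, if u = P.fl (k.1 * P.D.refl a) then f a else 0) =
      ∑ a ∈ P.Pos, if k = P.fl (u.1 * P.D.refl a) then f a else 0 := by
  have key : ∀ u k : P.X, (∀ a ∈ P.Pos, u ≠ P.fl (k.1 * P.D.refl a)) ∨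
      ∃ a ∈ P.Pos, u = P.fl (k.1 * P.D.refl a) ∧
        (∑ a ∈ P.Pos, if u = P.fl (k.1 * P.D.refl a) then f a else 0) = f a := by
    intro u k
    by_cases h : ∃ a ∈ P.Pos, u = P.fl (k.1 * P.D.refl a)
    · obtain ⟨a, ha, h1⟩ := h
      refine Or.inr ⟨a, ha, h1, ?_⟩
      rw [Finset.sum_eq_single a, if_pos h1]
      · intro b hb hba
        rw [if_neg]
        intro h2
        exact hba (refl_unique k.1 hb ha (h2.symm.trans h1))
      · intro h2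
        exact absurd ha h2
    · left
      intro a ha h1
      exact h ⟨a, ha, h1⟩
  rcases key u k with h | ⟨a, ha, h1, h2⟩
  · rw [Finset.sum_eq_zero fun a ha => if_neg (h a ha)]
    symm
    refine Finset.sum_eq_zero fun a ha => if_neg fun h3 => ?_
    obtain ⟨x, hx, h4, h5⟩ := edge_symm ha h3
    exact h _ h4 h5
  · rw [h2]
    obtain ⟨x, hx, h4, h5⟩ := edge_symm ha h1
    rcases key k u with h | ⟨b, hb, h6, h7⟩
    · exact absurd h5 (h _ h4)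
    · rw [h7, ← refl_unique u.1 h4 hb (h5.symm.trans h6), hf x hx a ha]

private theorem sum_w0 (u k : P.X) (f : (Fin r → ℤ) → ℂ)
    (hf : ∀ v ∈ P.WJ, ∀ a ∈ P.Pos, f (P.D.rt v a) = f a) :
    (∑ a ∈ P.Pos, if P.lm P.D.w0 u = P.fl ((P.lm P.D.w0 k).1 * P.D.refl a) then f a else 0) =
      ∑ a ∈ P.Pos, if k = P.fl (u.1 * P.D.refl a) then f a else 0 := by
  rw [← sum_symm u k f hf]
  obtain ⟨v, hv, hk⟩ := fl_spec (P.D.w0 * k.1)
  have hk' : P.D.w0 * k.1 = (P.lm P.D.w0 k).1 * v := hk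
  rw [← sum_Pos hv (fun a =>
    if P.lm P.D.w0 u = P.fl ((P.lm P.D.w0 k).1 * P.D.refl a) then f a else 0)]
  refine Finset.sum_congr rfl fun a ha => ?_
  have h1 : P.fl ((P.lm P.D.w0 k).1 * P.D.refl (P.D.rt v a)) =
      P.lm P.D.w0 (P.fl (k.1 * P.D.refl a)) := by
    rw [refl_rt v (pos_mem ha), ← mul_assoc, fl_mul _ (P.WJ.inv_mem hv), ← mul_assoc, ← hk', lm_fl,
      mul_assoc]
  simp only [h1, hf v hv a ha]
  by_cases h2 : u = P.fl (k.1 * P.D.refl a)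
  · rw [if_pos h2, if_pos (by rw [← h2])]
  · rw [if_neg h2, if_neg (fun h3 => h2 (lm_inj h3))]

private theorem len_iff {u k : P.X} :
    P.len (P.lm P.D.w0 u).1 = P.len (P.lm P.D.w0 k).1 + 1 ↔ P.len k.1 = P.len u.1 + 1 := by
  rw [len_lm, len_lm]
  have h1 := len_w0 u.1
  have h2 := len_w0 k.1
  constructor
  · intro h
    omega
  · intro h
    omega

private theorem len_iff' {u k : P.X} (n : ℤ) :
    (P.len (P.lm P.D.w0 u).1 : ℤ) + n = P.len (P.lm P.D.w0 k).1 + 1 ↔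
      (P.len k.1 : ℤ) + n = P.len u.1 + 1 := by
  rw [len_lm, len_lm]
  have h1 := len_w0 u.1
  have h2 := len_w0 k.1
  constructor
  · intro h
    omega
  · intro h
    omega

private theorem E_w0 {c : (Fin r → ℤ) → ℂ} (hc : P.Lab c) {t : Fin r → ℂ} (ht : P.Inv t)
    (u k : P.X) : P.E c t (P.lm P.D.w0 u) (P.lm P.D.w0 k) = P.E c t k u := by
  unfold E
  rw [Matrix.of_apply, Matrix.of_apply]
  simp only [len_iff, len_iff']
  refine sum_w0 u k (fun a => c a * ((if P.len k.1 = P.len u.1 + 1 then 1 else 0) +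
      (if (P.len k.1 : ℤ) + P.L a = P.len u.1 + 1 then qq t (P.D.co a) else 0))) ?_
  intro v hv a ha
  simp only [hc.inv v hv a (pos_mem ha), L_inv hv (pos_mem ha), co_rt_eq v (pos_mem ha),
    qq_inv ht hv]

private theorem E0_w0 {c : (Fin r → ℤ) → ℂ} (hc : P.Lab c) (u k : P.X) :
    P.E0 c (P.lm P.D.w0 u) (P.lm P.D.w0 k) = P.E0 c k u := by
  unfold E0
  rw [Matrix.of_apply, Matrix.of_apply]
  simp only [len_iff, ite_and]
  refine sum_w0 u k (fun a => if P.len k.1 = P.len u.1 + 1 then c a else 0) ?_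
  intro v hv a ha
  simp only [hc.inv v hv a (pos_mem ha)]

private theorem diag_w0 {h : Fin r → ℂ} (hh : P.Inv h) (y : Fin r → ℂ) (u k : P.X) :
    (Matrix.diagonal fun u : P.X => P.D.hv h u.1 (P.D.yt P.D.w0 y)) (P.lm P.D.w0 u)
      (P.lm P.D.w0 k) = (Matrix.diagonal fun u : P.X => P.D.hv h u.1 y) k u := by
  by_cases hku : k = u
  · rw [hku, Matrix.diagonal_apply_eq, Matrix.diagonal_apply_eq]
    have h1 : P.D.hv h (P.lm P.D.w0 u).1 (P.D.yt P.D.w0 y) =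
        P.D.hv h (P.D.w0 * u.1) (P.D.yt P.D.w0 y) := hv_fl hh _ _
    rw [h1, RS.hv_mul, pa_w0_inv, pa_yt]
  · rw [Matrix.diagonal_apply_ne _ hku, Matrix.diagonal_apply_ne]
    exact fun h => hku (lm_inj h).symm

theorem Pg_self {h t : Fin r → ℂ} (hh : P.Inv h) (ht : P.Inv t) (y : Fin r → ℂ) :
    P.Pg y * P.Cq h t y = (P.Cq h t y).transpose * P.Pg y := by
  refine pg_gen (X := P.Cq h t (P.D.yt P.D.w0 y)) ?_ fun u k => ?_
  · rw [(isLeft_Lw P.D.w0).comm hh ht, pa_w0_inv, pa_yt]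
  · unfold Cq
    rw [Matrix.sub_apply, Matrix.sub_apply, E_w0 (lab_ch hh) ht, diag_w0 hh]

theorem Pg_self0 {h : Fin r → ℂ} (hh : P.Inv h) (y : Fin r → ℂ) :
    P.Pg y * P.C0 h y = (P.C0 h y).transpose * P.Pg y := by
  refine pg_gen (X := P.C0 h (P.D.yt P.D.w0 y)) ?_ fun u k => ?_
  · rw [(isLeft_Lw P.D.w0).comm0 h hh, pa_w0_inv, pa_yt]
  · unfold C0
    rw [Matrix.sub_apply, Matrix.sub_apply, E0_w0 (lab_ch hh), diag_w0 hh]

private theorem diag_prod (y : Fin r → ℂ) (p : P.X) :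
    P.Rm y p p * P.Rm (P.D.yt P.D.w0 y) (P.lm P.D.w0 p) (P.lm P.D.w0 p) =
      ∏ a ∈ P.Pos, (-pr (P.D.rt p.1 a) y) := by
  rw [Rm_diag, Rm_diag, Finset.prod_filter (s := P.Pos)
    (p := fun a => P.D.rt (P.lm P.D.w0 p).1 a ∉ P.D.Pos),
    prod_lm P.D.w0 p (fun b => if b ∉ P.D.Pos then -pr b (P.D.yt P.D.w0 y) else 1)]
  have h1 : ∏ a ∈ P.Pos, (if P.D.rt P.D.w0 (P.D.rt p.1 a) ∉ P.D.Pos then
      -pr (P.D.rt P.D.w0 (P.D.rt p.1 a)) (P.D.yt P.D.w0 y) else 1) =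
      ∏ a ∈ P.Pos.filter (fun a => ¬ P.D.rt p.1 a ∉ P.D.Pos), (-pr (P.D.rt p.1 a) y) := by
    rw [Finset.prod_filter]
    refine Finset.prod_congr rfl fun a ha => ?_
    have h2 : pr (P.D.rt P.D.w0 (P.D.rt p.1 a)) (P.D.yt P.D.w0 y) = pr (P.D.rt p.1 a) y := by
      rw [P.D.pr_rt, pa_w0_inv, pa_yt]
    rw [h2]
    refine if_congr ?_ rfl rfl
    rw [not_not]
    exact pa_w0_iff (P.D.rt_mem.2 (pos_mem ha))
  rw [h1]
  exact Finset.prod_filter_mul_prod_filter_not _ _ _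

private theorem roots_w0 {y : Fin r → ℂ} (hy : ∀ a ∈ P.D.Φ, pr a y ≠ 0) :
    ∀ a ∈ P.D.Φ, pr a (P.D.yt P.D.w0 y) ≠ 0 := by
  intro a ha
  rw [P.D.pr_yt]
  exact hy _ (P.D.rt_mem.2 ha)

private theorem Pg_eq {y : Fin r → ℂ} (hy : ∀ a ∈ P.D.Φ, pr a y ≠ 0) (u v : P.X) :
    P.Pg y u v = ∑ p : P.X,
      (P.Rm (P.D.yt P.D.w0 y))⁻¹ (P.lm P.D.w0 u) (P.lm P.D.w0 p) * P.Rm y p v := by
  have hdet := Rm_det_ne (roots_w0 hy)
  have h1 : P.Rm (P.D.yt P.D.w0 y) * Lw P.D.w0 (P.D.yt P.D.w0 y) =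
      (P.Rm y).submatrix (lmE P) id := by
    ext p k
    rw [Rm_left (isLeft_Lw P.D.w0), pa_w0_inv, pa_yt]
    rfl
  have h2 : Lw P.D.w0 (P.D.yt P.D.w0 y) =
      (P.Rm (P.D.yt P.D.w0 y))⁻¹ * (P.Rm y).submatrix (lmE P) id := by
    rw [← h1, Matrix.nonsing_inv_mul_cancel_left _ _ (isUnit_iff_ne_zero.2 hdet)]
  have h3 : P.Pg y u v = Lw P.D.w0 (P.D.yt P.D.w0 y) (P.lm P.D.w0 u) v := rfl
  rw [h3, h2, Matrix.mul_apply]
  refine (Fintype.sum_equiv (lmE P) _ _ fun k => ?_).symm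
  change _ = (P.Rm (P.D.yt P.D.w0 y))⁻¹ (P.lm P.D.w0 u) (P.lm P.D.w0 k) *
    P.Rm y (P.lm P.D.w0 (P.lm P.D.w0 k)) v
  rw [lm_w0_w0]

private theorem Pg_loc_reg {y : Fin r → ℂ} (hy : y ∈ P.Reg) (u v : P.X) :
    P.Pg y u v = ∑ p : P.X, P.Rm y p u * P.Rm y p v / ∏ a ∈ P.Pos, (-pr (P.D.rt p.1 a) y) := by
  obtain ⟨hy1, hy2⟩ := hy
  have hdet : IsUnit (P.Rm y).det := isUnit_iff_ne_zero.2 (Rm_det_ne hy1)
  have hdet' : IsUnit (P.Rm y).transpose.det := by rwa [Matrix.det_transpose]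
  obtain ⟨X, hX⟩ : ∃ X, X = (P.Rm y).transpose⁻¹ * P.Pg y * (P.Rm y)⁻¹ := ⟨_, rfl⟩
  have hg : P.Pg y = (P.Rm y).transpose * X * P.Rm y := by
    rw [hX]
    simp only [Matrix.mul_assoc]
    rw [Matrix.nonsing_inv_mul _ hdet, Matrix.mul_one,
      Matrix.mul_nonsing_inv_cancel_left _ _ hdet']
  obtain ⟨Λ, hΛ⟩ : ∃ Λ : Matrix P.X P.X ℂ, Λ = Matrix.diagonal (fun p : P.X => -P.D.hv P.ctr p.1 y) :=
    ⟨_, rfl⟩
  have hC : P.Rm y * P.C0 P.ctr y = Λ * P.Rm y := by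
    rw [hΛ]
    exact Rm_C0 inv_ctr y
  have hCt : (P.C0 P.ctr y).transpose * (P.Rm y).transpose = (P.Rm y).transpose * Λ := by
    rw [← Matrix.transpose_mul, hC, Matrix.transpose_mul, hΛ, Matrix.diagonal_transpose]
  have hcomm : X * Λ = Λ * X := by
    have h1 := Pg_self0 (P := P) inv_ctr y
    rw [hg] at h1
    have h2 : (P.Rm y).transpose * (X * Λ) * P.Rm y = (P.Rm y).transpose * (Λ * X) * P.Rm y := by
      calc (P.Rm y).transpose * (X * Λ) * P.Rm y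
          = (P.Rm y).transpose * X * (Λ * P.Rm y) := by simp only [Matrix.mul_assoc]
        _ = (P.Rm y).transpose * X * P.Rm y * P.C0 P.ctr y := by
            rw [← hC]
            simp only [Matrix.mul_assoc]
        _ = (P.C0 P.ctr y).transpose * ((P.Rm y).transpose * X * P.Rm y) := h1
        _ = (P.C0 P.ctr y).transpose * (P.Rm y).transpose * (X * P.Rm y) := by
            simp only [Matrix.mul_assoc]
        _ = (P.Rm y).transpose * (Λ * X) * P.Rm y := by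
            rw [hCt]
            simp only [Matrix.mul_assoc]
    have h3 := congrArg (fun M => (P.Rm y).transpose⁻¹ * M * (P.Rm y)⁻¹) h2
    simp only [Matrix.mul_assoc] at h3
    rw [Matrix.mul_nonsing_inv _ hdet, Matrix.mul_one, Matrix.mul_one,
      Matrix.nonsing_inv_mul_cancel_left _ _ hdet',
      Matrix.nonsing_inv_mul_cancel_left _ _ hdet'] at h3
    exact h3
  have hdiag : ∀ p q, p ≠ q → X p q = 0 := by
    intro p q hpq
    have h1 := congrFun (congrFun hcomm p) q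
    rw [hΛ, Matrix.mul_diagonal, Matrix.diagonal_mul, hv_ctr, hv_ctr] at h1
    have h2 := hy2 p q hpq
    have h3 : X p q * (pr (P.D.rt p.1 P.tr) y - pr (P.D.rt q.1 P.tr) y) = 0 := by linear_combination h1
    rcases mul_eq_zero.1 h3 with h4 | h4
    · exact h4
    · exact absurd (sub_eq_zero.1 h4) h2
  have hXd : X = Matrix.diagonal fun p => X p p := by
    ext p q
    by_cases hpq : p = q
    · rw [hpq, Matrix.diagonal_apply_eq]
    · rw [Matrix.diagonal_apply_ne _ hpq, hdiag p q hpq]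
  have hg' : ∀ u v, P.Pg y u v = ∑ p : P.X, P.Rm y p u * X p p * P.Rm y p v := by
    intro u v
    rw [hg, Matrix.mul_apply]
    refine Finset.sum_congr rfl fun p _ => ?_
    rw [hXd, Matrix.mul_diagonal, Matrix.transpose_apply, Matrix.diagonal_apply_eq]
  have hx : ∀ p, X p p = (∏ a ∈ P.Pos, (-pr (P.D.rt p.1 a) y))⁻¹ := by
    have h1 : (Matrix.of fun u p => P.Rm y p u * X p p) * P.Rm y =
        (Matrix.of fun u p => (P.Rm (P.D.yt P.D.w0 y))⁻¹ (P.lm P.D.w0 u) (P.lm P.D.w0 p)) * P.Rm y := by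
      ext u v
      rw [Matrix.mul_apply, Matrix.mul_apply]
      exact (hg' u v).symm.trans (Pg_eq hy1 u v)
    have h2 := congrArg (fun M => M * (P.Rm y)⁻¹) h1
    simp only [Matrix.mul_nonsing_inv_cancel_right _ _ hdet] at h2
    intro p
    have h3 := congrFun (congrFun h2 p) p
    rw [Matrix.of_apply, Matrix.of_apply, Rm_inv_diag (roots_w0 hy1)] at h3
    have h4 : P.Rm y p p * P.Rm (P.D.yt P.D.w0 y) (P.lm P.D.w0 p) (P.lm P.D.w0 p) ≠ 0 := by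
      rw [diag_prod]
      refine Finset.prod_ne_zero_iff.2 fun a ha => ?_
      exact neg_ne_zero.2 (hy1 _ (P.D.rt_mem.2 (pos_mem ha)))
    have h5 := left_ne_zero_of_mul h4
    rw [← diag_prod, mul_inv, ← h3, ← mul_assoc, inv_mul_cancel₀ h5, one_mul]
  rw [hg']
  refine Finset.sum_congr rfl fun p _ => ?_
  rw [hx]
  ring

/-- Atiyah–Bott localisation -/
theorem Pg_loc {y : Fin r → ℂ} (hy : ∀ a ∈ P.D.Φ, pr a y ≠ 0) (u v : P.X) :
    P.Pg y u v = ∑ p : P.X, P.Rm y p u * P.Rm y p v / ∏ a ∈ P.Pos, (-pr (P.D.rt p.1 a) y) := by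
  have h1 : ContinuousAt (fun y => P.Pg y u v) y := (Pg_diff u v).continuous.continuousAt
  have h2 : ContinuousAt (fun y => ∑ p : P.X, P.Rm y p u * P.Rm y p v /
      ∏ a ∈ P.Pos, (-pr (P.D.rt p.1 a) y)) y := by
    refine tendsto_finsetSum _ fun p _ => ?_
    refine ContinuousAt.div ?_ ?_ ?_
    · exact ((Rm_diff p u).continuous.mul (Rm_diff p v).continuous).continuousAt
    · exact (continuous_finsetProd _ fun a _ => (continuous_pr _).neg).continuousAt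
    · refine Finset.prod_ne_zero_iff.2 fun a ha => ?_
      exact neg_ne_zero.2 (hy _ (P.D.rt_mem.2 (pos_mem ha)))
  refine tendsto_nhds_unique_of_frequently_eq h1 h2 ?_
  have h3 := mem_closure_iff_frequently.1 (dense_reg P y)
  exact h3.mono fun z hz => Pg_loc_reg hz u v

theorem Pg_symm (y : Fin r → ℂ) : (P.Pg y).transpose = P.Pg y := by
  ext u v
  rw [Matrix.transpose_apply]
  have h1 : ContinuousAt (fun y => P.Pg y u v) y := (Pg_diff u v).continuous.continuousAt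
  have h2 : ContinuousAt (fun y => P.Pg y v u) y := (Pg_diff v u).continuous.continuousAt
  refine tendsto_nhds_unique_of_frequently_eq h2 h1 ?_
  have h3 := mem_closure_iff_frequently.1 (dense_reg P y)
  refine h3.mono fun z hz => ?_
  rw [Pg_loc_reg hz, Pg_loc_reg hz]
  refine Finset.sum_congr rfl fun p _ => ?_
  rw [mul_comm (P.Rm z p v)]

/-- `R⁻¹ = g⁻¹ Rᵀ d` -/
theorem Rm_inv {y : Fin r → ℂ} (hy : ∀ a ∈ P.D.Φ, pr a y ≠ 0) (u p : P.X) :
    (P.Rm y)⁻¹ u p = ∑ v, (P.Pg y)⁻¹ u v * (P.Rm y p v / ∏ a ∈ P.Pos, (-pr (P.D.rt p.1 a) y)) := by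
  have hdet : IsUnit (P.Rm y).det := isUnit_iff_ne_zero.2 (Rm_det_ne hy)
  have hdg : IsUnit (P.Pg y).det := isUnit_iff_ne_zero.2 (Pg_det y)
  obtain ⟨Z, hZ⟩ : ∃ Z : Matrix P.X P.X ℂ,
      Z = Matrix.of fun v p => P.Rm y p v / ∏ a ∈ P.Pos, (-pr (P.D.rt p.1 a) y) := ⟨_, rfl⟩
  have h1 : P.Pg y = Z * P.Rm y := by
    ext u v
    rw [Pg_loc hy, Matrix.mul_apply]
    refine Finset.sum_congr rfl fun p _ => ?_
    rw [hZ, Matrix.of_apply]
    ring
  have h2 : (P.Rm y)⁻¹ = (P.Pg y)⁻¹ * Z := by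
    have h3 : P.Pg y * (P.Rm y)⁻¹ = Z := by
      rw [h1, Matrix.mul_nonsing_inv_cancel_right _ _ hdet]
    rw [← h3, Matrix.nonsing_inv_mul_cancel_left _ _ hdg]
  rw [h2, Matrix.mul_apply, hZ]
  rfl

end Pool.Agent.FLG.Par
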