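import Pool.Agent.FLG.P.Gq
import Pool.Agent.FLG.M.Tr

/-!
# FLG-P-FMain: monodromy data of the quantum connection of `G/P`
-/

set_option autoImplicit false

open scoped BigOperators Topology
open Filter
open Pool.Agent.DST Pool.Agent.DST.TE Pool.Agent.DSTJ Pool.Agent.DSTJ.Spec Pool.Agent.FLG.Dl
open Pool.Agent.FLG.Mo

namespace Pool.Agent.FLG.Par

open RS

variable {r : ℕ}

/-- The first structure connection of `G/P` at the point `t ∈ H^2`, in the basis of the Schubert
classes. -/
noncomputable def smallF (P : Par r) (t : Fin r → ℂ) : Small P.X where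
  dim := P.dm
  deg := fun u => P.len u.1
  pair := Matrix.of fun u v => if u = P.lm P.D.w0 v then 1 else 0
  cup := P.E0 (P.D.ch P.ctr)
  mul := P.E (P.D.ch P.ctr) t

variable {P : Par r} {N : ℕ} (n : P.Num N) {t : Fin r → ℂ} (ht : P.Inv t)

private theorem hv_zero (h : Fin r → ℂ) (u : P.D.W) : P.D.hv h u 0 = 0 := by
  unfold hv
  rw [P.D.yt_zero]
  simp

private theorem Cq_zero (h t : Fin r → ℂ) : P.Cq h t 0 = P.E (P.D.ch h) t := by
  unfold Cq
  rw [show (fun u : P.X => P.D.hv h u.1 0) = fun _ => (0 : ℂ) from funext fun u => hv_zero h u.1]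
  rw [show (Matrix.diagonal fun _ : P.X => (0 : ℂ)) = 0 from Matrix.diagonal_zero, sub_zero]

private theorem C0_zero' (h : Fin r → ℂ) : P.C0 h 0 = P.E0 (P.D.ch h) := by
  unfold C0
  rw [show (fun u : P.X => P.D.hv h u.1 0) = fun _ => (0 : ℂ) from funext fun u => hv_zero h u.1]
  rw [show (Matrix.diagonal fun _ : P.X => (0 : ℂ)) = 0 from Matrix.diagonal_zero, sub_zero]

private theorem Cg_zero (t : Fin r → ℂ) : P.Cg t 0 0 = P.E0 (P.D.ch P.ctr) := by
  rw [← C0_zero']
  exact if_pos rfl

private theorem Pg_zero' (t : Fin r → ℂ) : P.Pg 0 = (smallF P t).pair := by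
  ext u v
  exact Pg_zero u v

include ht in
theorem ok_smallF : Ok (smallF P t) where
  symm := by rw [← Pg_zero', Pg_symm]
  det := by rw [← Pg_zero']; exact Pg_det 0
  deg := by
    intro a b hab
    have h1 : a = P.lm P.D.w0 b := by
      by_contra hne
      exact hab (if_neg hne)
    show P.len a.1 + P.len b.1 = P.dm
    rw [h1, len_lm, len_w0]
  self := by
    rw [← Pg_zero']
    show (P.E (P.D.ch P.ctr) t).transpose * P.Pg 0 = P.Pg 0 * P.E (P.D.ch P.ctr) t
    rw [← Cq_zero, ← Pg_self inv_ctr ht]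
  cup_deg := fun a b hab => E0_ne hab

variable (t)

private theorem nr_zero : (toBase n t).NR 0 := by
  intro p q m hm h
  have h0 : ∀ a : Fin r → ℤ, pr a (0 : Fin r → ℂ) = 0 := fun a => by simp [pr]
  rw [h0, h0, sub_zero] at h
  exact hm (by exact_mod_cast h.symm)

/-- the standard solution -/
noncomputable def Zst (w : ℂ) : Matrix P.X P.X ℂ :=
  ((toBase n t).J0 (fun _ => 1) 0 w).submatrix n.e.symm n.e.symm

private theorem C0_base : (toBase n t).C 0 0 = (smallF P t).cup.submatrix n.e n.e := by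
  show (P.Cg t 0 0).submatrix n.e n.e = _
  rw [Cg_zero]
  rfl

private theorem θ_base : Matrix.diagonal (toBase n t).θ = (smallF P t).theta.submatrix n.e n.e := by
  unfold Small.theta
  rw [Matrix.submatrix_diagonal_equiv]
  rfl

private theorem sub_sub {ι κ : Type} (e : κ ≃ ι) (A : Matrix κ κ ℂ) :
    (A.submatrix e.symm e.symm).submatrix e e = A := by
  ext a b
  simp

private theorem sub_sub' {ι κ : Type} (e : κ ≃ ι) (A : Matrix ι ι ℂ) :
    (A.submatrix e e).submatrix e.symm e.symm = A := by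
  ext a b
  simp

variable {t}

include ht in
theorem isStandard_Zst : IsStandard (smallF P t) (Zst n t) := by
  constructor
  · have h1 : (toMS (smallF P t) (ok_smallF ht) n.e).Sol ((toBase n t).J0 (fun _ => 1) 0) := by
      intro w i j
      have h2 := (toBase n t).J0_ode (G := fun _ => 1) (nr_zero n t)
        (fun w => (smallF P t).mul.submatrix n.e n.e) (by
          intro w i j
          have h3 := P.C_graded t 0 w (n.e i) (n.e j)
          have h4 : (fun i => (0 : Fin r → ℂ) i * Complex.exp w) = 0 := by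
            funext i
            simp
          rw [h4, Cq_zero] at h3
          exact h3) w i j
      rw [toMS_θ, ← θ_base]
      exact h2
    exact sol_sub (ok_smallF ht) n.e n.e.symm h1
  · refine ⟨fun z => ((toBase n t).cal 0 z⁻¹).submatrix n.e.symm n.e.symm, ?_, ?_⟩
    · intro i j
      have h1 := (toBase n t).cal_lim (nr_zero n t) (n.e.symm i) (n.e.symm j)
      have h2 : (1 : Matrix (Fin N) (Fin N) ℂ) (n.e.symm i) (n.e.symm j) =
          (1 : Matrix P.X P.X ℂ) i j := by
        rw [Matrix.one_apply, Matrix.one_apply]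
        exact if_congr n.e.symm.injective.eq_iff rfl rfl
      rw [h2] at h1
      exact h1
    · intro w
      unfold Zst Base.J0
      have e1 : w • (smallF P t).theta.submatrix n.e n.e =
        (w • (smallF P t).theta).submatrix n.e n.e := rfl
      have e2 : -w • (smallF P t).cup.submatrix n.e n.e =
        (-w • (smallF P t).cup).submatrix n.e n.e := rfl
      rw [mul_one, C0_base, θ_base, e1, e2, ← exp_sub,
        ← exp_sub, ← Matrix.submatrix_mul_equiv _ _ n.e.symm n.e.symm n.e.symm,
        ← Matrix.submatrix_mul_equiv _ _ n.e.symm n.e.symm n.e.symm, sub_sub', sub_sub',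
        Complex.exp_neg]

private theorem lim_P {T : GQ N} (h1 : T.dim = P.dm) (h2 : T.deg = fun p => P.len (n.e p).1)
    (h3 : T.C = fun x => (P.Cq P.ctr t (ln0 n x)).submatrix n.e n.e)
    (h4 : T.g = fun x => (P.Pg (ln0 n x)).submatrix n.e n.e) : IsLimS T (smallF P t) n.e := by
  have hl0 : ln0 n 0 = 0 := by
    funext i
    simp [ln0]
  exact
    { dim := h1.symm
      deg := fun p => by rw [h2]; rfl
      mul := by
        rw [h3]
        show _ = (P.Cq P.ctr t (ln0 n 0)).submatrix n.e n.e
        rw [hl0, Cq_zero]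
        rfl
      pair := by
        rw [h4]
        show _ = (P.Pg (ln0 n 0)).submatrix n.e n.e
        rw [hl0, Pg_zero' t] }

include ht in
/-- The columns of `X_-` are the `Γ`-solutions of a basis of `K`-theory, the Stokes matrix is the
Gram matrix of the Euler form, and the connection matrix is given by the `Γ`-class. -/
theorem main_flag (K : P.KD t) (M : MonodromyData (smallF P t) N) :
    ∃ U : Matrix (Fin N) (Fin N) ℤ, IsUnit U.det ∧
      M.S = (U.map (Int.castRingHom ℂ)).transpose *
        (Matrix.of fun i j => evK 0 (K.χ (n.e i) (n.e j))) * U.map (Int.castRingHom ℂ) ∧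
      (∀ w, M.Xminus w = (Complex.I / (Real.sqrt (2 * Real.pi) : ℂ)) ^ P.dm •
        (Zst n t w * (K.G 0).submatrix id n.e * U.map (Int.castRingHom ℂ))) ∧
      ∃ Q : Matrix P.X P.X ℂ, Q * (smallF P t).cup = (smallF P t).cup * Q ∧ Q.det ≠ 0 ∧
        (∀ w, zSol (smallF P t) M.𝒮 w = Zst n t w * Q) ∧
        Q * M.C = (Complex.I / (Real.sqrt (2 * Real.pi) : ℂ)) ^ P.dm •
          ((K.G 0).submatrix id n.e * U.map (Int.castRingHom ℂ)) := by
  obtain ⟨T, h1, h2, h3, h4, h5, h6⟩ := exists_GQ n ht K
  have hlim : IsLimS T (smallF P t) n.e := lim_P n h1 h2 h3 h4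
  have hJ : ∀ w, T.J 0 w = (Zst n t w * (K.G 0).submatrix id n.e).submatrix n.e id := by
    intro w
    rw [h6]
    have h7 : (toFro n ht K).J0 (toFro n ht K).G 0 w =
        (toBase n t).J0 (fun _ => 1) 0 w * (K.G 0).submatrix n.e n.e := by
      show (toBase n t).J0 _ 0 w = _
      unfold Base.J0
      rw [mul_one]
      rfl
    rw [h7]
    unfold Zst
    rw [← Matrix.submatrix_mul_equiv _ _ n.e n.e id, sub_sub]
    rfl
  obtain ⟨U, hU, hS, hX, Q, hQ⟩ := main_small hlim (ok_smallF ht) (isStandard_Zst n ht) hJ M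
  refine ⟨U, hU, ?_, hX, Q, hQ⟩
  rw [hS, h5]
  congr 2
  ext i j
  show evZ 0 (resK n.ξ (K.χ (n.e i) (n.e j))) = evK 0 (K.χ (n.e i) (n.e j))
  have h8 : (fun k => (0 : ℂ) * (n.ξ k : ℂ)) = (0 : Fin r → ℂ) := by
    funext k
    simp
  rw [evZ_resK, h8]

include n ht in
/-- Existence of monodromy data. -/
theorem exists_data_flag (K : P.KD t) (hsep : (smallF P t).mul.charpoly.Separable) {φ : ℝ}
    (hφ : IsAdmissible (smallF P t) φ) : ∃ M : MonodromyData (smallF P t) N, M.φ = φ := by
  obtain ⟨T, h1, h2, h3, h4, h5, h6⟩ := exists_GQ n ht K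
  have hlim : IsLimS T (smallF P t) n.e := lim_P n h1 h2 h3 h4
  refine exists_data_small hlim (ok_smallF ht) (fun d => P.Cg t d 0) P.KK (Cg_zero t) ?_
    (fun d hd => Cg_big t hd 0) ?_ hsep hφ
  · intro d i j hd
    show P.len i.1 + d = P.len j.1 + 1
    by_cases h0 : d = 0
    · subst h0
      rw [Cg_zero] at hd
      exact E0_ne hd
    · have h8 : P.Cg t d 0 = P.Eq (P.D.ch P.ctr) t d := if_neg h0
      rw [h8] at hd
      exact_mod_cast Eq_ne hd
  · ext i j
    have h9 := P.C_graded t 0 0 i j
    have h10 : (fun i => (0 : Fin r → ℂ) i * Complex.exp 0) = 0 := by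
      funext i
      simp
    rw [h10, Cq_zero, neg_zero, Complex.exp_zero, one_mul] at h9
    show P.E (P.D.ch P.ctr) t i j = _
    rw [h9, Matrix.sum_apply]
    refine Finset.sum_congr rfl fun k _ => ?_
    rw [mul_zero, neg_zero, zero_mul, Complex.exp_zero, one_mul, one_mul]

end Pool.Agent.FLG.Par
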