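import Pool.Agent.FLG.P.Bnd

/-!
# FLG-P-Xi: the weights of `c_1` at the fixed points
-/

set_option autoImplicit false

open scoped BigOperators
open Pool.Agent.DST.TE

namespace Pool.Agent.FLG.Par

open RS

variable {r : ℕ} {P : Par r}

theorem tr_dom {b : Fin r → ℤ} (hb : b ∈ P.D.Pos) : 0 ≤ P.L b := by
  by_cases h : P.Levi b
  · rw [L_levi h]
  · have h1 := two_le_L (mem_Pos.2 ⟨hb, h⟩)
    omega

private theorem xi_L_rt (w : P.D.W) {a : Fin r → ℤ} (ha : a ∈ P.D.Φ) (h : P.D.rt w P.tr = P.tr) :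
    P.L (P.D.rt w a) = P.L a := by
  unfold L
  have h1 : P.D.rt w⁻¹ P.tr = P.tr := by
    conv_lhs => rw [← h]
    exact P.D.rt_inv_rt w P.tr
  rw [co_rt w ha, h1]

private theorem xi_L_neg {a : Fin r → ℤ} (ha : a ∈ P.D.Φ) : P.L (-a) = -P.L a := by
  unfold L
  rw [co_neg ha, neg_dotProduct]

private theorem xi_mem {i : Fin r} (hi : i ∉ P.J) : al i ∈ P.Pos := by
  unfold Pos
  refine Finset.mem_filter.2 ⟨al_pos P.D i, i, hi, ?_⟩
  unfold al
  rw [Pi.single_eq_same]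
  exact one_ne_zero

theorem tr_stab {w : P.D.W} (h : P.D.rt w P.tr = P.tr) : w ∈ P.WJ := by
  obtain ⟨v, hv, hw⟩ := fl_spec w
  have hp : P.D.rt (P.fl w).1 P.tr = P.tr := by rw [rt_fl_tr, h]
  by_cases h1 : (P.fl w).1 = 1
  · rw [h1, one_mul] at hw
    rw [hw]
    exact hv
  · exfalso
    have h2 : ((P.fl w).1)⁻¹ ≠ 1 := fun h3 => h1 (inv_eq_one.1 h3)
    obtain ⟨i, hi⟩ := exists_descent h2
    have h3 : P.D.rt (P.fl w).1 (al i) ∉ P.D.Pos := by
      intro h4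
      have h5 := len_s_mul_of_pos i ((P.fl w).1)⁻¹ (by rw [inv_inv]; exact h4)
      omega
    have h4 : i ∉ P.J := fun h5 => h3 ((P.fl w).2 i h5)
    have h5 := two_le_L (xi_mem h4)
    have h6 := xi_L_rt (P.fl w).1 (P.D.al_mem i) hp
    have h7 : -P.D.rt (P.fl w).1 (al i) ∈ P.D.Pos :=
      (not_pos_iff (P.D.rt_mem.2 (P.D.al_mem i))).1 h3
    have h8 := tr_dom h7
    rw [xi_L_neg (P.D.rt_mem.2 (P.D.al_mem i))] at h8
    omega

theorem rt_tr_inj {p q : P.X} (h : P.D.rt p.1 P.tr = P.D.rt q.1 P.tr) : p = q := by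
  apply unique
  apply tr_stab
  rw [P.D.rt_mul, ← h, P.D.rt_inv_rt]

/-- two fixed points are joined by at most one curve -/
theorem refl_unique (w : P.D.W) {a a' : Fin r → ℤ} (ha : a ∈ P.Pos) (ha' : a' ∈ P.Pos)
    (h : P.fl (w * P.D.refl a) = P.fl (w * P.D.refl a')) : a = a' := by
  have ha0 := pos_mem ha
  have ha0' := pos_mem ha'
  have h1 := (fl_eq_iff _ _).1 h
  rw [mul_inv_rev, mul_assoc, inv_mul_cancel_left, RS.refl_inv ha0] at h1
  have h2 := tr_inv h1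
  have h3 : P.D.rt (P.D.refl a') P.tr = P.D.rt (P.D.refl a) P.tr := by
    have h4 := congrArg (P.D.rt (P.D.refl a)) h2
    rw [← P.D.rt_mul, ← mul_assoc, refl_mul_self ha0, one_mul] at h4
    exact h4
  rw [rt_refl ha0', rt_refl ha0] at h3
  have h4 : P.L a' • a' = P.L a • a := sub_right_injective h3
  have h5 := two_le_L ha
  have h6 := two_le_L ha'
  rcases P.D.reduced a ha0 a' ha0' (P.L a) (P.L a') (by omega) h4.symm with h7 | h7
  · exact h7
  · exfalso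
    have h8 := (mem_Pos.1 ha).1
    have h9 := (mem_Pos.1 ha').1
    rw [h7] at h8
    exact neg_not_pos h9 h8

theorem exists_xi (P : Par r) : ∃ ξ : Fin r → ℤ, (∀ i, 0 < ξ i) ∧
    Function.Injective fun p : P.X => dotProduct ξ (P.D.rt p.1 P.tr) := by
  classical
  obtain ⟨f, hf⟩ : ∃ f : P.X → P.X → Polynomial ℤ, f = fun u w =>
      ∑ i : Fin r, Polynomial.C (P.D.rt u.1 P.tr i - P.D.rt w.1 P.tr i) *
        Polynomial.X ^ (i : ℕ) := ⟨_, rfl⟩
  have h0 : ∀ u w, u ≠ w → f u w ≠ 0 := by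
    intro u w huw h
    apply huw
    apply rt_tr_inj
    funext j
    have h2 := congrArg (fun p : Polynomial ℤ => p.coeff (j : ℕ)) h
    beta_reduce at h2
    rw [hf] at h2
    beta_reduce at h2
    rw [Polynomial.finsetSum_coeff, Polynomial.coeff_zero, Finset.sum_eq_single j] at h2
    · rw [Polynomial.coeff_C_mul_X_pow, if_pos rfl] at h2
      linarith
    · intro k _ hk
      rw [Polynomial.coeff_C_mul_X_pow, if_neg]
      intro h3
      exact hk (Fin.ext h3.symm)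
    · intro h3
      exact absurd (Finset.mem_univ j) h3
  obtain ⟨Q, hQ⟩ : ∃ Q : Polynomial ℤ, Q = ∏ q ∈ (Finset.univ : Finset (P.X × P.X)).filter
      (fun q => q.1 ≠ q.2), f q.1 q.2 := ⟨_, rfl⟩
  have h1 : Q ≠ 0 := by
    rw [hQ, Finset.prod_ne_zero_iff]
    intro q hq
    exact h0 _ _ (Finset.mem_filter.1 hq).2
  obtain ⟨M, hM0, hM⟩ : ∃ M : ℤ, 0 < M ∧ Q.eval M ≠ 0 := by
    by_contra h2
    apply h1
    refine Polynomial.eq_zero_of_infinite_isRoot Q ((Set.Ioi_infinite (0 : ℤ)).mono fun M hM => ?_)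
    by_contra h3
    exact h2 ⟨M, hM, h3⟩
  refine ⟨fun i => M ^ (i : ℕ), fun i => pow_pos hM0 _, fun u w huw => ?_⟩
  by_contra hne
  apply hM
  rw [hQ, Polynomial.eval_prod]
  refine Finset.prod_eq_zero (i := (u, w)) (Finset.mem_filter.2 ⟨Finset.mem_univ _, hne⟩) ?_
  rw [hf]
  beta_reduce
  rw [Polynomial.eval_finsetSum]
  have h2 : ∀ i : Fin r, Polynomial.eval M (Polynomial.C (P.D.rt u.1 P.tr i - P.D.rt w.1 P.tr i) *
      Polynomial.X ^ (i : ℕ)) = M ^ (i : ℕ) * P.D.rt u.1 P.tr i - M ^ (i : ℕ) * P.D.rt w.1 P.tr i := by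
    intro i
    rw [Polynomial.eval_mul, Polynomial.eval_C, Polynomial.eval_pow, Polynomial.eval_X]
    ring
  rw [Finset.sum_congr rfl fun i _ => h2 i, Finset.sum_sub_distrib]
  exact sub_eq_zero.2 huw

/-- the regular points -/
def Reg (P : Par r) : Set (Fin r → ℂ) := {y | (∀ a ∈ P.D.Φ, pr a y ≠ 0) ∧
  ∀ p q : P.X, p ≠ q → pr (P.D.rt p.1 P.tr) y ≠ pr (P.D.rt q.1 P.tr) y}

private abbrev XiK (P : Par r) : Type :=
  {a : Fin r → ℤ // a ∈ P.D.Φ} ⊕ {x : P.X × P.X // x.1 ≠ x.2}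

private noncomputable def xiA (P : Par r) : XiK P → Fin r → ℤ
  | Sum.inl a => a.1
  | Sum.inr x => P.D.rt x.1.1.1 P.tr - P.D.rt x.1.2.1 P.tr

private theorem xi_xi {ξ : Fin r → ℤ} (hξ : ∀ i, 0 < ξ i)
    (hi : Function.Injective fun p : P.X => dotProduct ξ (P.D.rt p.1 P.tr)) (k : XiK P) :
    ∑ i, xiA P k i * ξ i ≠ 0 := by
  rcases k with ⟨a, ha⟩ | ⟨x, hx⟩
  · show ∑ i, a i * ξ i ≠ 0
    have key : ∀ b ∈ P.D.Φ, (∀ i, 0 ≤ b i) → 0 < ∑ i, b i * ξ i := by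
      intro b hb h0
      refine lt_of_le_of_ne (Finset.sum_nonneg fun i _ => mul_nonneg (h0 i) (hξ i).le) ?_
      intro h1
      apply ne_zero hb
      funext i
      have h2 := (Finset.sum_eq_zero_iff_of_nonneg fun i _ => mul_nonneg (h0 i) (hξ i).le).1
        h1.symm i (Finset.mem_univ i)
      exact (mul_eq_zero.1 h2).resolve_right (hξ i).ne'
    rcases P.D.sign a ha with h | h
    · exact (key a ha h).ne'
    · have h1 := key (-a) (neg_mem ha) fun i => by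
        rw [Pi.neg_apply]
        have := h i
        omega
      have h2 : ∑ i, (-a) i * ξ i = -∑ i, a i * ξ i := by
        rw [← Finset.sum_neg_distrib]
        exact Finset.sum_congr rfl fun i _ => by rw [Pi.neg_apply, neg_mul]
      rw [h2] at h1
      omega
  · show ∑ i, (P.D.rt x.1.1 P.tr - P.D.rt x.2.1 P.tr) i * ξ i ≠ 0
    have h1 : ∑ i, (P.D.rt x.1.1 P.tr - P.D.rt x.2.1 P.tr) i * ξ i =
        dotProduct ξ (P.D.rt x.1.1 P.tr) - dotProduct ξ (P.D.rt x.2.1 P.tr) := by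
      unfold dotProduct
      rw [← Finset.sum_sub_distrib]
      exact Finset.sum_congr rfl fun i _ => by
        rw [Pi.sub_apply]
        ring
    rw [h1]
    intro h2
    exact hx (hi (sub_eq_zero.1 h2))

private theorem xi_pr (a b : Fin r → ℤ) (y : Fin r → ℂ) : pr (a - b) y = pr a y - pr b y := by
  unfold pr
  rw [← Finset.sum_sub_distrib]
  exact Finset.sum_congr rfl fun i _ => by
    rw [Pi.sub_apply]
    push_cast
    ring

theorem dense_reg (P : Par r) : Dense P.Reg := by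
  obtain ⟨ξ, hξ, hi⟩ := exists_xi P
  intro y
  have h1 := Pool.Agent.DSTJ.Spec.dense_hyp (xiA P) (fun _ => (0 : ℂ)) ξ (xi_xi hξ hi) y
  refine closure_mono ?_ h1
  intro y' hy'
  refine ⟨fun a ha => hy' (Sum.inl ⟨a, ha⟩), fun p q hpq h2 => ?_⟩
  refine hy' (Sum.inr ⟨(p, q), hpq⟩) ?_
  show pr (P.D.rt p.1 P.tr - P.D.rt q.1 P.tr) y' = 0
  rw [xi_pr, h2, sub_self]

theorem dense_SG (P : Par r) : Dense {y | P.SG y} := by
  obtain ⟨ξ, hξ, hi⟩ := exists_xi P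
  intro y
  have h1 := Pool.Agent.DSTJ.Spec.dense_hyp (K := XiK P × ℤ) (fun k => xiA P k.1)
    (fun k => (k.2 : ℂ)) ξ (fun k => xi_xi hξ hi k.1) y
  refine closure_mono ?_ h1
  intro y' hy'
  refine ⟨fun a ha n => hy' (Sum.inl ⟨a, ha⟩, n), fun p q hpq n h2 => ?_⟩
  refine hy' (Sum.inr ⟨(p, q), hpq⟩, n) ?_
  show pr (P.D.rt p.1 P.tr - P.D.rt q.1 P.tr) y' = n
  rw [xi_pr, h2]

private theorem xi_dom {u w : P.D.W} (h : P.D.Bru u w) (i : Fin r) :
    P.D.rt w P.tr i ≤ P.D.rt u P.tr i := by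
  induction h with
  | refl => exact le_rfl
  | tail _ h2 ih =>
    obtain ⟨a, ha, rfl, h3⟩ := h2
    refine le_trans ?_ ih
    have h4 := (bru_edge ha).1 h3
    rw [P.D.rt_mul, rt_refl (mem_of_pos ha), P.D.rt_sub, P.D.rt_smul, Pi.sub_apply, Pi.smul_apply,
      smul_eq_mul]
    have h5 : 0 ≤ dotProduct (P.D.co a) P.tr := tr_dom ha
    have h6 := (RS.mem_Pos.1 h4).2 i
    have h7 := mul_nonneg h5 h6
    linarith

theorem bru_strict {u w : P.X} (h : P.D.Bru u.1 w.1) (hne : u ≠ w) {ξ : Fin r → ℤ}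
    (hξ : ∀ i, 0 < ξ i) :
    dotProduct ξ (P.D.rt w.1 P.tr) < dotProduct ξ (P.D.rt u.1 P.tr) := by
  have h1 := xi_dom h
  have h2 : ∃ i, P.D.rt w.1 P.tr i < P.D.rt u.1 P.tr i := by
    by_contra h3
    have h4 : P.D.rt w.1 P.tr = P.D.rt u.1 P.tr := by
      funext i
      refine le_antisymm (h1 i) ?_
      by_contra h5
      exact h3 ⟨i, not_le.1 h5⟩
    exact hne (rt_tr_inj h4).symm
  obtain ⟨i, hi⟩ := h2
  exact Finset.sum_lt_sum (fun j _ => mul_le_mul_of_nonneg_left (h1 j) (hξ j).le)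
    ⟨i, Finset.mem_univ i, mul_lt_mul_of_pos_left hi (hξ i)⟩

end Pool.Agent.FLG.Par
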