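import Pool.Agent.FLG.P.CommA
import Pool.Agent.FLG.P.Xi
import Pool.Agent.FLG.Rtri

/-!
# FLG-P-RmatA: the restriction matrix as a block

PLAN. Everything from the statements for `G/B` (Rmat.lean, Rtri.lean) by restriction to the columns and rows in `P.X`: `Rm_homog`: `len_val`. `Rm_C0`: the column `u ∈ X` of `D.C0 h y` is supported on `X` and
is the column of `P.C0 h y` (`E0_block`, `lab_ch`). `Rm_diag`: for `p ∈ X` the map `a ↦ -rt p a` is a bijection from `{a ∈ P.Pos | rt p a ∉ D.Pos}` to `{b ∈ D.Pos | rt p⁻¹ b ∉ D.Pos}` (inversions of a minimal representative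
are in `P.Pos`, `x_levi`). `Rm_det`: block triangular for `len` (`Rm_tri`, `Bru.len_lt`), as in Rtri.lean.
-/

set_option autoImplicit false

open scoped BigOperators
open Pool.Agent.DST.TE

namespace Pool.Agent.FLG.Par

open RS

variable {r : ℕ} {P : Par r}

theorem Rm_diff (p w : P.X) : Differentiable ℂ fun y => P.Rm y p w := by
  exact RS.Rm_diff p.1 w.1

theorem Rm_one (y : Fin r → ℂ) (p : P.X) : P.Rm y p P.one = 1 := by
  exact RS.Rm_one y p.1

theorem Rm_homog (x : ℂ) (y : Fin r → ℂ) (p w : P.X) :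
    P.Rm (fun i => x * y i) p w = x ^ P.len w.1 * P.Rm y p w := by
  rw [len_val]
  exact RS.Rm_homog x y p.1 w.1

open Classical in
private theorem ra_block {h : Fin r → ℂ} (hh : P.Inv h) (y : Fin r → ℂ) (v : P.D.W) (u : P.X) :
    P.D.C0 h y v u.1 = if hv : ∀ j ∈ P.J, P.D.rt v (al j) ∈ P.D.Pos then P.C0 h y ⟨v, hv⟩ u else 0 := by
  have h1 := E0_block (lab_ch hh) v u
  have h2 : P.D.C0 h y v u.1 = P.D.E0 (P.D.ch h) v u.1 - (if v = u.1 then P.D.hv h v y else 0) := by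
    unfold RS.C0
    rw [Matrix.sub_apply, Matrix.diagonal_apply]
  rw [h2, h1]
  by_cases hv : ∀ j ∈ P.J, P.D.rt v (al j) ∈ P.D.Pos
  · have h3 : P.C0 h y ⟨v, hv⟩ u = P.E0 (P.D.ch h) ⟨v, hv⟩ u -
        (if (⟨v, hv⟩ : P.X) = u then P.D.hv h v y else 0) := by
      unfold C0
      rw [Matrix.sub_apply, Matrix.diagonal_apply]
      rfl
    rw [dif_pos hv, dif_pos hv, h3]
    congr 1
    refine if_congr ?_ rfl rfl
    exact ⟨fun h => Subtype.ext h, fun h => congrArg Subtype.val h⟩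
  · rw [dif_neg hv, dif_neg hv]
    have h3 : v ≠ u.1 := by
      rintro rfl
      exact hv u.2
    rw [if_neg h3, sub_zero]

/-- the same for all rows -/
theorem Rm_row {h : Fin r → ℂ} (hh : P.Inv h) (y : Fin r → ℂ) (w : P.D.W) (u : P.X) :
    ∑ v : P.X, P.D.Rm y w v.1 * P.C0 h y v u = -P.D.hv h w y * P.D.Rm y w u.1 := by
  classical
  have h1 := congrFun (congrFun (RS.Rm_C0 (D := P.D) h y) w) u.1
  rw [Matrix.diagonal_mul, Matrix.mul_apply] at h1
  rw [← h1]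
  have h2 : ∑ v : P.X, P.D.Rm y w v.1 * P.C0 h y v u = ∑ v : P.X, P.D.Rm y w v.1 * P.D.C0 h y v.1 u.1 := by
    refine Finset.sum_congr rfl fun v _ => ?_
    rw [ra_block hh y v.1 u, dif_pos v.2]
    rfl
  rw [h2]
  have hinj : Function.Injective fun v : P.X => v.1 := fun _ _ h => Subtype.ext h
  have h3 : ∑ v : P.X, P.D.Rm y w v.1 * P.D.C0 h y v.1 u.1 =
      ∑ v ∈ Finset.univ.image (fun v : P.X => v.1), P.D.Rm y w v * P.D.C0 h y v u.1 :=
    (Finset.sum_image (f := fun v => P.D.Rm y w v * P.D.C0 h y v u.1) fun _ _ _ _ h => hinj h).symm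
  rw [h3]
  refine Finset.sum_subset (Finset.subset_univ _) fun v _ hv => ?_
  have h4 : ¬ ∀ j ∈ P.J, P.D.rt v (al j) ∈ P.D.Pos := fun h =>
    hv (Finset.mem_image.2 ⟨⟨v, h⟩, Finset.mem_univ _, rfl⟩)
  rw [ra_block hh y v u, dif_neg h4, mul_zero]

theorem Rm_C0 {h : Fin r → ℂ} (hh : P.Inv h) (y : Fin r → ℂ) :
    P.Rm y * P.C0 h y = Matrix.diagonal (fun p : P.X => -P.D.hv h p.1 y) * P.Rm y := by
  ext p u
  rw [Matrix.diagonal_mul, Matrix.mul_apply]
  exact Rm_row hh y p.1 u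

theorem Rm_tri {p w : P.X} (h : ¬ P.D.Bru w.1 p.1) (y : Fin r → ℂ) : P.Rm y p w = 0 := by
  exact RS.Rm_tri h y

private theorem ra_neg (a : Fin r → ℤ) (y : Fin r → ℂ) : pr (-a) y = -pr a y := by
  unfold pr
  rw [← Finset.sum_neg_distrib]
  refine Finset.sum_congr rfl fun i _ => ?_
  rw [Pi.neg_apply]
  push_cast
  ring

theorem Rm_diag (y : Fin r → ℂ) (p : P.X) : P.Rm y p p =
    ∏ a ∈ P.Pos.filter (fun a => P.D.rt p.1 a ∉ P.D.Pos), (-pr (P.D.rt p.1 a) y) := by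
  have h1 : P.Rm y p p = P.D.Rm y p.1 p.1 := rfl
  rw [h1, RS.Rm_diag]
  symm
  refine Finset.prod_nbij' (fun a => -P.D.rt p.1 a) (fun b => -P.D.rt p.1⁻¹ b) ?_ ?_ ?_ ?_ ?_
  · intro a ha
    obtain ⟨ha1, ha2⟩ := Finset.mem_filter.1 ha
    have h2 : P.D.rt p.1 a ∈ P.D.Φ := P.D.rt_mem.2 (pos_mem ha1)
    refine Finset.mem_filter.2 ⟨(not_pos_iff h2).1 ha2, ?_⟩
    rw [P.D.rt_neg, P.D.rt_inv_rt]
    exact neg_not_pos (mem_Pos.1 ha1).1
  · intro b hb
    obtain ⟨hb1, hb2⟩ := Finset.mem_filter.1 hb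
    have h2 : P.D.rt p.1⁻¹ b ∈ P.D.Φ := P.D.rt_mem.2 (mem_of_pos hb1)
    have h3 : -P.D.rt p.1⁻¹ b ∈ P.D.Pos := (not_pos_iff h2).1 hb2
    have h4 : P.D.rt p.1 (-P.D.rt p.1⁻¹ b) = -b := by rw [P.D.rt_neg, P.D.rt_rt_inv]
    refine Finset.mem_filter.2 ⟨mem_Pos.2 ⟨h3, fun h => ?_⟩, ?_⟩
    · have h5 := (x_levi p h).2 h3
      rw [h4] at h5
      exact neg_not_pos hb1 h5
    · rw [h4]
      exact neg_not_pos hb1
  · intro a _
    show -P.D.rt p.1⁻¹ (-P.D.rt p.1 a) = a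
    rw [P.D.rt_neg, P.D.rt_inv_rt, neg_neg]
  · intro b _
    show -P.D.rt p.1 (-P.D.rt p.1⁻¹ b) = b
    rw [P.D.rt_neg, P.D.rt_rt_inv, neg_neg]
  · intro a _
    rw [ra_neg]

private theorem ra_len {p w : P.X} (h : w ≠ p) (hl : P.D.len p.1 ≤ P.D.len w.1) (y : Fin r → ℂ) :
    P.Rm y p w = 0 := by
  refine Rm_tri (fun hb => ?_) y
  have := Bru.len_lt hb fun h' => h (Subtype.ext h')
  omega

theorem Rm_det (y : Fin r → ℂ) : (P.Rm y).det = ∏ p, P.Rm y p p := by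
  rw [Matrix.det_apply, Finset.sum_eq_single 1]
  · rw [Equiv.Perm.sign_one, one_smul]
    rfl
  · intro σ _ hσ
    have h1 : ∃ k, P.Rm y (σ k) k = 0 := by
      by_contra h2
      push Not at h2
      have h3 : ∀ k, P.D.len k.1 ≤ P.D.len (σ k).1 := by
        intro k
        by_contra h4
        refine h2 k (ra_len ?_ (by omega) y)
        intro h5
        rw [← h5] at h4
        exact h4 le_rfl
      have h4 : ∑ k, P.D.len (σ k).1 = ∑ k : P.X, P.D.len k.1 := Equiv.sum_comp σ fun k => P.D.len k.1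
      apply hσ
      ext1 k
      rw [Equiv.Perm.one_apply]
      by_contra h5
      have h6 : P.D.len k.1 < P.D.len (σ k).1 := by
        by_contra h7
        exact h2 k (ra_len (fun h8 => h5 h8.symm) (by omega) y)
      have h7 := Finset.sum_lt_sum (s := Finset.univ) (fun k _ => h3 k) ⟨k, Finset.mem_univ k, h6⟩
      omega
    obtain ⟨k, hk⟩ := h1
    have h3 : ∏ j, P.Rm y (σ j) j = 0 := Finset.prod_eq_zero (Finset.mem_univ k) hk
    exact (congrArg (fun z => Equiv.Perm.sign σ • z) h3).trans (smul_zero _)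
  · intro h
    exact absurd (Finset.mem_univ _) h

private theorem ra_diag_ne {y : Fin r → ℂ} (hy : ∀ a ∈ P.D.Φ, pr a y ≠ 0) (p : P.X) :
    P.Rm y p p ≠ 0 := by
  rw [Rm_diag]
  exact Finset.prod_ne_zero_iff.2 fun b hb => neg_ne_zero.2 (hy _ (P.D.rt_mem.2 (pos_mem (Finset.mem_filter.1 hb).1)))

theorem Rm_det_ne {y : Fin r → ℂ} (hy : ∀ a ∈ P.D.Φ, pr a y ≠ 0) : (P.Rm y).det ≠ 0 := by
  rw [Rm_det]
  exact Finset.prod_ne_zero_iff.2 fun p _ => ra_diag_ne hy p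

theorem Rm_inv_diag {y : Fin r → ℂ} (hy : ∀ a ∈ P.D.Φ, pr a y ≠ 0) (p : P.X) :
    (P.Rm y)⁻¹ p p = (P.Rm y p p)⁻¹ := by
  have h0 : P.Rm y * (P.Rm y)⁻¹ = 1 :=
    Matrix.mul_nonsing_inv _ (isUnit_iff_ne_zero.2 (Rm_det_ne hy))
  have h1 : ∀ (n : ℕ) (q u : P.X), P.D.len q.1 = n → q ≠ u → n ≤ P.D.len u.1 → (P.Rm y)⁻¹ q u = 0 := by
    intro n
    induction n using Nat.strong_induction_on with
    | _ n ih =>
      intro q u hq hqu hn
      have h2 := congrFun (congrFun h0 q) u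
      rw [Matrix.one_apply_ne hqu, Matrix.mul_apply, Finset.sum_eq_single q] at h2
      · exact (mul_eq_zero.1 h2).resolve_left (ra_diag_ne hy q)
      · intro k _ hk
        by_cases hlk : P.D.len k.1 < n
        · rw [ih (P.D.len k.1) hlk k u rfl (fun h => by rw [h] at hlk; omega) (by omega), mul_zero]
        · rw [ra_len hk (by omega), zero_mul]
      · intro h
        exact absurd (Finset.mem_univ _) h
  have h2 := congrFun (congrFun h0 p) p
  rw [Matrix.one_apply_eq, Matrix.mul_apply, Finset.sum_eq_single p] at h2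
  · exact eq_inv_of_mul_eq_one_right h2
  · intro k _ hk
    by_cases hlk : P.D.len k.1 < P.D.len p.1
    · rw [h1 (P.D.len k.1) k p rfl hk hlk.le, mul_zero]
    · rw [ra_len hk (by omega), zero_mul]
  · intro h
    exact absurd (Finset.mem_univ _) h

end Pool.Agent.FLG.Par
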