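import Pool.Agent.FLG.P.CommA
import Pool.Agent.FLG.GenP
import Pool.Agent.FLG.Lmat

/-!
# FLG-P-Lmat: the left action of the Weyl group

PLAN. As Lmat.lean for `G/B` (same proofs with `P.E0`, `P.A`, `P.lm`); `one`: no fixed point is shorter than `P.one`. `homog`: `A i u v ≠ 0` only if `len v = len u + 1` (`s_len`, `len_lm`). `det`: `A i * A i = 0`.
`lift`: `simple`: `RS.IsLeft.simple` and `A_block`; `mul`: block triangular matrices multiply blockwise. `comm0`: `E0_A` for `ch h`, `lab_ch`; the diagonal part: `hv h (lm (s i) u) y = hv h (s i * u) y` (`hv_fl`).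
`commq`: `Eq_A`.
-/

set_option autoImplicit false

open scoped BigOperators
open Pool.Agent.DST.TE

namespace Pool.Agent.FLG.Par

open RS

variable {r : ℕ} {P : Par r}

/-! ### entries -/

private theorem lm_A (i : Fin r) (u v : P.X) : P.A i u v =
    if u = P.lm (P.D.s i) v ∧ P.len u.1 < P.len v.1 then 1 else 0 := rfl

private theorem lm_Alen {i : Fin r} {u v : P.X} (h : P.A i u v ≠ 0) :
    u = P.lm (P.D.s i) v ∧ P.len v.1 = P.len u.1 + 1 := by
  rw [lm_A] at h
  by_cases h1 : u = P.lm (P.D.s i) v ∧ P.len u.1 < P.len v.1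
  · refine ⟨h1.1, ?_⟩
    have h2 := s_len i v.1
    have h3 : P.len u.1 = P.len (P.D.s i * v.1) := by
      rw [h1.1, len_lm]
    rw [← h3] at h2
    have h4 := h1.2
    split_ifs at h2 <;> omega
  · rw [if_neg h1] at h
    exact absurd rfl h

private theorem lm_len_one : P.len P.one.1 = 0 := by
  rw [len_val]
  exact RS.len_one

private theorem lm_diff (a : Fin r → ℤ) : Differentiable ℂ fun y : Fin r → ℂ => pr a y := by
  unfold pr
  fun_prop

private theorem lm_diff_yt (w : P.D.W) :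
    Differentiable ℂ fun y : Fin r → ℂ => P.D.yt w y := by
  unfold RS.yt
  fun_prop

open Classical in
/-- sums over `P.X` as sums over `W` -/
private theorem lm_sum (f : P.D.W → ℂ) (g : P.X → ℂ) :
    ∑ k : P.D.W, f k * (if h : ∀ j ∈ P.J, P.D.rt k (al j) ∈ P.D.Pos then g ⟨k, h⟩ else 0) =
      ∑ k : P.X, f k.1 * g k := by
  symm
  refine Finset.sum_of_injOn (fun k : P.X => k.1) (fun _ _ _ _ h => Subtype.ext h)
    (fun _ _ => Finset.mem_coe.2 (Finset.mem_univ _)) ?_ ?_
  · intro k _ hk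
    rw [dif_neg, mul_zero]
    intro h
    exact hk ⟨⟨k, h⟩, Finset.mem_coe.2 (Finset.mem_univ _), rfl⟩
  · intro k _
    rw [dif_pos k.2]
    rfl

open Classical in
private theorem lm_one_block (v : P.D.W) (u : P.X) : (1 : Matrix P.D.W P.D.W ℂ) v u.1 =
    if h : ∀ j ∈ P.J, P.D.rt v (al j) ∈ P.D.Pos then (1 : Matrix P.X P.X ℂ) ⟨v, h⟩ u else 0 := by
  rw [Matrix.one_apply]
  by_cases hv : ∀ j ∈ P.J, P.D.rt v (al j) ∈ P.D.Pos
  · rw [dif_pos hv]
    refine Eq.trans ?_ (Matrix.one_apply (i := (⟨v, hv⟩ : P.X)) (j := u)).symm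
    by_cases h : v = u.1
    · rw [if_pos h]
      refine (if_pos ?_).symm
      exact Subtype.ext h
    · rw [if_neg h]
      refine (if_neg ?_).symm
      intro h'
      exact h (congrArg (fun q : P.X => q.1) h')
  · rw [dif_neg hv, if_neg]
    rintro rfl
    exact hv u.2

theorem IsLeft.one' : P.IsLeft 1 fun _ => 1 where
  diff u v := differentiable_const _
  zero := rfl
  det y := Matrix.det_one
  homog x y u v := by
    rw [Matrix.one_apply]
    by_cases h : u = v
    · rw [h]
    · rw [if_neg h, mul_zero, mul_zero]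
  one y u := Matrix.one_apply
  comm0 h _ y := by
    rw [inv_one, RS.yt_one, mul_one, one_mul]
  commq c _ t _ k y := by
    rw [mul_one, one_mul]
  lift := ⟨fun _ => 1, RS.IsLeft.one', fun _ v u => lm_one_block v u⟩

theorem IsLeft.mul {w u : P.D.W} {M N : (Fin r → ℂ) → Matrix P.X P.X ℂ} (hM : P.IsLeft w M)
    (hN : P.IsLeft u N) : P.IsLeft (w * u) fun y => M y * N (P.D.yt w⁻¹ y) where
  diff a b := by
    have h1 : (fun y => (M y * N (P.D.yt w⁻¹ y)) a b) =
        fun y => ∑ k, M y a k * N (P.D.yt w⁻¹ y) k b := by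
      funext y
      exact Matrix.mul_apply
    rw [h1]
    refine Differentiable.fun_sum fun k _ => ?_
    exact (hM.diff a k).fun_mul ((hN.diff k b).comp (lm_diff_yt w⁻¹))
  zero := by
    rw [hM.zero, RS.yt_zero, hN.zero, one_mul]
  det y := by
    rw [Matrix.det_mul, hM.det, hN.det, one_mul]
  homog x y a b := by
    rw [Matrix.mul_apply, Matrix.mul_apply, Finset.mul_sum, Finset.mul_sum]
    refine Finset.sum_congr rfl fun k _ => ?_
    have h1 : P.D.yt w⁻¹ (fun i => x * y i) = fun i => x * P.D.yt w⁻¹ y i := by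
      exact P.D.yt_smul w⁻¹ x y
    rw [h1]
    have h2 := hM.homog x y a k
    have h3 := hN.homog x (P.D.yt w⁻¹ y) k b
    calc x ^ P.len a.1 * (M (fun i => x * y i) a k * N (fun i => x * P.D.yt w⁻¹ y i) k b)
        = (x ^ P.len a.1 * M (fun i => x * y i) a k) * N (fun i => x * P.D.yt w⁻¹ y i) k b := by
          ring
      _ = M y a k * (x ^ P.len k.1 * N (fun i => x * P.D.yt w⁻¹ y i) k b) := by
          rw [h2]
          ring
      _ = _ := by
          rw [h3]
          ring
  one y a := by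
    rw [Matrix.mul_apply, ← hM.one y a]
    rw [Finset.sum_eq_single P.one]
    · rw [hN.one, if_pos rfl, mul_one]
    · intro k _ hk
      rw [hN.one, if_neg hk, mul_zero]
    · intro h
      exact absurd (Finset.mem_univ _) h
  comm0 h hh y := by
    rw [← mul_assoc, hM.comm0 h hh, mul_assoc, hN.comm0 h hh, mul_inv_rev, RS.yt_mul, mul_assoc]
  commq c hc t ht k y := by
    rw [← mul_assoc, hM.commq c hc t ht, mul_assoc, hN.commq c hc t ht, mul_assoc]
  lift := by
    obtain ⟨M', hM', hM2⟩ := hM.lift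
    obtain ⟨N', hN', hN2⟩ := hN.lift
    refine ⟨_, hM'.mul hN', fun y v a => ?_⟩
    rw [Matrix.mul_apply]
    have h1 : ∀ k : P.D.W, M' y v k * N' (P.D.yt w⁻¹ y) k a.1 = M' y v k *
        (if h : ∀ j ∈ P.J, P.D.rt k (al j) ∈ P.D.Pos then
          (fun q : P.X => N (P.D.yt w⁻¹ y) q a) ⟨k, h⟩ else 0) := by
      intro k
      rw [hN2]
    refine (Finset.sum_congr rfl fun k _ => h1 k).trans
      ((lm_sum (M' y v) fun q => N (P.D.yt w⁻¹ y) q a).trans ?_)
    by_cases hv : ∀ j ∈ P.J, P.D.rt v (al j) ∈ P.D.Pos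
    · rw [dif_pos hv]
      refine Eq.trans ?_ (Matrix.mul_apply (i := (⟨v, hv⟩ : P.X)) (k := a)).symm
      refine Finset.sum_congr rfl fun k _ => ?_
      rw [hM2, dif_pos hv]
    · rw [dif_neg hv]
      refine Finset.sum_eq_zero fun k _ => ?_
      rw [hM2, dif_neg hv, zero_mul]

private theorem lm_smul (c : ℂ) (i : Fin r) (u v : P.X) :
    (1 - c • P.A i) u v = (1 : Matrix P.X P.X ℂ) u v - c * P.A i u v := by
  rw [Matrix.sub_apply, Matrix.smul_apply, smul_eq_mul]

private theorem lm_det (c : ℂ) (i : Fin r) : (1 - c • P.A i).det = 1 := by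
  have hA : ∀ u v : P.X, ¬ P.len u.1 < P.len v.1 → P.A i u v = 0 := by
    intro u v h
    rw [lm_A, if_neg fun h' => h h'.2]
  have hT : Matrix.BlockTriangular (1 - c • P.A i) fun u : P.X => P.len u.1 := by
    intro u v h
    rw [lm_smul, hA u v (by exact Nat.lt_asymm h), Matrix.one_apply_ne, mul_zero, sub_zero]
    rintro rfl
    exact absurd h (lt_irrefl _)
  rw [hT.det]
  refine Finset.prod_eq_one fun k _ => ?_
  have h1 : Matrix.toSquareBlock (1 - c • P.A i) (fun u : P.X => P.len u.1) k = 1 := by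
    ext u v
    rw [Matrix.toSquareBlock_def, Matrix.of_apply, lm_smul,
      hA u.1 v.1 (by rw [u.2, v.2]; exact lt_irrefl _), mul_zero, sub_zero, Matrix.one_apply,
      Matrix.one_apply]
    by_cases h : u = v
    · rw [if_pos h, if_pos (congrArg Subtype.val h)]
    · rw [if_neg h, if_neg fun h' => h (Subtype.ext h')]
  rw [h1, Matrix.det_one]

theorem IsLeft.simple (i : Fin r) : P.IsLeft (P.D.s i) fun y => 1 - pr (al i) y • P.A i where
  diff u v := by
    have h1 : (fun y => (1 - pr (al i) y • P.A i) u v) =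
        fun y => (1 : Matrix P.X P.X ℂ) u v - pr (al i) y * P.A i u v := by
      funext y
      exact lm_smul _ i u v
    rw [h1]
    exact (differentiable_const _).fun_sub ((lm_diff _).mul_const _)
  zero := by
    rw [pr_zero_right, zero_smul, sub_zero]
  det y := lm_det _ i
  homog x y u v := by
    have h0 : pr (al i) (fun j => x * y j) = x * pr (al i) y := pr_smul (al i) x y
    rw [lm_smul, lm_smul, h0, mul_sub, mul_sub]
    congr 1
    · rw [Matrix.one_apply]
      by_cases h : u = v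
      · rw [h]
      · rw [if_neg h, mul_zero, mul_zero]
    · by_cases h : P.A i u v = 0
      · rw [h]
        ring
      · rw [(lm_Alen h).2, pow_succ]
        ring
  one y u := by
    rw [lm_smul, lm_A, if_neg, mul_zero, sub_zero, Matrix.one_apply]
    rintro ⟨-, h⟩
    rw [lm_len_one] at h
    exact absurd h (Nat.not_lt_zero _)
  comm0 h hh y := by
    have h1 := E0_A (lab_ch hh) i
    have h2 : (Matrix.diagonal fun u : P.X => P.D.hv h u.1 (P.D.yt (P.D.s i)⁻¹ y)) =
        (Matrix.diagonal fun u : P.X => P.D.hv h u.1 y) -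
          pr (al i) y • Matrix.diagonal fun u : P.X => P.D.ch h (P.D.rt u.1⁻¹ (al i)) := by
      rw [← Matrix.diagonal_smul, Matrix.diagonal_sub]
      congr 1
      funext u
      rw [← RS.hv_mul]
      exact RS.hv_refl h u.1 (P.D.al_mem i) y
    have h3 : (Matrix.diagonal fun u : P.X => P.D.hv h u.1 y) * P.A i =
        P.A i * Matrix.diagonal fun u : P.X => P.D.hv h u.1 (P.D.yt (P.D.s i)⁻¹ y) := by
      ext u v
      rw [Matrix.diagonal_mul, Matrix.mul_diagonal]
      by_cases h0 : P.A i u v = 0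
      · rw [h0]
        ring
      · have h4 : P.D.hv h u.1 y = P.D.hv h v.1 (P.D.yt (P.D.s i)⁻¹ y) := by
          rw [(lm_Alen h0).1, ← RS.hv_mul]
          exact hv_fl hh _ y
        rw [h4]
        ring
    unfold C0
    rw [sub_mul, mul_sub, mul_sub, sub_mul (1 : Matrix P.X P.X ℂ), mul_one, mul_one, one_mul,
      mul_smul_comm, mul_smul_comm, smul_mul_assoc, mul_sub, ← h3, smul_sub]
    rw [h2]
    have h5 : P.E0 (P.D.ch h) * P.A i = P.A i * P.E0 (P.D.ch h) -
        Matrix.diagonal fun w : P.X => P.D.ch h (P.D.rt w.1⁻¹ (al i)) := by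
      rw [sub_eq_iff_eq_add] at h1
      rw [h1]
      abel
    rw [h5, smul_sub]
    abel
  commq c hc t _ k y := by
    rw [mul_sub, sub_mul, mul_one, one_mul, mul_smul_comm, smul_mul_assoc, Eq_A hc]
  lift := by
    refine ⟨_, RS.IsLeft.simple i, fun y v u => ?_⟩
    rw [Matrix.sub_apply, Matrix.smul_apply, smul_eq_mul, lm_one_block, A_block]
    by_cases hv : ∀ j ∈ P.J, P.D.rt v (al j) ∈ P.D.Pos
    · rw [dif_pos hv, dif_pos hv, dif_pos hv]
      exact (lm_smul _ i ⟨v, hv⟩ u).symm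
    · rw [dif_neg hv, dif_neg hv, dif_neg hv, mul_zero, sub_zero]

theorem exists_left (w : P.D.W) : ∃ M, P.IsLeft w M := by
  refine RS.generation_fin (fun w => ∃ M, P.IsLeft w M) ⟨_, IsLeft.one'⟩ ?_
    (fun i => ⟨_, IsLeft.simple i⟩) w
  rintro w u ⟨M, hM⟩ ⟨N, hN⟩
  exact ⟨_, hM.mul hN⟩

/-- the left action of `w` -/
noncomputable def Lw (w : P.D.W) : (Fin r → ℂ) → Matrix P.X P.X ℂ := (exists_left w).choose

theorem isLeft_Lw (w : P.D.W) : P.IsLeft w (Lw w) := (exists_left w).choose_spec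

private theorem lm_KK {a : Fin r → ℤ} (ha : a ∈ P.Pos) :
    (P.L a).toNat ∈ Finset.Icc 1 P.KK ∧ ((P.L a).toNat : ℤ) = P.L a := by
  have h1 := two_le_L ha
  rw [Finset.mem_Icc]
  refine ⟨⟨by omega, ?_⟩, Int.toNat_of_nonneg (by omega)⟩
  unfold KK
  exact Finset.single_le_sum (f := fun a => (P.L a).toNat) (fun _ _ => Nat.zero_le _) ha

/-- `E = E0 + ∑ Eq` -/
theorem E_eq (c : (Fin r → ℤ) → ℂ) (t : Fin r → ℂ) :
    P.E c t = P.E0 c + ∑ k ∈ Finset.Icc 1 P.KK, P.Eq c t k := by
  ext u w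
  rw [Matrix.add_apply, Matrix.sum_apply]
  unfold E E0 Eq
  simp only [Matrix.of_apply]
  rw [Finset.sum_comm, ← Finset.sum_add_distrib]
  refine Finset.sum_congr rfl fun a ha => ?_
  obtain ⟨h1, h2⟩ := lm_KK ha
  rw [Finset.sum_eq_single (P.L a).toNat]
  · rw [h2]
    by_cases hu : u = P.fl (w.1 * P.D.refl a)
    · by_cases h3 : P.len u.1 = P.len w.1 + 1
      · by_cases h4 : (P.len u.1 : ℤ) + P.L a = P.len w.1 + 1
        · rw [if_pos hu, if_pos h3, if_pos h4, if_pos ⟨hu, h3⟩, if_pos ⟨hu, h4, rfl⟩]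
          ring
        · rw [if_pos hu, if_pos h3, if_neg h4, if_pos ⟨hu, h3⟩, if_neg fun h => h4 h.2.1]
          ring
      · by_cases h4 : (P.len u.1 : ℤ) + P.L a = P.len w.1 + 1
        · rw [if_pos hu, if_neg h3, if_pos h4, if_neg fun h => h3 h.2, if_pos ⟨hu, h4, rfl⟩]
          ring
        · rw [if_pos hu, if_neg h3, if_neg h4, if_neg fun h => h3 h.2, if_neg fun h => h4 h.2.1]
          ring
    · rw [if_neg hu, if_neg fun h => hu h.1, if_neg fun h => hu h.1, add_zero]
  · intro k _ hk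
    rw [if_neg]
    rintro ⟨-, -, h⟩
    apply hk
    omega
  · intro h
    exact absurd h1 h

/-- the full quantum product commutes with the left action -/
theorem IsLeft.comm {w : P.D.W} {M : (Fin r → ℂ) → Matrix P.X P.X ℂ} (hM : P.IsLeft w M)
    {h t : Fin r → ℂ} (hh : P.Inv h) (ht : P.Inv t) (y : Fin r → ℂ) :
    P.Cq h t y * M y = M y * P.Cq h t (P.D.yt w⁻¹ y) := by
  have h1 : ∀ x, P.Cq h t x = P.C0 h x + ∑ k ∈ Finset.Icc 1 P.KK, P.Eq (P.D.ch h) t k := by
    intro x
    unfold Cq C0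
    rw [E_eq]
    abel
  rw [h1, h1, add_mul, mul_add, hM.comm0 h hh, Finset.sum_mul, Finset.mul_sum]
  congr 1
  exact Finset.sum_congr rfl fun k _ => hM.commq _ (lab_ch hh) t ht _ y

end Pool.Agent.FLG.Par
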