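import Pool.Agent.FLG.P.RmatA
import Pool.Agent.FLG.P.Lmat
import Pool.Agent.FLG.Rleft

/-!
# FLG-P-RmatB: the restriction matrix and the left action
-/

set_option autoImplicit false

open scoped BigOperators
open Pool.Agent.DST.TE

namespace Pool.Agent.FLG.Par

open RS

variable {r : ℕ} {P : Par r}

/-- a row eigenvector with value `1` at the base point is a row of `Rm` -/
theorem row_unique {y : Fin r → ℂ} (hy : y ∈ P.Reg) {ρ : P.X → ℂ} {p : P.X}
    (h1 : Matrix.vecMul ρ (P.C0 P.ctr y) = (-P.D.hv P.ctr p.1 y) • ρ) (h2 : ρ P.one = 1) :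
    ρ = P.Rm y p := by
  have hinj : ∀ p q : P.X, p ≠ q → -P.D.hv P.ctr p.1 y ≠ -P.D.hv P.ctr q.1 y := by
    intro p q hpq h
    rw [neg_inj, hv_ctr, hv_ctr] at h
    exact hy.2 p q hpq h
  have hrow : ∀ p : P.X, Matrix.vecMul (P.Rm y p) (P.C0 P.ctr y) =
      (-P.D.hv P.ctr p.1 y) • P.Rm y p := by
    intro p
    funext v
    have h := congrFun (congrFun (Rm_C0 (P := P) inv_ctr y) p) v
    rw [Matrix.diagonal_mul] at h
    exact h
  have hne : ∀ p : P.X, P.Rm y p ≠ 0 := by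
    intro p h
    have h3 := congrFun h P.one
    rw [Rm_one] at h3
    exact one_ne_zero h3
  have hli : LinearIndependent ℂ fun p => P.Rm y p := by
    refine Module.End.eigenvectors_linearIndependent' (Matrix.vecMulLinear (P.C0 P.ctr y))
      (fun p => -P.D.hv P.ctr p.1 y) ?_ _ ?_
    · intro p q h
      by_contra hpq
      exact hinj p q hpq h
    · intro p
      refine ⟨?_, hne p⟩
      rw [Module.End.mem_eigenspace_iff]
      exact hrow p
  have hcard : Fintype.card P.X = Module.finrank ℂ (P.X → ℂ) :=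
    (Module.finrank_fintype_fun_eq_card ℂ).symm
  haveI : Nonempty P.X := ⟨P.one⟩
  have hspan := hli.span_eq_top_of_card_eq_finrank hcard
  have hmem : ρ ∈ Submodule.span ℂ (Set.range fun p => P.Rm y p) := by
    rw [hspan]
    exact Submodule.mem_top
  obtain ⟨c, hc⟩ := (Submodule.mem_span_range_iff_exists_fun ℂ).1 hmem
  have h3 : ∑ q, (c q * (-P.D.hv P.ctr q.1 y - -P.D.hv P.ctr p.1 y)) • P.Rm y q = 0 := by
    have h4 : Matrix.vecMul (∑ q, c q • P.Rm y q) (P.C0 P.ctr y) =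
        (-P.D.hv P.ctr p.1 y) • ∑ q, c q • P.Rm y q := by
      rw [hc]
      exact h1
    have h5 : Matrix.vecMul (∑ q, c q • P.Rm y q) (P.C0 P.ctr y) =
        ∑ q, c q • ((-P.D.hv P.ctr q.1 y) • P.Rm y q) := by
      have h6 := map_sum (Matrix.vecMulLinear (P.C0 P.ctr y)) (fun q => c q • P.Rm y q) Finset.univ
      refine h6.trans (Finset.sum_congr rfl fun q _ => ?_)
      rw [map_smul]
      congr 1
      exact hrow q
    rw [h5, Finset.smul_sum] at h4
    rw [← sub_eq_zero, ← Finset.sum_sub_distrib] at h4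
    rw [← h4]
    refine Finset.sum_congr rfl fun q _ => ?_
    rw [smul_smul, smul_smul, ← sub_smul]
    congr 1
    ring
  have h7 := Fintype.linearIndependent_iff.1 hli _ h3
  have h8 : ∀ q, q ≠ p → c q = 0 := by
    intro q hq
    rcases mul_eq_zero.1 (h7 q) with h | h
    · exact h
    · exact absurd (sub_eq_zero.1 h) (hinj q p hq)
  have h9 : ρ = c p • P.Rm y p := by
    rw [← hc]
    exact Finset.sum_eq_single p (fun q _ hq => by rw [h8 q hq, zero_smul])
      (fun h => absurd (Finset.mem_univ p) h)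
  have h10 : c p = 1 := by
    have h11 := congrFun h9 P.one
    rw [h2, Pi.smul_apply, Rm_one, smul_eq_mul, mul_one] at h11
    exact h11.symm
  rw [h9, h10, one_smul]

private theorem rmb_fl (y : Fin r → ℂ) (w : P.D.W) (u : P.X) :
    P.Rm y (P.fl w) u = P.D.Rm y w u.1 := by
  have h1 : Continuous fun y => P.Rm y (P.fl w) u := (Rm_diff (P.fl w) u).continuous
  have h2 : Continuous fun y => P.D.Rm y w u.1 := (RS.Rm_diff w u.1).continuous
  refine congrFun (Continuous.ext_on (dense_reg P) h1 h2 ?_) y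
  intro y hy
  have h3 := row_unique hy (p := P.fl w) (ρ := fun u : P.X => P.D.Rm y w u.1) ?_ ?_
  · exact (congrFun h3 u).symm
  · funext u
    have h4 := Rm_row (P := P) inv_ctr y w u
    rw [Pi.smul_apply, smul_eq_mul, hv_fl inv_ctr w y]
    exact h4
  · exact RS.Rm_one y w

theorem Rm_right (y : Fin r → ℂ) (w : P.D.W) {v : P.D.W} (hv : v ∈ P.WJ) (u : P.X) :
    P.D.Rm y (w * v) u.1 = P.D.Rm y w u.1 := by
  rw [← rmb_fl y (w * v) u, ← rmb_fl y w u, fl_mul w hv]

theorem Rm_fl (y : Fin r → ℂ) (w : P.D.W) (u : P.X) : P.Rm y (P.fl w) u = P.D.Rm y w u.1 := by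
  exact rmb_fl y w u

theorem Rm_left {w : P.D.W} {M : (Fin r → ℂ) → Matrix P.X P.X ℂ} (hM : P.IsLeft w M)
    (y : Fin r → ℂ) (p v : P.X) :
    (P.Rm y * M y) p v = P.Rm (P.D.yt w⁻¹ y) (P.lm w⁻¹ p) v := by
  obtain ⟨M', hM', hlift⟩ := hM.lift
  have h1 := RS.Rm_left hM' y p.1 v.1
  have h2 : P.Rm (P.D.yt w⁻¹ y) (P.lm w⁻¹ p) v = P.D.Rm (P.D.yt w⁻¹ y) (w⁻¹ * p.1) v.1 :=
    rmb_fl (P.D.yt w⁻¹ y) (w⁻¹ * p.1) v
  rw [h2, ← h1, Matrix.mul_apply, Matrix.mul_apply]
  refine Finset.sum_of_injOn (fun u : P.X => u.1) ?_ ?_ ?_ ?_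
  · intro a _ b _ hab
    exact Subtype.ext hab
  · intro a _
    exact Finset.mem_coe.2 (Finset.mem_univ _)
  · intro u _ hu
    rw [hlift y u v, dif_neg, mul_zero]
    intro h
    exact hu ⟨⟨u, h⟩, Finset.mem_coe.2 (Finset.mem_univ _), rfl⟩
  · intro u _
    rw [hlift y u.1 v, dif_pos u.2]
    rfl

theorem Rm_gkm {b : Fin r → ℤ} (hb : b ∈ P.D.Φ) {y : Fin r → ℂ} (hy : pr b y = 0) (p v : P.X) :
    P.Rm y (P.lm (P.D.refl b) p) v = P.Rm y p v := by
  have h1 : P.Rm y (P.lm (P.D.refl b) p) v = P.D.Rm y (P.D.refl b * p.1) v.1 :=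
    rmb_fl y (P.D.refl b * p.1) v
  rw [h1, RS.Rm_gkm hb hy p.1 v.1]
  rfl

end Pool.Agent.FLG.Par
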