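import Pool.Agent.FLG.P.Bnd
import Pool.Agent.FLG.CommM

/-!
# FLG-P-CommM: commutation with the elements of length zero

Comparison of the entries (compare Pool/Agent/FLG/CommM.lean for the full flag varieties): by `tau_len` the degree conditions
correspond, both indices are in `{0, 1}` by `len_bound`; representatives by `qq_inv`, `Lab`, `sum_Pos`.
-/

set_option autoImplicit false

open scoped BigOperators
open Pool.Agent.DST.TE

namespace Pool.Agent.FLG.Par

open RS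

variable {r : ℕ} {P : Par r}

private theorem yt_refl_int {D : RS r} {a : Fin r → ℤ} (ha : a ∈ D.Φ) (ν : Fin r → ℤ) :
    D.yt (D.refl a) ν = ν - dotProduct ν a • D.co a := by
  funext j
  rw [← dot_al (D.yt (D.refl a) ν) j, D.dot_yt, refl_inv ha, rt_refl ha, dot_al, dotProduct_sub,
    dotProduct_smul, dot_al, Pi.sub_apply, Pi.smul_apply, smul_eq_mul, smul_eq_mul]
  ring

private theorem scal (p q p' q' : ℕ) (L n : ℤ) (z Q : ℂ) (hz : z ≠ 0) (h1 : |(p : ℤ) - q| + 1 ≤ L)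
    (h2 : |(p' : ℤ) - q'| + 1 ≤ L) (h3 : (p : ℤ) - q = p' - q' + L * n) :
    ((if p = q + 1 then (1 : ℂ) else 0) + (if (p : ℤ) + L = q + 1 then z else 0)) * Q =
      Q * z ^ (-n) * ((if p' = q' + 1 then (1 : ℂ) else 0) +
        (if (p' : ℤ) + L = q' + 1 then z else 0)) := by
  have hL : 1 ≤ L := by linarith [abs_nonneg ((p : ℤ) - q)]
  have a1 := abs_le.1 (show |(p : ℤ) - q| ≤ L - 1 by linarith)
  have a2 := abs_le.1 (show |(p' : ℤ) - q'| ≤ L - 1 by linarith)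
  have n1 : n < 2 := by
    refine lt_of_mul_lt_mul_left (a := L) ?_ (by linarith)
    linarith [a1.2, a2.1]
  have n2 : -2 < n := by
    refine lt_of_mul_lt_mul_left (a := L) ?_ (by linarith)
    linarith [a1.1, a2.2]
  obtain ⟨a1l, a1r⟩ := a1
  obtain ⟨a2l, a2r⟩ := a2
  have hn : n = 0 ∨ n = 1 ∨ n = -1 := by omega
  rcases hn with rfl | rfl | rfl
  · rw [neg_zero, zpow_zero]
    rw [mul_zero] at h3
    split_ifs <;> first | (exfalso; omega) | ring
  · rw [zpow_neg, zpow_one]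
    rw [mul_one] at h3
    split_ifs <;> first | (exfalso; omega) | (field_simp; ring)
  · rw [neg_neg, zpow_one]
    rw [mul_neg, mul_one] at h3
    split_ifs <;> first | (exfalso; omega) | ring

private theorem qq_fl {t : Fin r → ℂ} (ht : P.Inv t) (w : P.D.W) (ν : Fin r → ℤ) :
    qq t (P.D.yt (P.fl w).1⁻¹ ν) = qq t (P.D.yt w⁻¹ ν) := by
  obtain ⟨v, hv, hw⟩ := fl_spec (P := P) w
  have h1 : (P.fl w).1⁻¹ = v * w⁻¹ := by
    conv_rhs => rw [hw]
    group
  rw [h1, P.D.yt_mul, qq_inv ht hv]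

/-- the column of the quantum Chevalley operator at `fl w` -/
private theorem E_fl {c : (Fin r → ℤ) → ℂ} (hc : P.Lab c) {t : Fin r → ℂ} (ht : P.Inv t) (v : P.X)
    (w : P.D.W) : P.E c t v (P.fl w) = ∑ a ∈ P.Pos, if v = P.fl (w * P.D.refl a) then c a *
      ((if P.len v.1 = P.len w + 1 then 1 else 0) +
        (if (P.len v.1 : ℤ) + P.L a = P.len w + 1 then qq t (P.D.co a) else 0)) else 0 := by
  obtain ⟨v₀, hv₀, hw⟩ := fl_spec (P := P) w
  rw [E, Matrix.of_apply, ← sum_Pos hv₀]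
  refine Finset.sum_congr rfl fun a ha => ?_
  have haΦ := pos_mem ha
  have h1 : (P.fl w).1 * P.D.refl (P.D.rt v₀ a) = w * P.D.refl a * v₀⁻¹ := by
    rw [refl_rt v₀ haΦ]
    conv_rhs => rw [hw]
    group
  have h2 : P.fl (w * P.D.refl a * v₀⁻¹) = P.fl (w * P.D.refl a) := fl_mul _ (P.WJ.inv_mem hv₀)
  rw [h1, h2, hc.inv v₀ hv₀ a haΦ, len_fl, L_inv hv₀ haΦ, co_rt_eq v₀ haΦ, qq_inv ht hv₀]

theorem E_Mτ {c : (Fin r → ℤ) → ℂ} (hc : P.Lab c) {x : P.D.W} {ν : Fin r → ℤ}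
    (h : P.D.IsTau x ν) {t : Fin r → ℂ} (ht : P.Inv t) :
    P.E c t * P.Mτ x ν t = P.Mτ x ν t * P.E c t := by
  ext v u
  rw [Matrix.mul_apply, Matrix.mul_apply]
  have hl : ∑ w, P.E c t v w * P.Mτ x ν t w u =
      P.E c t v (P.fl (x * u.1)) * qq t (P.D.yt (x * u.1)⁻¹ ν) := by
    rw [Finset.sum_eq_single (P.lm x u)]
    · rw [Mτ, Matrix.of_apply, if_pos rfl, lm, qq_fl ht]
    · intro w _ hw
      rw [Mτ, Matrix.of_apply, if_neg hw, mul_zero]
    · exact fun h => absurd (Finset.mem_univ _) h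
  have hr : ∑ w, P.Mτ x ν t v w * P.E c t w u =
      qq t (P.D.yt v.1⁻¹ ν) * P.E c t (P.lm x⁻¹ v) u := by
    rw [Finset.sum_eq_single (P.lm x⁻¹ v)]
    · rw [Mτ, Matrix.of_apply, if_pos (lm_lm_inv x v).symm]
    · intro w _ hw
      rw [Mτ, Matrix.of_apply, if_neg, zero_mul]
      rintro rfl
      exact hw (lm_inv_lm x w).symm
    · exact fun h => absurd (Finset.mem_univ _) h
  have hE : P.E c t (P.lm x⁻¹ v) u = ∑ a ∈ P.Pos, if P.lm x⁻¹ v = P.fl (u.1 * P.D.refl a) then c a *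
      ((if P.len (P.lm x⁻¹ v).1 = P.len u.1 + 1 then 1 else 0) +
        (if (P.len (P.lm x⁻¹ v).1 : ℤ) + P.L a = P.len u.1 + 1 then qq t (P.D.co a) else 0)) else 0 :=
    rfl
  rw [hl, hr, E_fl hc ht, hE, Finset.sum_mul, Finset.mul_sum]
  refine Finset.sum_congr rfl fun a ha => ?_
  by_cases hv : v = P.fl (x * u.1 * P.D.refl a)
  · have hv' : P.lm x⁻¹ v = P.fl (u.1 * P.D.refl a) := by
      rw [hv, lm_fl]
      congr 1
      group
    rw [if_pos hv, if_pos hv']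
    have haΦ := pos_mem ha
    have e1 : P.len v.1 = P.len (x * u.1 * P.D.refl a) := by rw [hv, len_fl]
    have e2 : P.len (P.lm x⁻¹ v).1 = P.len (u.1 * P.D.refl a) := by rw [hv', len_fl]
    rw [e1, e2]
    have h1 := len_bound (x * u.1) ha
    have h2 := len_bound u.1 ha
    have h3 : (P.len (x * u.1 * P.D.refl a) : ℤ) - P.len (x * u.1) =
        P.len (u.1 * P.D.refl a) - P.len u.1 + P.L a * dotProduct ν (P.D.rt (x * u.1) a) := by
      have e1 := tau_len h u.1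
      have e2 := tau_len h (u.1 * P.D.refl a)
      rw [← mul_assoc] at e2
      have e3 : P.D.rt (x * u.1 * P.D.refl a) P.tr =
          P.D.rt (x * u.1) P.tr - P.L a • P.D.rt (x * u.1) a := by
        rw [P.D.rt_mul, rt_refl haΦ, P.D.rt_sub, P.D.rt_smul]
        rfl
      rw [e3, dotProduct_sub, dotProduct_smul, smul_eq_mul] at e2
      linarith
    have h4 : qq t (P.D.yt v.1⁻¹ ν) = qq t (P.D.yt (x * u.1)⁻¹ ν) *
        qq t (P.D.co a) ^ (-dotProduct ν (P.D.rt (x * u.1) a)) := by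
      have e1 : P.D.yt (x * u.1 * P.D.refl a)⁻¹ ν =
          P.D.yt (x * u.1)⁻¹ ν + (-dotProduct ν (P.D.rt (x * u.1) a)) • P.D.co a := by
        rw [mul_inv_rev (x * u.1), refl_inv haΦ, P.D.yt_mul, yt_refl_int haΦ, P.D.dot_yt, inv_inv,
          neg_smul, sub_eq_add_neg]
      rw [hv, qq_fl ht, e1, qq_add, qq_smul]
    have h5 := scal (P.len (x * u.1 * P.D.refl a)) (P.len (x * u.1)) (P.len (u.1 * P.D.refl a))
      (P.len u.1) (P.L a) (dotProduct ν (P.D.rt (x * u.1) a)) (qq t (P.D.co a))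
      (qq t (P.D.yt (x * u.1)⁻¹ ν)) (qq_ne_zero _ _) h1 h2 h3
    rw [h4, mul_assoc, h5]
    ring
  · rw [if_neg hv, if_neg, zero_mul, mul_zero]
    intro hv'
    apply hv
    have h1 := congrArg (P.lm x) hv'
    rw [lm_lm_inv, lm_fl, ← mul_assoc] at h1
    exact h1

end Pool.Agent.FLG.Par
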