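import Pool.Agent.FLG.P.Bnd
import Pool.Agent.FLG.CommT

/-!
# FLG-P-CommT: commutation with the affine left divided differences

PLAN (uniform proof; compare Pool/Agent/FLG/CommT.lean for `G/B`). A state is `(u, μ)`, `deg = len u + ⟨tr, μ⟩`; the entries of `E c t` from `u` are the pairs `(a, k)`, `a ∈ P.Pos`, `k ∈ ℤ`, with
`len (u s_a) - len u + k L a = 1` (only `k = 0, 1` are possible by `len_bound`), weight `c a * q^{k a^∨}`. The affine reflection acts by `s u = fl (s_b u)` with factor `q^{-u⁻¹ b^∨}` and changes the degree by `-1` (`β = rt u⁻¹ b ∈ P.Pos`), `+1`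
(`-β ∈ P.Pos`), `0` (`β` Levi) (`max_len`). Left and right commute: `s` maps `(u, (a, k))` to `(s_b u, (a, k'))`, `k' = k + ⟨a, (rt u⁻¹ b)^∨⟩`. Positivity of `(a, k)` at `u`: `k ≥ χ(u a)`; it holds iff
`len (u s_a) - len u + k L a ≥ 1`, and otherwise this number is `≤ -1` (`len_bound`, `len_lt_of_pos`, `len_lt_of_neg`). As `χ(s_b β') - χ(β') = ⟨β', b^∨⟩` for `β' = u a ≠ ± b`, positivity at `u` and at `s_b u` are equivalent
except for `u a = ± b`. (i) `β ∈ P.Pos` (descent): the terms of `E A` and `A E` match except the one with `a = β`, which gives `c β`. (ii) `-β ∈ P.Pos`: `A e_u = 0`; a term of `A E` would be positive at `u` and negative at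
`s_b u`: only `a = -β`, it gives `-c(-β) = c β`. (iii) `β` Levi: `A e_u = 0`; `s_b u = u s_β`, so a term `(a, k)` of `A E e_u` would give `(s_β a, k')` at `u` of degree change `0`, impossible; `c β = 0`.
The labels and `q^μ` do not depend on representatives (`Lab`, `qq_inv`, `sum_Pos`).
-/

set_option autoImplicit false

open scoped BigOperators
open Pool.Agent.DST.TE

namespace Pool.Agent.FLG.Par

open RS

variable {r : ℕ} {P : Par r}

/-- the term of a root in the quantum Chevalley operator, for an arbitrary representative -/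
private noncomputable def Tm (P : Par r) (c : (Fin r → ℤ) → ℂ) (t : Fin r → ℂ) (v : P.D.W)
    (a : Fin r → ℤ) : ℂ :=
  c a * ((if P.len (v * P.D.refl a) = P.len v + 1 then 1 else 0) +
      (if (P.len (v * P.D.refl a) : ℤ) + P.L a = P.len v + 1 then qq t (P.D.co a) else 0))

private theorem E_apply {c : (Fin r → ℤ) → ℂ} (hc : P.Lab c) {t : Fin r → ℂ} (ht : P.Inv t)
    (u : P.X) (v : P.D.W) :
    P.E c t u (P.fl v) = ∑ a ∈ P.Pos, if u = P.fl (v * P.D.refl a) then Tm P c t v a else 0 := by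
  obtain ⟨x, hx, hv⟩ := fl_spec v
  unfold E
  rw [Matrix.of_apply, ← sum_Pos hx]
  refine Finset.sum_congr rfl fun a ha => ?_
  have haΦ := pos_mem ha
  have e1 : P.fl ((P.fl v).1 * P.D.refl (P.D.rt x a)) = P.fl (v * P.D.refl a) := by
    have e2 : (P.fl v).1 * P.D.refl (P.D.rt x a) = v * P.D.refl a * x⁻¹ := by
      rw [refl_rt x haΦ, ← mul_assoc, ← mul_assoc, ← hv]
    rw [e2, fl_mul _ (Subgroup.inv_mem _ hx)]
  rw [e1]
  by_cases hu : u = P.fl (v * P.D.refl a)
  · rw [if_pos hu, if_pos hu, hu, len_fl, len_fl, hc.inv x hx a haΦ, L_inv hx haΦ,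
      co_rt_eq x haΦ, qq_inv ht hx]
    rfl
  · rw [if_neg hu, if_neg hu]

private theorem rt_mul_refl_tr (w : P.D.W) {a : Fin r → ℤ} (ha : a ∈ P.Pos) :
    P.D.rt (w * P.D.refl a) P.tr = P.D.rt w P.tr - P.L a • P.D.rt w a := by
  rw [P.D.rt_mul, rt_refl (pos_mem ha), P.D.rt_sub, P.D.rt_smul]
  rfl

/-- the sign of a root outside of the Levi subgroup -/
private noncomputable def ep (P : Par r) (a : Fin r → ℤ) : ℤ :=
  if a ∈ P.Pos then 1 else if -a ∈ P.Pos then -1 else 0

/-- the change of the lengths -/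
private theorem len_s {b : Fin r → ℤ} (h : P.D.IsMax b) (w : P.D.W) {a : Fin r → ℤ}
    (ha : a ∈ P.Pos) :
    (P.len (P.D.refl b * w * P.D.refl a) : ℤ) - P.len (P.D.refl b * w) =
      P.len (w * P.D.refl a) - P.len w - dotProduct (P.D.co b) (P.D.rt w a) * P.L a
      - ep P (P.D.rt (w * P.D.refl a)⁻¹ b) + ep P (P.D.rt w⁻¹ b) := by
  rw [mul_assoc, max_len h w, max_len h (w * P.D.refl a), rt_mul_refl_tr w ha, dotProduct_sub,
    dotProduct_smul, smul_eq_mul]
  unfold ep
  ring

private theorem co_mul_refl {b : Fin r → ℤ} (hb : b ∈ P.D.Φ) (w : P.D.W) {a : Fin r → ℤ}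
    (ha : a ∈ P.D.Φ) :
    P.D.co (P.D.rt (w * P.D.refl a)⁻¹ b) =
      P.D.co (P.D.rt w⁻¹ b) - dotProduct (P.D.co b) (P.D.rt w a) • P.D.co a := by
  funext j
  rw [← dot_al (P.D.co (P.D.rt (w * P.D.refl a)⁻¹ b)) j, co_rt _ hb, inv_inv, P.D.rt_mul,
    rt_refl ha, P.D.rt_sub, P.D.rt_smul, dotProduct_sub, dotProduct_smul, dot_al, Pi.sub_apply,
    Pi.smul_apply, ← dot_al (P.D.co (P.D.rt w⁻¹ b)) j, co_rt _ hb, inv_inv, smul_eq_mul,
    smul_eq_mul]
  ring

private theorem qq_mul_refl {b : Fin r → ℤ} (hb : b ∈ P.D.Φ) (t : Fin r → ℂ) (w : P.D.W)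
    {a : Fin r → ℤ} (ha : a ∈ P.D.Φ) :
    qq t (-P.D.co (P.D.rt (w * P.D.refl a)⁻¹ b)) =
      qq t (-P.D.co (P.D.rt w⁻¹ b)) *
        qq t (P.D.co a) ^ dotProduct (P.D.co b) (P.D.rt w a) := by
  rw [co_mul_refl hb w ha, neg_sub', sub_neg_eq_add, qq_add, qq_smul]

/-- the elementary identity behind the cancellation -/
private theorem cancel_aux (d d' c l : ℤ) (Q : ℂ) (hQ : Q ≠ 0) (h : d' = d - c * l)
    (hd : |d| + 1 ≤ l) (hd' : |d'| + 1 ≤ l) :
    ((if d' = 1 then 1 else 0) + (if d' + l = 1 then Q else 0) : ℂ) =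
      Q ^ c * ((if d = 1 then 1 else 0) + (if d + l = 1 then Q else 0)) := by
  have h1 := abs_le.1 (show |d| ≤ l - 1 by linarith)
  have h2 := abs_le.1 (show |d'| ≤ l - 1 by linarith)
  have hl : 1 ≤ l := by have := abs_nonneg d; linarith
  have hc1 : c ≤ 1 := by
    by_contra hc
    have : 2 ≤ c := by omega
    nlinarith
  have hc2 : -1 ≤ c := by
    by_contra hc
    have : c ≤ -2 := by omega
    nlinarith
  have h3 : c = -1 ∨ c = 0 ∨ c = 1 := by omega
  rcases h3 with rfl | rfl | rfl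
  · have h4 : d' = d + l := by rw [h]; ring
    have h5 : ¬ d = 1 := by omega
    have h6 : ¬ d' + l = 1 := by omega
    rw [if_neg h5, if_neg h6]
    by_cases h7 : d' = 1
    · rw [if_pos h7, if_pos (by omega), zpow_neg_one, add_zero, zero_add,
        inv_mul_cancel₀ hQ]
    · rw [if_neg h7, if_neg (by omega), add_zero, mul_zero]
  · have h4 : d' = d := by rw [h]; ring
    rw [h4, zpow_zero, one_mul]
  · have h4 : d' = d - l := by rw [h]; ring
    have h5 : ¬ d' = 1 := by omega
    have h6 : ¬ d + l = 1 := by omega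
    rw [if_neg h5, if_neg h6, zpow_one, add_zero, zero_add]
    by_cases h7 : d = 1
    · rw [if_pos h7, if_pos (by omega), mul_one]
    · rw [if_neg h7, if_neg (by omega), mul_zero]

private theorem Tm_eq (c : (Fin r → ℤ) → ℂ) (t : Fin r → ℂ) (v : P.D.W) (a : Fin r → ℤ) :
    Tm P c t v a = c a *
      ((if (P.len (v * P.D.refl a) : ℤ) - P.len v = 1 then 1 else 0) +
      (if ((P.len (v * P.D.refl a) : ℤ) - P.len v) + P.L a = 1 then
        qq t (P.D.co a) else 0)) := by
  unfold Tm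
  congr 2
  · congr 1
    exact propext (by omega)
  · congr 1
    exact propext (by omega)

private theorem pos_D {a : Fin r → ℤ} (ha : a ∈ P.Pos) : a ∈ P.D.Pos := (mem_Pos.1 ha).1

private theorem neg_not_Pos {a : Fin r → ℤ} (ha : a ∈ P.Pos) : -a ∉ P.Pos :=
  fun h => neg_not_pos (pos_D ha) (pos_D h)

private theorem levi_neg {a : Fin r → ℤ} (ha : P.Levi a) : P.Levi (-a) := by
  refine ⟨neg_mem ha.1, fun i hi => ?_⟩
  rw [Pi.neg_apply, ha.2 i hi, neg_zero]

private theorem levi_not {a : Fin r → ℤ} (ha : P.Levi a) : a ∉ P.Pos :=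
  fun h => (mem_Pos.1 h).2 ha

private theorem ep_pos {a : Fin r → ℤ} (ha : a ∈ P.Pos) : ep P a = 1 := if_pos ha

private theorem ep_neg {a : Fin r → ℤ} (ha : -a ∈ P.Pos) : ep P a = -1 := by
  have h1 : a ∉ P.Pos := fun h => neg_not_Pos h ha
  unfold ep
  rw [if_neg h1, if_pos ha]

private theorem ep_levi {a : Fin r → ℤ} (ha : P.Levi a) : ep P a = 0 := by
  unfold ep
  rw [if_neg (levi_not ha), if_neg (levi_not (levi_neg ha))]

/-- the length changes under a reflection -/
private theorem len_ne (w : P.D.W) {a : Fin r → ℤ} (ha : a ∈ P.Pos) :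
    (P.len (w * P.D.refl a) : ℤ) - P.len w ≠ 0 := by
  intro h0
  by_cases hp : P.D.rt w a ∈ P.D.Pos
  · have := len_lt_of_pos w ha hp
    omega
  · have := len_lt_of_neg w ha hp
    omega

/-- both roots positive: the terms cancel -/
private theorem Tm_cancel (f : (Fin r → ℤ) → ℂ) {b : Fin r → ℤ} (h : P.D.IsMax b)
    (t : Fin r → ℂ) (w : P.D.W) {a : Fin r → ℤ} (ha : a ∈ P.Pos) (h1 : P.D.rt w⁻¹ b ∈ P.Pos)
    (h2 : P.D.rt (w * P.D.refl a)⁻¹ b ∈ P.Pos) :
    Tm P f t (P.D.refl b * w) a =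
      qq t (P.D.co a) ^ dotProduct (P.D.co b) (P.D.rt w a) * Tm P f t w a := by
  have h3 := len_s h w ha
  rw [ep_pos h1, ep_pos h2] at h3
  rw [Tm_eq, Tm_eq, cancel_aux ((P.len (w * P.D.refl a) : ℤ) - P.len w)
    ((P.len (P.D.refl b * w * P.D.refl a) : ℤ) - P.len (P.D.refl b * w))
    (dotProduct (P.D.co b) (P.D.rt w a)) (P.L a) (qq t (P.D.co a)) (qq_ne_zero t _)
    (by linarith) (len_bound w ha) (len_bound _ ha)]
  ring

/-- the second root is not positive: only the root `w⁻¹ b` contributes -/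
private theorem Tm_core (f : (Fin r → ℤ) → ℂ) {b : Fin r → ℤ} (h : P.D.IsMax b)
    (t : Fin r → ℂ) (w : P.D.W) {a : Fin r → ℤ} (ha : a ∈ P.Pos) (h1 : P.D.rt w⁻¹ b ∈ P.Pos)
    (h2 : P.D.rt (w * P.D.refl a)⁻¹ b ∉ P.Pos) :
    Tm P f t (P.D.refl b * w) a =
      if a = P.D.rt w⁻¹ b then f a * qq t (P.D.co a) else 0 := by
  have haΦ := pos_mem ha
  have hb := h.mem
  have hL := two_le_L ha
  have h3 := len_s h w ha
  rw [ep_pos h1] at h3
  have h4 := len_bound w ha
  have h5 := abs_le.1 (show |(P.len (w * P.D.refl a) : ℤ) - P.len w| ≤ P.L a - 1 by linarith)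
  have hv : P.D.rt (P.D.refl b * w) a =
      P.D.rt w a - dotProduct (P.D.co b) (P.D.rt w a) • b := by
    rw [P.D.rt_mul, rt_refl hb]
  split_ifs with hab
  · have hwa : P.D.rt w a = b := by rw [hab, P.D.rt_rt_inv]
    have hws : w * P.D.refl a = P.D.refl b * w := by
      have := refl_rt w haΦ
      rw [hwa] at this
      rw [this, inv_mul_cancel_right]
    have h6 : (P.len (P.D.refl b * w * P.D.refl a) : ℤ) - P.len (P.D.refl b * w) =
        1 - P.L a := by
      have h7 := max_len h w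
      rw [if_pos h1] at h7
      have h8 : dotProduct (P.D.co b) (P.D.rt w P.tr) = P.L a := by
        unfold L
        rw [hab, co_rt _ hb, inv_inv]
      have h9 : P.D.refl b * w * P.D.refl a = w := by
        rw [← hws, mul_assoc, refl_mul_self haΦ, mul_one]
      rw [h9, h7, h8]
      ring
    rw [Tm_eq, h6, if_neg (by omega), if_pos (by ring), zero_add]
  · rw [Tm_eq]
    have hΔ := len_ne w ha
    have h2c : P.D.rt (w * P.D.refl a)⁻¹ b ∈ P.D.Φ := P.D.rt_mem.2 hb
    have key : ∀ m : ℤ, m = 0 ∨ m = 1 →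
        (P.len (P.D.refl b * w * P.D.refl a) : ℤ) - P.len (P.D.refl b * w) + m * P.L a = 1 →
        False := by
      intro m hm h6
      set c := dotProduct (P.D.co b) (P.D.rt w a) with hc
      set d := (P.len (w * P.D.refl a) : ℤ) - P.len w with hd
      rcases cases h2c with hlv | hps | hng
      · rw [ep_levi hlv] at h3
        have h7 : d = (c - m) * P.L a := by linarith
        have h8 : 0 ≤ c - m := by
          by_contra hcm
          have : c - m ≤ -1 := by omega
          nlinarith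
        have h9 : c - m ≤ 0 := by
          by_contra hcm
          have : 1 ≤ c - m := by omega
          nlinarith
        have h10 : c - m = 0 := le_antisymm h9 h8
        rw [h10, zero_mul] at h7
        exact hΔ h7
      · exact h2 hps
      · rw [ep_neg hng] at h3
        have h7 : d = (c - m) * P.L a - 1 := by linarith
        have h8 : 0 ≤ c - m := by
          by_contra hcm
          have : c - m ≤ -1 := by omega
          nlinarith
        have h9 : c - m ≤ 1 := by
          by_contra hcm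
          have : 2 ≤ c - m := by omega
          nlinarith
        have hneg : c = m → P.D.rt w a ∉ P.D.Pos := by
          intro hcm hp
          have h10 := len_lt_of_pos w ha hp
          rw [hcm, sub_self, zero_mul] at h7
          omega
        rcases hm with rfl | rfl
        · have hη : P.D.rt (P.D.refl b * w) a ∈ P.D.Pos := by
            by_contra hn
            have := len_lt_of_neg _ ha hn
            omega
          rw [hv] at hη
          have hc' : c = 0 ∨ c = 1 := by omega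
          rcases hc' with hc' | hc'
          · apply hneg hc'
            rw [hc', zero_smul, sub_zero] at hη
            exact hη
          · rw [hc', one_smul] at hη
            apply neg_not_pos hη
            apply h.pos_of_pos (neg_mem (mem_of_pos hη))
            rw [dotProduct_neg, dotProduct_sub, ← hc, P.D.co_self b hb]
            omega
        · have hc' : c = 1 ∨ c = 2 := by omega
          rcases hc' with hc' | hc'
          · apply hneg hc'
            exact h.pos_of_pos (P.D.rt_mem.2 haΦ) (by rw [← hc]; omega)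
          · by_cases hb1 : P.D.rt w a = b
            · exact hab (by rw [← hb1, P.D.rt_inv_rt])
            · by_cases hb2 : P.D.rt w a = -b
              · rw [hc, hb2, dotProduct_neg, P.D.co_self b hb] at hc'
                omega
              · have := (h.le_one (P.D.rt_mem.2 haΦ) hb1 hb2).1
                rw [← hc] at this
                omega
    have k0 := key 0 (Or.inl rfl)
    have k1 := key 1 (Or.inr rfl)
    rw [zero_mul, add_zero] at k0
    rw [one_mul] at k1
    rw [if_neg k0, if_neg k1, add_zero, mul_zero]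

/-- the first root is a Levi root, the second one is positive -/
private theorem Tm_levi (f : (Fin r → ℤ) → ℂ) {b : Fin r → ℤ} (h : P.D.IsMax b)
    (t : Fin r → ℂ) (w : P.D.W) {a : Fin r → ℤ} (ha : a ∈ P.Pos) (h1 : P.Levi (P.D.rt w⁻¹ b))
    (h2 : P.D.rt (w * P.D.refl a)⁻¹ b ∈ P.Pos) : Tm P f t w a = 0 := by
  have hL := two_le_L ha
  have h3 := len_s h w ha
  rw [ep_levi h1, ep_pos h2] at h3
  have h4 := len_bound (P.D.refl b * w) ha
  have h5 := abs_le.1 (show |(P.len (P.D.refl b * w * P.D.refl a) : ℤ) -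
    P.len (P.D.refl b * w)| ≤ P.L a - 1 by linarith)
  have hΔ := len_ne (P.D.refl b * w) ha
  rw [Tm_eq]
  have key : ∀ m : ℤ, (P.len (w * P.D.refl a) : ℤ) - P.len w + m * P.L a = 1 → False := by
    intro m h6
    set c := dotProduct (P.D.co b) (P.D.rt w a) with hc
    set d := (P.len (P.D.refl b * w * P.D.refl a) : ℤ) - P.len (P.D.refl b * w) with hd
    have h7 : d = (-c - m) * P.L a := by linarith
    have h8 : 0 ≤ -c - m := by
      by_contra hcm
      have : -c - m ≤ -1 := by omega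
      nlinarith
    have h9 : -c - m ≤ 0 := by
      by_contra hcm
      have : 1 ≤ -c - m := by omega
      nlinarith
    have h10 : -c - m = 0 := le_antisymm h9 h8
    rw [h10, zero_mul] at h7
    exact hΔ h7
  have k0 := key 0
  have k1 := key 1
  rw [zero_mul, add_zero] at k0
  rw [one_mul] at k1
  rw [if_neg k0, if_neg k1, add_zero, mul_zero]

private theorem rt_s_inv {b : Fin r → ℤ} (hb : b ∈ P.D.Φ) (w : P.D.W) :
    P.D.rt (P.D.refl b * w)⁻¹ b = -P.D.rt w⁻¹ b := by
  rw [mul_inv_rev, P.D.rt_mul, refl_inv hb, rt_refl_self hb, P.D.rt_neg]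

private theorem term_eq (f : (Fin r → ℤ) → ℂ) {b : Fin r → ℤ} (h : P.D.IsMax b)
    (t : Fin r → ℂ) (w : P.D.W) {a : Fin r → ℤ} (ha : a ∈ P.Pos) :
    Tm P f t (P.D.refl b * w) a *
        (if P.D.rt w⁻¹ b ∈ P.Pos then qq t (-P.D.co (P.D.rt w⁻¹ b)) else 0)
      - (if P.D.rt (w * P.D.refl a)⁻¹ b ∈ P.Pos then
          qq t (-P.D.co (P.D.rt (w * P.D.refl a)⁻¹ b)) else 0) * Tm P f t w a =
      if a = P.D.rt w⁻¹ b then f a else if a = -P.D.rt w⁻¹ b then -f a else 0 := by
  have haΦ := pos_mem ha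
  have hb := h.mem
  have hwb : P.D.rt w⁻¹ b ∈ P.D.Φ := P.D.rt_mem.2 hb
  have hmul : P.D.rt (w * P.D.refl a)⁻¹ b = P.D.rt (P.D.refl a) (P.D.rt w⁻¹ b) := by
    rw [mul_inv_rev, P.D.rt_mul, refl_inv haΦ]
  by_cases h1 : P.D.rt w⁻¹ b ∈ P.Pos
  · have hne : ¬ a = -P.D.rt w⁻¹ b := by
      intro hab
      rw [hab] at ha
      exact neg_not_Pos h1 ha
    rw [if_pos h1]
    by_cases h2 : P.D.rt (w * P.D.refl a)⁻¹ b ∈ P.Pos
    · have hne2 : ¬ a = P.D.rt w⁻¹ b := by
        intro hab
        rw [hmul, ← hab, rt_refl_self haΦ] at h2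
        exact neg_not_Pos ha h2
      rw [if_pos h2, if_neg hne2, if_neg hne, Tm_cancel f h t w ha h1 h2,
        qq_mul_refl hb t w haΦ]
      ring
    · rw [if_neg h2, Tm_core f h t w ha h1 h2, zero_mul, sub_zero]
      by_cases hab : a = P.D.rt w⁻¹ b
      · rw [if_pos hab, if_pos hab, ← hab, mul_assoc, ← qq_add, add_neg_cancel, qq_zero, mul_one]
      · rw [if_neg hab, if_neg hab, if_neg hne, zero_mul]
  · rw [if_neg h1, mul_zero, zero_sub]
    have hne : ¬ a = P.D.rt w⁻¹ b := by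
      intro hab
      rw [hab] at ha
      exact h1 ha
    rw [if_neg hne]
    by_cases h2 : P.D.rt (w * P.D.refl a)⁻¹ b ∈ P.Pos
    · rw [if_pos h2]
      rcases cases hwb with hlv | hps | h1'
      · have hne2 : ¬ a = -P.D.rt w⁻¹ b := by
          intro hab
          rw [hab] at ha
          exact levi_not (levi_neg hlv) ha
        rw [if_neg hne2, Tm_levi f h t w ha hlv h2, mul_zero, neg_zero]
      · exact absurd hps h1
      · have h3 : P.D.rt (P.D.refl b * w)⁻¹ b ∈ P.Pos := by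
          rw [rt_s_inv hb]
          exact h1'
        have h4 : P.D.rt (P.D.refl b * w * P.D.refl a)⁻¹ b ∉ P.Pos := by
          rw [mul_assoc, rt_s_inv hb]
          exact neg_not_Pos h2
        have h5 := Tm_core f h t (P.D.refl b * w) ha h3 h4
        rw [← mul_assoc, refl_mul_self hb, one_mul, rt_s_inv hb] at h5
        rw [h5]
        by_cases hab : a = -P.D.rt w⁻¹ b
        · rw [if_pos hab, if_pos hab]
          have h6 : P.D.rt (w * P.D.refl a)⁻¹ b = a := by
            rw [hmul]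
            have : P.D.rt w⁻¹ b = -a := by rw [hab, neg_neg]
            rw [this, P.D.rt_neg, rt_refl_self haΦ, neg_neg]
          rw [h6, mul_left_comm, ← qq_add, neg_add_cancel, qq_zero, mul_one]
        · rw [if_neg hab, if_neg hab, mul_zero, neg_zero]
    · have hne2 : ¬ a = -P.D.rt w⁻¹ b := by
        intro hab
        apply h2
        rw [hmul]
        have : P.D.rt w⁻¹ b = -a := by rw [hab, neg_neg]
        rw [this, P.D.rt_neg, rt_refl_self haΦ, neg_neg]
        exact ha
      rw [if_neg h2, if_neg hne2, zero_mul, neg_zero]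

private theorem lm_lm {b : Fin r → ℤ} (hb : b ∈ P.D.Φ) (u : P.X) :
    P.lm (P.D.refl b) (P.lm (P.D.refl b) u) = u := by
  rw [← lm_mul, refl_mul_self hb, lm_one]

private theorem EA_apply (f : (Fin r → ℤ) → ℂ) {b : Fin r → ℤ} (t : Fin r → ℂ) (u w : P.X) :
    (P.E f t * P.Aθ b t) u w = P.E f t u (P.lm (P.D.refl b) w) *
      (if P.D.rt w.1⁻¹ b ∈ P.Pos then qq t (-P.D.co (P.D.rt w.1⁻¹ b)) else 0) := by
  rw [Matrix.mul_apply, Finset.sum_eq_single (P.lm (P.D.refl b) w)]
  · congr 1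
    unfold Aθ
    rw [Matrix.of_apply]
    simp
  · intro v _ hv
    unfold Aθ
    rw [Matrix.of_apply, if_neg (fun hh => hv hh.1), mul_zero]
  · intro hn
    exact absurd (Finset.mem_univ _) hn

private theorem AE_apply (f : (Fin r → ℤ) → ℂ) {b : Fin r → ℤ} (hb : b ∈ P.D.Φ)
    (t : Fin r → ℂ) (u w : P.X) :
    (P.Aθ b t * P.E f t) u w =
      (if P.D.rt (P.lm (P.D.refl b) u).1⁻¹ b ∈ P.Pos then
        qq t (-P.D.co (P.D.rt (P.lm (P.D.refl b) u).1⁻¹ b)) else 0) *
        P.E f t (P.lm (P.D.refl b) u) w := by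
  rw [Matrix.mul_apply, Finset.sum_eq_single (P.lm (P.D.refl b) u)]
  · congr 1
    unfold Aθ
    rw [Matrix.of_apply]
    by_cases h1 : P.D.rt (P.lm (P.D.refl b) u).1⁻¹ b ∈ P.Pos
    · rw [if_pos h1, if_pos ⟨(lm_lm hb u).symm, h1⟩]
    · rw [if_neg h1, if_neg fun hh => h1 hh.2]
  · intro v _ hv
    unfold Aθ
    rw [Matrix.of_apply, if_neg, zero_mul]
    intro hh
    apply hv
    rw [hh.1, lm_lm hb]
  · intro hn
    exact absurd (Finset.mem_univ _) hn

/-- the factor does not depend on the representative -/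
private theorem fac_fl {t : Fin r → ℂ} (ht : P.Inv t) {b : Fin r → ℤ} (hb : b ∈ P.D.Φ)
    (v : P.D.W) :
    (if P.D.rt (P.fl v).1⁻¹ b ∈ P.Pos then qq t (-P.D.co (P.D.rt (P.fl v).1⁻¹ b)) else 0) =
      if P.D.rt v⁻¹ b ∈ P.Pos then qq t (-P.D.co (P.D.rt v⁻¹ b)) else 0 := by
  obtain ⟨x, hx, hv⟩ := fl_spec v
  have hinv : (P.fl v).1⁻¹ = x * v⁻¹ := by
    have e1 : v⁻¹ = x⁻¹ * (P.fl v).1⁻¹ := by
      conv_lhs => rw [hv]
      rw [mul_inv_rev]
    rw [e1, mul_inv_cancel_left]
  have hrt : P.D.rt (P.fl v).1⁻¹ b = P.D.rt x (P.D.rt v⁻¹ b) := by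
    rw [hinv, P.D.rt_mul]
  have hΦ : P.D.rt v⁻¹ b ∈ P.D.Φ := P.D.rt_mem.2 hb
  rw [hrt]
  by_cases h1 : P.D.rt v⁻¹ b ∈ P.Pos
  · rw [if_pos h1, if_pos (wj_pos hx h1), co_rt_eq x hΦ, ← P.D.yt_neg, qq_inv ht hx]
  · have h2 : P.D.rt x (P.D.rt v⁻¹ b) ∉ P.Pos := by
      intro h3
      have h4 := wj_pos (Subgroup.inv_mem _ hx) h3
      rw [P.D.rt_inv_rt] at h4
      exact h1 h4
    rw [if_neg h1, if_neg h2]

theorem E_Aθ {c : (Fin r → ℤ) → ℂ} (hc : P.Lab c) {b : Fin r → ℤ} (h : P.D.IsMax b)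
    {t : Fin r → ℂ} (ht : P.Inv t) :
    P.E c t * P.Aθ b t - P.Aθ b t * P.E c t =
      Matrix.diagonal fun w => c (P.D.rt w.1⁻¹ b) := by
  have hb := h.mem
  ext u w
  have hwb : P.D.rt w.1⁻¹ b ∈ P.D.Φ := P.D.rt_mem.2 hb
  have hEA : P.E c t u (P.lm (P.D.refl b) w) =
      ∑ a ∈ P.Pos, if u = P.fl (P.D.refl b * w.1 * P.D.refl a) then
        Tm P c t (P.D.refl b * w.1) a else 0 := E_apply hc ht u (P.D.refl b * w.1)
  have hAE : P.E c t (P.lm (P.D.refl b) u) w =
      ∑ a ∈ P.Pos, if P.lm (P.D.refl b) u = P.fl (w.1 * P.D.refl a) then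
        Tm P c t w.1 a else 0 := by
    have h1 := E_apply hc ht (P.lm (P.D.refl b) u) w.1
    rw [fl_val] at h1
    exact h1
  rw [Matrix.sub_apply, EA_apply, AE_apply c hb, hEA, hAE, Finset.sum_mul, Finset.mul_sum,
    ← Finset.sum_sub_distrib]
  have step : ∀ a ∈ P.Pos,
      ((if u = P.fl (P.D.refl b * w.1 * P.D.refl a) then Tm P c t (P.D.refl b * w.1) a else 0) *
          (if P.D.rt w.1⁻¹ b ∈ P.Pos then qq t (-P.D.co (P.D.rt w.1⁻¹ b)) else 0) -
        (if P.D.rt (P.lm (P.D.refl b) u).1⁻¹ b ∈ P.Pos then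
            qq t (-P.D.co (P.D.rt (P.lm (P.D.refl b) u).1⁻¹ b)) else 0) *
          (if P.lm (P.D.refl b) u = P.fl (w.1 * P.D.refl a) then Tm P c t w.1 a else 0)) =
      if u = P.fl (P.D.refl b * w.1 * P.D.refl a) then
        (if a = P.D.rt w.1⁻¹ b then c a else if a = -P.D.rt w.1⁻¹ b then -c a else 0)
      else 0 := by
    intro a ha
    by_cases hu : u = P.fl (P.D.refl b * w.1 * P.D.refl a)
    · have hu2 : P.lm (P.D.refl b) u = P.fl (w.1 * P.D.refl a) := by
        rw [hu, lm_fl, ← mul_assoc, ← mul_assoc, refl_mul_self hb, one_mul]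
      rw [if_pos hu, if_pos hu, if_pos hu2, hu2, fac_fl ht hb]
      exact term_eq c h t w.1 ha
    · have hu2 : ¬ P.lm (P.D.refl b) u = P.fl (w.1 * P.D.refl a) := by
        intro h2
        apply hu
        rw [mul_assoc, ← lm_fl, ← h2, lm_lm hb]
      rw [if_neg hu, if_neg hu, if_neg hu2, zero_mul, mul_zero, sub_zero]
  rw [Finset.sum_congr rfl step]
  have hrefl : P.fl (P.D.refl b * w.1 * P.D.refl (P.D.rt w.1⁻¹ b)) = w := by
    have h1 := refl_rt w.1⁻¹ hb
    have h2 : P.D.refl b * w.1 * P.D.refl (P.D.rt w.1⁻¹ b) = w.1 := by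
      rw [h1, inv_inv]
      calc P.D.refl b * w.1 * (w.1⁻¹ * P.D.refl b * w.1) =
            P.D.refl b * (w.1 * w.1⁻¹) * P.D.refl b * w.1 := by group
        _ = w.1 := by rw [mul_inv_cancel, mul_one, refl_mul_self hb, one_mul]
    rw [h2, fl_val]
  rw [Matrix.diagonal_apply]
  rcases cases hwb with h0 | h1 | h1
  · rw [Finset.sum_eq_zero]
    · by_cases huw : u = w
      · subst huw
        rw [if_pos rfl]
        exact (hc.levi h0).symm
      · rw [if_neg huw]
    intro a ha
    have hne : ¬ a = P.D.rt w.1⁻¹ b := by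
      intro hab
      rw [hab] at ha
      exact levi_not h0 ha
    have hne2 : ¬ a = -P.D.rt w.1⁻¹ b := by
      intro hab
      rw [hab] at ha
      exact levi_not (levi_neg h0) ha
    rw [if_neg hne, if_neg hne2, ite_self]
  · rw [Finset.sum_eq_single (P.D.rt w.1⁻¹ b)]
    · rw [hrefl, if_pos rfl]
      by_cases huw : u = w
      · rw [if_pos huw, if_pos huw, huw]
      · rw [if_neg huw, if_neg huw]
    · intro a ha hne
      have hne2 : ¬ a = -P.D.rt w.1⁻¹ b := by
        intro hab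
        rw [hab] at ha
        exact neg_not_Pos h1 ha
      rw [if_neg hne, if_neg hne2, ite_self]
    · intro hn
      exact absurd h1 hn
  · have hne0 : ¬ -P.D.rt w.1⁻¹ b = P.D.rt w.1⁻¹ b := by
      intro hh
      have h2 := neg_not_Pos h1
      rw [neg_neg] at h2
      exact h2 (hh ▸ h1)
    rw [Finset.sum_eq_single (-P.D.rt w.1⁻¹ b)]
    · rw [refl_neg hwb, hrefl, if_neg hne0, if_pos rfl, hc.odd _ hwb]
      by_cases huw : u = w
      · rw [if_pos huw, if_pos huw, huw, neg_neg]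
      · rw [if_neg huw, if_neg huw]
    · intro a ha hne
      have hne2 : ¬ a = P.D.rt w.1⁻¹ b := by
        intro hab
        rw [hab] at ha
        have h2 := neg_not_Pos h1
        rw [neg_neg] at h2
        exact h2 ha
      rw [if_neg hne2, if_neg hne, ite_self]
    · intro hn
      exact absurd h1 hn

end Pool.Agent.FLG.Par
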