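import Pool.Agent.FLG.P.Scale
import Pool.Agent.FLG.P.CommT
import Pool.Agent.FLG.P.CommM

/-!
# FLG-P-Ode: the elementary matrices intertwine the quantum differential equations

PLAN. As Ode.lean for `G/B` (same computations; `s_len`, `max_len`, `tau_len` for the lengths, `lm` for left multiplication, `hv_fl`, `rt_lm_tr` for the diagonal parts).
-/

set_option autoImplicit false

open scoped BigOperators
open Pool.Agent.DST.TE

namespace Pool.Agent.FLG.Par

open RS

variable {r : ℕ} {P : Par r}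

private theorem od_rhs (c : ℂ) (A B M : Matrix P.X P.X ℂ) (u v : P.X) :
    ((Matrix.diagonal P.th - c • A) * M - M * (Matrix.diagonal P.th - c • B)) u v =
      (P.th u - P.th v) * M u v - c * ((A * M - M * B) u v) := by
  rw [Matrix.sub_mul, Matrix.mul_sub, Matrix.smul_mul, Matrix.mul_smul]
  simp only [Matrix.sub_apply, Matrix.smul_apply, Matrix.diagonal_mul, Matrix.mul_diagonal,
    smul_eq_mul]
  ring

private theorem od_sm (y : Fin r → ℂ) (e : ℂ) : (fun i => y i * e) = e • y := by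
  funext i
  rw [Pi.smul_apply, smul_eq_mul, mul_comm]

private theorem od_th (u v : P.X) : P.th u - P.th v = (P.len v.1 : ℂ) - P.len u.1 := by
  unfold th
  ring

private theorem od_dot (μ a : Fin r → ℤ) : pr a (cc μ) = ((dotProduct μ a : ℤ) : ℂ) := by
  rw [pr_cc]
  congr 1
  unfold dotProduct
  exact Finset.sum_congr rfl fun i _ => mul_comm _ _

/-- the diagonal parts -/
private theorem od_diag (E M : Matrix P.X P.X ℂ) (f g : P.X → ℂ) (u v : P.X) :
    ((E - Matrix.diagonal f) * M - M * (E - Matrix.diagonal g)) u v =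
      (E * M - M * E) u v - (f u - g v) * M u v := by
  rw [Matrix.sub_mul, Matrix.mul_sub]
  simp only [Matrix.sub_apply, Matrix.diagonal_mul, Matrix.mul_diagonal]
  ring

theorem inter_Ms {t : Fin r → ℂ} (ht : P.Inv t) (i : Fin r) :
    P.Inter t (P.D.s i) 0 (P.Ms i) := by
  intro y s u v
  rw [od_rhs]
  have hx : (fun j => P.D.xi (P.D.s i) 0 y j * Complex.exp s) =
      P.D.yt (P.D.s i)⁻¹ (fun j => y j * Complex.exp s) := by
    rw [od_sm, od_sm, P.D.yt_smul]
    unfold xi
    have h0 : cc (0 : Fin r → ℤ) = 0 := by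
      funext j
      simp [cc]
    rw [h0, add_zero]
  have hcomm := (IsLeft.simple (P := P) i).comm inv_ctr ht (fun j => y j * Complex.exp s)
  have hcomm' : P.Cq P.ctr t (fun j => y j * Complex.exp s) *
      P.Ms i (fun j => y j * Complex.exp s) (Complex.exp s) =
      P.Ms i (fun j => y j * Complex.exp s) (Complex.exp s) *
        P.Cq P.ctr t (P.D.yt (P.D.s i)⁻¹ (fun j => y j * Complex.exp s)) := hcomm
  rw [hx, hcomm', sub_self, Matrix.zero_apply, mul_zero, sub_zero]
  have hfun : ∀ s', P.Ms i (fun j => y j * Complex.exp s') (Complex.exp s') u v =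
      (1 : Matrix P.X P.X ℂ) u v - Complex.exp s' * (pr (al i) y * P.A i u v) := by
    intro s'
    unfold Ms
    rw [Matrix.sub_apply, Matrix.smul_apply, smul_eq_mul, od_sm, pr_smul, mul_assoc]
  have hder : HasDerivAt (fun s' => P.Ms i (fun j => y j * Complex.exp s') (Complex.exp s') u v)
      (-(Complex.exp s * (pr (al i) y * P.A i u v))) s := by
    have h1 := ((Complex.hasDerivAt_exp s).mul_const (pr (al i) y * P.A i u v)).const_sub
      ((1 : Matrix P.X P.X ℂ) u v)
    refine h1.congr_of_eventuallyEq (Filter.Eventually.of_forall fun s' => ?_)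
    exact hfun s'
  convert hder using 1
  rw [hfun, od_th]
  have h1 : ((P.len v.1 : ℂ) - P.len u.1) * (1 : Matrix P.X P.X ℂ) u v = 0 := by
    by_cases h : u = v
    · rw [h, sub_self, zero_mul]
    · rw [Matrix.one_apply_ne h, mul_zero]
  have h2 : ((P.len v.1 : ℂ) - P.len u.1) * P.A i u v = P.A i u v := by
    unfold A
    rw [Matrix.of_apply]
    by_cases h : u = P.lm (P.D.s i) v ∧ P.len u.1 < P.len v.1
    · rw [if_pos h, mul_one]
      have h3 : P.len v.1 = P.len u.1 + 1 := by
        have h4 := s_len (P := P) i v.1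
        rw [← len_lm (P := P), ← h.1] at h4
        have h5 := h.2
        split_ifs at h4 <;> omega
      rw [h3]
      push_cast
      ring
    · rw [if_neg h, mul_zero]
  linear_combination h1 - Complex.exp s * pr (al i) y * h2

theorem inter_Mθ {t : Fin r → ℂ} (ht : P.Inv t) {b : Fin r → ℤ} (hb : P.D.IsMax b) :
    P.Inter t (P.D.refl b) (P.D.co b) (P.Mθ t b) := by
  have hbΦ : b ∈ P.D.Φ := hb.mem
  intro y s u v
  rw [od_rhs]
  set z := Complex.exp s with hz
  have hz0 : z ≠ 0 := Complex.exp_ne_zero s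
  set lam : Fin r → ℂ := fun j => y j * z with hlam
  set κ : ℂ := z + pr b lam with hκ
  have hprlam : pr b lam = z * pr b y := by
    rw [hlam, od_sm, pr_smul]
  -- the shifted point
  have hx : (fun j => P.D.xi (P.D.refl b) (P.D.co b) y j * z) = lam - κ • cc (P.D.co b) := by
    unfold xi
    rw [refl_inv hbΦ, P.D.yt_add, yt_refl hbΦ, yt_refl hbΦ, od_dot, P.D.co_self b hbΦ]
    funext j
    simp only [Pi.add_apply, Pi.sub_apply, Pi.smul_apply, smul_eq_mul, hlam, hκ]
    push_cast
    rw [show pr b (fun j => y j * z) = z * pr b y by rw [od_sm, pr_smul]]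
    ring
  set K : P.X → ℂ := fun w => ((dotProduct (P.D.co b) (P.D.rt w.1 P.tr) : ℤ) : ℂ) with hK
  have hv1 : ∀ w : P.X, P.D.hv P.ctr w.1 (lam - κ • cc (P.D.co b)) = P.D.hv P.ctr w.1 lam - κ * K w := by
    intro w
    rw [hv_ctr (P := P), hv_ctr (P := P), pr_sub, pr_smul, od_dot]
  have hchK : ∀ w : P.X, P.D.ch P.ctr (P.D.rt w.1⁻¹ b) = K w := by
    intro w
    rw [ch_ctr (P := P)]
    simp only [hK]
    unfold L
    rw [co_rt _ hbΦ, inv_inv]
  have hKL : ∀ w : P.X, dotProduct (P.D.co b) (P.D.rt w.1 P.tr) = P.L (P.D.rt w.1⁻¹ b) := by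
    intro w
    unfold L
    rw [co_rt _ hbΦ, inv_inv]
  have hEA := E_Aθ (lab_ch (P := P) inv_ctr) hb ht
  have hM : ∀ s', P.Mθ t b (fun j => y j * Complex.exp s') (Complex.exp s') =
      1 + (Complex.exp s' * (1 + pr b y)) • P.Aθ b t := by
    intro s'
    unfold Mθ
    rw [od_sm, pr_smul]
    congr 2
    ring
  have hMs : P.Mθ t b lam z = 1 + κ • P.Aθ b t := rfl
  have hκ' : κ = z * (1 + pr b y) := by rw [hκ, hprlam]; ring
  have hder : HasDerivAt (fun s' => P.Mθ t b (fun j => y j * Complex.exp s') (Complex.exp s') u v)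
      (z * ((1 + pr b y) * P.Aθ b t u v)) s := by
    have h1 := ((Complex.hasDerivAt_exp s).mul_const ((1 + pr b y) * P.Aθ b t u v)).const_add
      ((1 : Matrix P.X P.X ℂ) u v)
    refine h1.congr_of_eventuallyEq (Filter.Eventually.of_forall fun s' => ?_)
    change P.Mθ t b (fun j => y j * Complex.exp s') (Complex.exp s') u v = _
    rw [hM, Matrix.add_apply, Matrix.smul_apply, smul_eq_mul, mul_assoc]
  convert hder using 1
  rw [hx]
  unfold Cq
  rw [od_diag, hMs]
  have e1 : (P.E (P.D.ch P.ctr) t * (1 + κ • P.Aθ b t) - (1 + κ • P.Aθ b t) * P.E (P.D.ch P.ctr) t) u v =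
      κ * (Matrix.diagonal fun w : P.X => P.D.ch P.ctr (P.D.rt w.1⁻¹ b)) u v := by
    rw [← hEA, mul_add, add_mul, mul_one, one_mul, Matrix.mul_smul, Matrix.smul_mul]
    simp only [Matrix.sub_apply, Matrix.add_apply, Matrix.smul_apply, smul_eq_mul]
    ring
  rw [e1, od_th, hv1, Matrix.add_apply, Matrix.smul_apply, smul_eq_mul]
  have hexp : Complex.exp (-s) = z⁻¹ := by rw [hz, Complex.exp_neg]
  rw [hexp]
  by_cases huv : u = v
  · -- diagonal entries
    subst huv
    rw [Matrix.diagonal_apply_eq, hchK, Matrix.one_apply_eq]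
    by_cases hA : u = P.lm (P.D.refl b) u ∧ P.D.rt u.1⁻¹ b ∈ P.Pos
    · exfalso
      have h1 := max_len (P := P) hb u.1
      rw [if_pos hA.2, ← len_lm (P := P), ← hA.1, hKL] at h1
      have h2 := two_le_L (P := P) hA.2
      omega
    · have hA0 : P.Aθ b t u u = 0 := by
        unfold Aθ
        rw [Matrix.of_apply, if_neg hA]
      rw [hA0]
      ring
  · rw [Matrix.diagonal_apply_ne _ huv, Matrix.one_apply_ne huv]
    by_cases hA : u = P.lm (P.D.refl b) v ∧ P.D.rt v.1⁻¹ b ∈ P.Pos
    · have h1 := max_len (P := P) hb v.1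
      rw [if_pos hA.2, ← len_lm (P := P), ← hA.1] at h1
      have h2 : (P.len u.1 : ℂ) = P.len v.1 + K v - 1 := by
        have : ((P.len u.1 : ℤ) : ℂ) =
            (((P.len v.1 : ℤ) + dotProduct (P.D.co b) (P.D.rt v.1 P.tr) - 1 : ℤ) : ℂ) := by
          rw [h1]
        push_cast at this
        simp only [hK]
        exact this
      have h3 : P.D.hv P.ctr u.1 lam = P.D.hv P.ctr v.1 lam - pr b lam * K v := by
        rw [hA.1]
        unfold lm
        rw [hv_fl (P := P) inv_ctr, RS.hv_refl P.ctr v.1 hbΦ, hchK]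
      rw [h2, h3]
      have h4 : pr b lam = κ - z := by rw [hκ]; ring
      rw [h4, hκ']
      field_simp
      ring
    · have hA0 : P.Aθ b t u v = 0 := by
        unfold Aθ
        rw [Matrix.of_apply, if_neg hA]
      rw [hA0]
      ring

theorem inter_Mτ {t : Fin r → ℂ} (ht : P.Inv t) {x : P.D.W} {ν : Fin r → ℤ}
    (h : P.D.IsTau x ν) : P.Inter t x ν fun _ _ => P.Mτ x ν t := by
  intro y s u v
  rw [od_rhs]
  set z := Complex.exp s with hz
  have hz0 : z ≠ 0 := Complex.exp_ne_zero s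
  set lam : Fin r → ℂ := fun j => y j * z with hlam
  have hexp : Complex.exp (-s) = z⁻¹ := by rw [hz, Complex.exp_neg]
  have hx : (fun j => P.D.xi x ν y j * z) = P.D.yt x⁻¹ (lam + z • cc ν) := by
    unfold xi
    rw [od_sm, ← P.D.yt_smul, smul_add, hlam, od_sm]
  have hcomm := E_Mτ (lab_ch (P := P) inv_ctr) h ht
  suffices hval : (P.th u - P.th v) * P.Mτ x ν t u v - Complex.exp (-s) *
      ((P.Cq P.ctr t lam * P.Mτ x ν t - P.Mτ x ν t * P.Cq P.ctr t fun i => P.D.xi x ν y i * z) u v) =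
      0 by
    rw [hval]
    exact hasDerivAt_const s (P.Mτ x ν t u v)
  unfold Cq
  rw [hx, od_diag, hcomm, sub_self, Matrix.zero_apply, od_th, hexp]
  by_cases huv : u = P.lm x v
  · have hrt : P.D.rt u.1 P.tr = P.D.rt (x * v.1) P.tr := by
      rw [huv, rt_lm_tr (P := P)]
    have h1 : P.D.hv P.ctr v.1 (P.D.yt x⁻¹ (lam + z • cc ν)) =
        P.D.hv P.ctr u.1 lam + z * ((dotProduct ν (P.D.rt u.1 P.tr) : ℤ) : ℂ) := by
      rw [← RS.hv_mul, hv_ctr (P := P), hv_ctr (P := P), ← hrt, pr_add, pr_smul, od_dot]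
    have h2 := tau_len (P := P) h v.1
    rw [← hrt, ← len_lm (P := P), ← huv] at h2
    have h3 : (P.len u.1 : ℂ) = P.len v.1 - ((dotProduct ν (P.D.rt u.1 P.tr) : ℤ) : ℂ) := by
      have : ((P.len u.1 : ℤ) : ℂ) = (((P.len v.1 : ℤ) - dotProduct ν (P.D.rt u.1 P.tr) : ℤ) : ℂ) := by
        rw [h2]
      push_cast at this
      exact this
    rw [h1, h3]
    field_simp
    ring
  · have hM0 : P.Mτ x ν t u v = 0 := by
      unfold Mτ
      rw [Matrix.of_apply, if_neg huv]
    rw [hM0]
    ring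

end Pool.Agent.FLG.Par
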