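import Pool.Agent.FLG.P.RmatB
import Pool.Agent.FLG.P.Scale
import Pool.Agent.DSTJ.ShiftJ

/-!
# FLG-P-Num: numbering of the fixed points; the data of the equation

PLAN. As Num.lean for `G/B` (`exists_xi`, `Rm_C0` with `h = ctr`, `inv_ctr`, `hv_ctr`).
-/

set_option autoImplicit false

open scoped BigOperators Topology
open Filter
open Pool.Agent.DST.TE Pool.Agent.DSTJ

namespace Pool.Agent.FLG.Par

open RS

variable {r : ℕ} {P : Par r}

theorem Cg_diff (t : Fin r → ℂ) (k : ℕ) (u v : P.X) :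
    Differentiable ℂ fun y => P.Cg t k y u v := by
  by_cases hk : k = 0
  · have h1 : (fun y => P.Cg t k y u v) = fun y => P.E0 (P.D.ch P.ctr) u v -
        if u = v then P.D.hv P.ctr u.1 y else 0 := by
      funext y
      unfold Cg
      rw [if_pos hk]
      unfold C0
      rw [Matrix.sub_apply, Matrix.diagonal_apply]
    rw [h1]
    by_cases huv : u = v
    · simp only [if_pos huv]
      unfold RS.hv RS.yt
      fun_prop
    · simp only [if_neg huv]
      fun_prop
  · have h1 : (fun y => P.Cg t k y u v) = fun _ => P.Eq (P.D.ch P.ctr) t k u v := by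
      funext y
      unfold Cg
      rw [if_neg hk]
    rw [h1]
    exact differentiable_const _

theorem Cg_big (t : Fin r → ℂ) {k : ℕ} (hk : P.KK < k) (y : Fin r → ℂ) : P.Cg t k y = 0 := by
  unfold Cg
  rw [if_neg (by omega)]
  exact Eq_big (by exact_mod_cast hk)

/-- the data of the equation -/
structure Num (P : Par r) (N : ℕ) where
  e : Fin N ≃ P.X
  ξ : Fin r → ℤ
  ξ_pos : ∀ i, 0 < ξ i
  /-- the fixed points are numbered by increasing weight of `c_1` -/
  mono : StrictMono fun p => -dotProduct ξ (P.D.rt (e p).1 P.tr)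

theorem exists_num (P : Par r) : Nonempty (P.Num (Fintype.card P.X)) := by
  obtain ⟨ξ, hξ, hi⟩ := exists_xi P
  have hi' : Function.Injective fun p : P.X => -dotProduct ξ (P.D.rt p.1 P.tr) := by
    intro a b hab
    exact hi (neg_injective hab)
  let _ : LinearOrder P.X := LinearOrder.lift' (fun p : P.X => -dotProduct ξ (P.D.rt p.1 P.tr)) hi'
  let f : Fin (Fintype.card P.X) ≃o P.X := monoEquivOfFin P.X rfl
  exact ⟨{ e := f.toEquiv
           ξ := ξ
           ξ_pos := hξ
           mono := fun p q hpq => f.strictMono hpq }⟩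

variable {N : ℕ} (n : P.Num N) (t : Fin r → ℂ)

private theorem ξ_pos_sum {a : Fin r → ℤ} (ha : a ∈ P.D.Pos) : 0 < ∑ i, a i * n.ξ i := by
  have h0 := (RS.mem_Pos.1 ha).2
  refine lt_of_le_of_ne (Finset.sum_nonneg fun i _ => mul_nonneg (h0 i) (n.ξ_pos i).le) ?_
  intro h1
  apply ne_zero (mem_of_pos ha)
  funext i
  have h2 := (Finset.sum_eq_zero_iff_of_nonneg fun i _ => mul_nonneg (h0 i) (n.ξ_pos i).le).1
    h1.symm i (Finset.mem_univ i)
  exact (mul_eq_zero.1 h2).resolve_right (n.ξ_pos i).ne'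

theorem ξ_ne {a : Fin r → ℤ} (ha : a ∈ P.D.Φ) : ∑ i, a i * n.ξ i ≠ 0 := by
  rcases pos_or_neg ha with h | h
  · exact (ξ_pos_sum n h).ne'
  · have h1 := ξ_pos_sum n h
    have h2 : ∑ i, (-a) i * n.ξ i = -∑ i, a i * n.ξ i := by
      rw [← Finset.sum_neg_distrib]
      exact Finset.sum_congr rfl fun i _ => by rw [Pi.neg_apply, neg_mul]
    rw [h2] at h1
    omega

private theorem pr_neg' (a : Fin r → ℤ) (y : Fin r → ℂ) : pr (-a) y = -pr a y := by
  unfold pr
  rw [← Finset.sum_neg_distrib]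
  exact Finset.sum_congr rfl fun i _ => by rw [Pi.neg_apply]; push_cast; ring

theorem base_R_comm (y : Fin r → ℂ) : (P.Rm y).submatrix n.e n.e * (P.Cg t 0 y).submatrix n.e n.e =
    Matrix.diagonal (fun p => pr (-P.D.rt (n.e p).1 P.tr) y) * (P.Rm y).submatrix n.e n.e := by
  have h1 : P.Cg t 0 y = P.C0 P.ctr y := by
    unfold Cg
    rw [if_pos rfl]
  rw [h1, Matrix.submatrix_mul_equiv, Rm_C0 inv_ctr]
  ext p q
  rw [Matrix.submatrix_apply, Matrix.diagonal_mul, Matrix.diagonal_mul, Matrix.submatrix_apply,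
    hv_ctr, pr_neg']

theorem base_R_det (y : Fin r → ℂ) (hy : ∀ a : {a // a ∈ P.D.Φ}, pr a.1 y ≠ 0) :
    ((P.Rm y).submatrix n.e n.e).det ≠ 0 := by
  rw [Matrix.det_submatrix_equiv_self]
  exact Rm_det_ne fun a ha => hy ⟨a, ha⟩

theorem base_ξ_e : Function.Injective fun p => ∑ i, (-P.D.rt (n.e p).1 P.tr) i * n.ξ i := by
  have h1 : (fun p => ∑ i, (-P.D.rt (n.e p).1 P.tr) i * n.ξ i) =
      fun p => -dotProduct n.ξ (P.D.rt (n.e p).1 P.tr) := by
    funext p
    unfold dotProduct
    rw [← Finset.sum_neg_distrib]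
    exact Finset.sum_congr rfl fun i _ => by
      rw [Pi.neg_apply]
      ring
  rw [h1]
  exact n.mono.injective

end Pool.Agent.FLG.Par
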