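import Pool.Agent.FLG.P.RmatA
import Pool.Agent.FLG.Theta
import Pool.Agent.FLG.Tau
import Pool.Agent.FLG.Good

/-!
# FLG-P-Gam: the Gamma factors

PLAN. Compare GamI.lean and GamT.lean for `G/B`; here `gam` contains the factor `e^{πi c_1}` which cancels all the signs: `pr (rt v tr) (xi w ν y) = pr (rt (w v) tr) y + dotProduct ν (rt (w v) tr)` (`RS.pr_xi`), and
`e^{-πi m}`, `m = dotProduct ν (rt (w v) tr) = ∑ a ∈ P.Pos, m_a`, `m_a = dotProduct ν η`, `η = rt (w v) a`, is the product of the signs `(-1)^{m_a}`. Use `prod_lm` / `Rm_diag` to write everything as products over `a ∈ P.Pos` of functions of `η = rt (w * v.1) a`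
(the diagonal entry `P.Rm y (lm w v) (lm w v)` is the product over the `a ∈ P.Pos` with `η ∉ D.Pos` of `-pr η y`, the entry `P.Rm y' v v` over those with `rt v a ∉ D.Pos` of `-(pr η y + m_a)`). `gam_s`: no condition. `gam_M`: four cases as in GamI.lean, with the factor
`(-1)^{m_a}` each side agrees factor by factor. `gam_θ`: as in GamT.lean, including the factor with `η = -b` (`rt v a = b`, `a = rt v⁻¹ b ∈ P.Pos`, `m_a = -2`). `gam_levi`: `β = rt v⁻¹ b` Levi: `refl β ∈ WJ` permutes `P.Pos`, `lm (refl b) v = v`;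
no `η = ± b`, factor by factor as in `gam_M`.
-/

set_option autoImplicit false

open scoped BigOperators
open Pool.Agent.DST.TE

namespace Pool.Agent.FLG.Par

open RS

variable {r : ℕ} {P : Par r}

private theorem gp_hv (t : Fin r → ℂ) (x : P.D.W) (ν : Fin r → ℤ) (v : P.D.W) (y : Fin r → ℂ) :
    P.D.hv t v (P.D.xi x ν y) =
      P.D.hv t (x * v) y + ∑ j, t j * ((P.D.yt (x * v)⁻¹ ν j : ℤ) : ℂ) := by
  unfold hv xi
  rw [← Finset.sum_add_distrib]
  refine Finset.sum_congr rfl fun j _ => ?_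
  rw [← P.D.yt_mul, ← mul_inv_rev, P.D.yt_add, P.D.yt_cc, Pi.add_apply, mul_add]
  rfl

private theorem gp_zpow {ι : Type} (S : Finset ι) (m : ι → ℤ) :
    (-1 : ℂ) ^ (∑ a ∈ S, m a) = ∏ a ∈ S, (-1 : ℂ) ^ (m a) := by
  classical
  induction S using Finset.induction_on with
  | empty => simp
  | insert a S ha ih =>
    rw [Finset.prod_insert ha, Finset.sum_insert ha, ← ih, zpow_add₀ (by norm_num)]

private theorem gp_exp (m : ℤ) : Complex.exp (-(Real.pi * Complex.I * (m : ℂ))) = (-1 : ℂ) ^ m := by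
  have h1 : -(Real.pi * Complex.I * (m : ℂ)) = ((-m : ℤ) : ℂ) * (Real.pi * Complex.I) := by
    push_cast
    ring
  rw [h1, Complex.exp_int_mul, Complex.exp_pi_mul_I, zpow_neg]
  rcases Int.even_or_odd m with h | h
  · rw [h.neg_one_zpow, inv_one]
  · rw [h.neg_one_zpow]
    norm_num

private theorem gp_sign (u : P.D.W) (ν : Fin r → ℤ) :
    (-1 : ℂ) ^ (dotProduct ν (P.D.rt u P.tr)) =
      ∏ a ∈ P.Pos, (-1 : ℂ) ^ (dotProduct ν (P.D.rt u a)) := by
  rw [← gp_zpow]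
  congr 1
  unfold tr
  rw [P.D.rt_sum, dotProduct_sum]

private theorem gp_pr (x : P.D.W) (ν : Fin r → ℤ) (v : P.D.W) (y : Fin r → ℂ) (a : Fin r → ℤ) :
    pr (P.D.rt v a) (P.D.xi x ν y) =
      pr (P.D.rt (x * v) a) y + ((dotProduct ν (P.D.rt (x * v) a) : ℤ) : ℂ) := by
  rw [pr_xi, P.D.rt_mul]

/-- the value of `gam` at a translated point -/
private theorem gp_xi (t : Fin r → ℂ) (x : P.D.W) (ν : Fin r → ℤ) (v : P.X) (y : Fin r → ℂ) :
    P.gam t v (P.D.xi x ν y) = (qq t (P.D.yt (x * v.1)⁻¹ ν))⁻¹ *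
      (∏ a ∈ P.Pos, (-1 : ℂ) ^ (dotProduct ν (P.D.rt (x * v.1) a))) *
      Complex.exp (-P.D.hv t (x * v.1) y -
        Real.pi * Complex.I * pr (P.D.rt (x * v.1) P.tr) y) *
      ∏ a ∈ P.Pos, Complex.Gamma (1 + (pr (P.D.rt (x * v.1) a) y +
        ((dotProduct ν (P.D.rt (x * v.1) a) : ℤ) : ℂ))) := by
  unfold gam
  have h1 : -P.D.hv t v.1 (P.D.xi x ν y) -
      Real.pi * Complex.I * pr (P.D.rt v.1 P.tr) (P.D.xi x ν y) =
      -(∑ j, t j * ((P.D.yt (x * v.1)⁻¹ ν j : ℤ) : ℂ)) +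
      (-(Real.pi * Complex.I * ((dotProduct ν (P.D.rt (x * v.1) P.tr) : ℤ) : ℂ)) +
      (-P.D.hv t (x * v.1) y - Real.pi * Complex.I * pr (P.D.rt (x * v.1) P.tr) y)) := by
    rw [gp_hv, gp_pr]
    ring
  rw [h1, Complex.exp_add, Complex.exp_add, gp_exp, gp_sign, Complex.exp_neg, ← mul_assoc]
  congr 1
  exact Finset.prod_congr rfl fun a _ => by rw [gp_pr]

/-- the value of `gam` at `w v` -/
private theorem gp_lm {t : Fin r → ℂ} (ht : P.Inv t) (x : P.D.W) (v : P.X) (y : Fin r → ℂ) :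
    P.gam t (P.lm x v) y = Complex.exp (-P.D.hv t (x * v.1) y -
        Real.pi * Complex.I * pr (P.D.rt (x * v.1) P.tr) y) *
      ∏ a ∈ P.Pos, Complex.Gamma (1 + pr (P.D.rt (x * v.1) a) y) := by
  unfold gam
  have h1 : P.D.hv t (P.lm x v).1 y = P.D.hv t (x * v.1) y := hv_fl ht _ y
  rw [h1, rt_lm_tr, prod_lm x v fun b => Complex.Gamma (1 + pr b y)]
  congr 1
  exact Finset.prod_congr rfl fun a _ => by rw [P.D.rt_mul]

private theorem gp_diag (y : Fin r → ℂ) (p : P.X) : P.Rm y p p =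
    ∏ a ∈ P.Pos, if P.D.rt p.1 a ∈ P.D.Pos then 1 else -pr (P.D.rt p.1 a) y := by
  rw [Rm_diag, Finset.prod_filter]
  refine Finset.prod_congr rfl fun a _ => ?_
  by_cases h : P.D.rt p.1 a ∈ P.D.Pos
  · rw [if_pos h, if_neg (not_not.2 h)]
  · rw [if_neg h, if_pos h]

private theorem gp_diag_lm (x : P.D.W) (v : P.X) (y : Fin r → ℂ) :
    P.Rm y (P.lm x v) (P.lm x v) = ∏ a ∈ P.Pos,
      if P.D.rt (x * v.1) a ∈ P.D.Pos then 1 else -pr (P.D.rt (x * v.1) a) y := by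
  rw [gp_diag, prod_lm x v fun b => if b ∈ P.D.Pos then (1 : ℂ) else -pr b y]
  exact Finset.prod_congr rfl fun a _ => by rw [P.D.rt_mul]

private theorem gp_diag_xi (x : P.D.W) (ν : Fin r → ℤ) (v : P.X) (y : Fin r → ℂ) :
    P.Rm (P.D.xi x ν y) v v = ∏ a ∈ P.Pos, if P.D.rt v.1 a ∈ P.D.Pos then 1 else
      -(pr (P.D.rt (x * v.1) a) y + ((dotProduct ν (P.D.rt (x * v.1) a) : ℤ) : ℂ)) := by
  rw [gp_diag]
  exact Finset.prod_congr rfl fun a _ => by rw [gp_pr]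

private theorem gp_qq {t : Fin r → ℂ} (ht : P.Inv t) (w : P.D.W) (ν : Fin r → ℤ) :
    qq t (P.D.yt (P.fl w).1⁻¹ ν) = qq t (P.D.yt w⁻¹ ν) := by
  obtain ⟨v, hv, hw⟩ := fl_spec w
  have h1 : P.D.yt w⁻¹ ν = P.D.yt v⁻¹ (P.D.yt (P.fl w).1⁻¹ ν) := by
    rw [← P.D.yt_mul, ← mul_inv_rev, ← hw]
  rw [h1, qq_inv ht (inv_mem hv)]

theorem gam_ne (t : Fin r → ℂ) (v : P.X) {y : Fin r → ℂ} (hy : P.SG y) : P.gam t v y ≠ 0 := by
  unfold gam
  refine mul_ne_zero (Complex.exp_ne_zero _) (Finset.prod_ne_zero_iff.2 fun a ha => ?_)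
  refine Complex.Gamma_ne_zero fun m hm => ?_
  apply hy.1 (P.D.rt v.1 a) (P.D.rt_mem.2 (pos_mem ha)) (-(m : ℤ) - 1)
  push_cast
  linear_combination hm

theorem gam_s {t : Fin r → ℂ} (ht : P.Inv t) (w : P.D.W) (v : P.X) (y : Fin r → ℂ) :
    P.gam t v (P.D.xi w 0 y) = P.gam t (P.lm w v) y := by
  rw [gp_xi, gp_lm ht]
  have h1 : P.D.yt (w * v.1)⁻¹ (0 : Fin r → ℤ) = 0 := P.D.yt_zero _
  rw [h1, qq_zero, inv_one, one_mul]
  have h2 : (∏ a ∈ P.Pos, (-1 : ℂ) ^ (dotProduct (0 : Fin r → ℤ) (P.D.rt (w * v.1) a))) = 1 :=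
    Finset.prod_eq_one fun a _ => by rw [zero_dotProduct, zpow_zero]
  rw [h2, one_mul]
  congr 1
  refine Finset.prod_congr rfl fun a _ => ?_
  rw [zero_dotProduct, Int.cast_zero, add_zero]

private theorem fac {η : ℂ} (hη : ∀ n : ℤ, η ≠ n) {p q : Prop} [Decidable p] [Decidable q] {m : ℤ}
    (h : (if p then 0 else 1 : ℤ) = (if q then 0 else 1) + m) :
    (-1 : ℂ) ^ m * (if q then 1 else -η) * Complex.Gamma (1 + (η + m)) =
      (if p then 1 else -(η + m)) * Complex.Gamma (1 + η) := by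
  have h0 : η ≠ 0 := by simpa using hη 0
  have h1 : 1 + η ≠ 0 := by
    intro h2
    apply hη (-1)
    push_cast
    linear_combination h2
  by_cases hp : p
  · by_cases hq : q
    · rw [if_pos hp, if_pos hq] at h
      have hm : m = 0 := by omega
      subst hm
      simp [hp, hq]
    · rw [if_pos hp, if_neg hq] at h
      have hm : m = -1 := by omega
      subst hm
      rw [if_pos hp, if_neg hq]
      have e1 : (1 : ℂ) + (η + ((-1 : ℤ) : ℂ)) = η := by push_cast; ring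
      have e2 : (1 : ℂ) + η = η + 1 := by ring
      rw [e1, e2, Complex.Gamma_add_one η h0]
      have e3 : ((-1 : ℂ) ^ (-1 : ℤ)) = -1 := by norm_num
      rw [e3]
      ring
  · by_cases hq : q
    · rw [if_neg hp, if_pos hq] at h
      have hm : m = 1 := by omega
      subst hm
      rw [if_neg hp, if_pos hq]
      have e1 : (1 : ℂ) + (η + ((1 : ℤ) : ℂ)) = (1 + η) + 1 := by push_cast; ring
      rw [e1, Complex.Gamma_add_one (1 + η) h1, zpow_one]
      push_cast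
      ring
    · rw [if_neg hp, if_neg hq] at h
      have hm : m = 0 := by omega
      subst hm
      simp [hp, hq]

theorem gam_M {t : Fin r → ℂ} (ht : P.Inv t) {x : P.D.W} {ν : Fin r → ℤ}
    (h : P.D.IsTau x ν) (v : P.X) {y : Fin r → ℂ} (hy : P.SG y) :
    qq t (P.D.yt (P.lm x v).1⁻¹ ν) * P.Rm y (P.lm x v) (P.lm x v) *
      P.gam t v (P.D.xi x ν y) = P.Rm (P.D.xi x ν y) v v * P.gam t (P.lm x v) y := by
  have hq : qq t (P.D.yt (P.lm x v).1⁻¹ ν) = qq t (P.D.yt (x * v.1)⁻¹ ν) := gp_qq ht _ ν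
  have hq0 := qq_ne_zero t (P.D.yt (x * v.1)⁻¹ ν)
  have h4 : (∏ a ∈ P.Pos, (-1 : ℂ) ^ (dotProduct ν (P.D.rt (x * v.1) a))) *
      (∏ a ∈ P.Pos, if P.D.rt (x * v.1) a ∈ P.D.Pos then 1 else -pr (P.D.rt (x * v.1) a) y) *
      (∏ a ∈ P.Pos, Complex.Gamma (1 + (pr (P.D.rt (x * v.1) a) y +
        ((dotProduct ν (P.D.rt (x * v.1) a) : ℤ) : ℂ)))) =
      (∏ a ∈ P.Pos, if P.D.rt v.1 a ∈ P.D.Pos then 1 else
        -(pr (P.D.rt (x * v.1) a) y + ((dotProduct ν (P.D.rt (x * v.1) a) : ℤ) : ℂ))) *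
      ∏ a ∈ P.Pos, Complex.Gamma (1 + pr (P.D.rt (x * v.1) a) y) := by
    rw [← Finset.prod_mul_distrib, ← Finset.prod_mul_distrib, ← Finset.prod_mul_distrib]
    refine Finset.prod_congr rfl fun a ha => ?_
    refine fac (fun n => hy.1 _ (P.D.rt_mem.2 (pos_mem ha)) n) ?_
    have h5 := h (P.D.rt (x * v.1) a) (P.D.rt_mem.2 (pos_mem ha))
    rw [P.D.rt_mul x v.1, P.D.rt_inv_rt] at h5
    rw [P.D.rt_mul x v.1]
    exact h5
  rw [hq, gp_diag_lm, gp_xi, gp_diag_xi, gp_lm ht]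
  linear_combination (Complex.exp (-P.D.hv t (x * v.1) y -
      Real.pi * Complex.I * pr (P.D.rt (x * v.1) P.tr) y) *
    (qq t (P.D.yt (x * v.1)⁻¹ ν) * (qq t (P.D.yt (x * v.1)⁻¹ ν))⁻¹)) * h4 +
    (Complex.exp (-P.D.hv t (x * v.1) y -
      Real.pi * Complex.I * pr (P.D.rt (x * v.1) P.tr) y) *
    ((∏ a ∈ P.Pos, if P.D.rt v.1 a ∈ P.D.Pos then 1 else
        -(pr (P.D.rt (x * v.1) a) y + ((dotProduct ν (P.D.rt (x * v.1) a) : ℤ) : ℂ))) *
      ∏ a ∈ P.Pos, Complex.Gamma (1 + pr (P.D.rt (x * v.1) a) y))) * mul_inv_cancel₀ hq0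

private theorem gp_step {b : Fin r → ℤ} (hb : P.D.IsMax b) {η : Fin r → ℤ} (hη : η ∈ P.D.Φ)
    (h1 : η ≠ b) (h2 : η ≠ -b) {y : Fin r → ℂ} (hy : P.SG y) :
    (-1 : ℂ) ^ (dotProduct (P.D.co b) η) * (if η ∈ P.D.Pos then 1 else -pr η y) *
        Complex.Gamma (1 + (pr η y + ((dotProduct (P.D.co b) η : ℤ) : ℂ))) =
      (if P.D.rt (P.D.refl b) η ∈ P.D.Pos then 1 else
        -(pr η y + ((dotProduct (P.D.co b) η : ℤ) : ℂ))) * Complex.Gamma (1 + pr η y) := by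
  obtain ⟨h3, h4⟩ := hb.le_one hη h1 h2
  have hr : P.D.rt (P.D.refl b) η = η - dotProduct (P.D.co b) η • b := rt_refl hb.mem η
  have hcs := P.D.co_self b hb.mem
  refine fac (fun n => hy.1 _ hη n) ?_
  rcases lt_trichotomy (dotProduct (P.D.co b) η) 0 with h5 | h5 | h5
  · have h6 : dotProduct (P.D.co b) η = -1 := by omega
    have h7 : -η ∈ P.D.Pos := by
      apply hb.pos_of_pos (neg_mem hη)
      rw [dotProduct_neg, h6]
      norm_num
    have h8 : η ∉ P.D.Pos := (not_pos_iff hη).2 h7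
    have h9 : P.D.rt (P.D.refl b) η ∈ P.D.Pos := by
      apply hb.pos_of_pos (P.D.rt_mem.2 hη)
      rw [hr, dotProduct_sub, dotProduct_smul, h6, hcs]
      norm_num
    rw [if_pos h9, if_neg h8, h6]
    norm_num
  · rw [h5] at hr ⊢
    rw [zero_smul, sub_zero] at hr
    rw [hr, add_zero]
  · have h6 : dotProduct (P.D.co b) η = 1 := by omega
    have h7 : η ∈ P.D.Pos := hb.pos_of_pos hη h5
    have h9 : -(P.D.rt (P.D.refl b) η) ∈ P.D.Pos := by
      apply hb.pos_of_pos (neg_mem (P.D.rt_mem.2 hη))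
      rw [hr, dotProduct_neg, dotProduct_sub, dotProduct_smul, h6, hcs]
      norm_num
    have h10 : P.D.rt (P.D.refl b) η ∉ P.D.Pos := (not_pos_iff (P.D.rt_mem.2 hη)).2 h9
    rw [if_neg h10, if_pos h7, h6]
    norm_num

/-- `(s_b v)⁻¹ b^∨ = -(v⁻¹ b)^∨` -/
private theorem gp_co {b : Fin r → ℤ} (hb : b ∈ P.D.Φ) (v : P.D.W) :
    P.D.yt (P.D.refl b * v)⁻¹ (P.D.co b) = -P.D.co (P.D.rt v⁻¹ b) := by
  rw [← co_rt_eq _ hb, mul_inv_rev, refl_inv hb, P.D.rt_mul, rt_refl_self hb, P.D.rt_neg,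
    co_neg (P.D.rt_mem.2 hb)]

private theorem gp_pr_neg (a : Fin r → ℤ) (y : Fin r → ℂ) : pr (-a) y = -pr a y := by
  unfold pr
  rw [← Finset.sum_neg_distrib]
  refine Finset.sum_congr rfl fun i _ => ?_
  rw [Pi.neg_apply]
  push_cast
  ring

theorem gam_θ {t : Fin r → ℂ} (ht : P.Inv t) {b : Fin r → ℤ} (hb : P.D.IsMax b) (v : P.X)
    (hv : P.D.rt v.1⁻¹ b ∈ P.Pos) {y : Fin r → ℂ} (hy : P.SG y) :
    (1 + pr b y) * qq t (-P.D.co (P.D.rt v.1⁻¹ b)) *
      P.Rm y (P.lm (P.D.refl b) v) (P.lm (P.D.refl b) v) *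
      P.gam t v (P.D.xi (P.D.refl b) (P.D.co b) y) =
    P.Rm (P.D.xi (P.D.refl b) (P.D.co b) y) v v * P.gam t (P.lm (P.D.refl b) v) y := by
  have hbm := hb.mem
  have hss := refl_mul_self hbm
  rw [gp_diag_lm, gp_xi, gp_diag_xi, gp_lm ht, gp_co hbm v.1]
  set u : P.D.W := P.D.refl b * v.1 with hu
  have hvu : ∀ a, P.D.rt v.1 a = P.D.rt (P.D.refl b) (P.D.rt u a) := by
    intro a
    rw [← P.D.rt_mul, hu, ← mul_assoc, hss, one_mul]
  set a0 := P.D.rt v.1⁻¹ b with ha0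
  have hua0 : P.D.rt u a0 = -b := by
    rw [hu, P.D.rt_mul, ha0, P.D.rt_rt_inv, rt_refl_self hbm]
  have hva0 : P.D.rt v.1 a0 = b := by rw [ha0, P.D.rt_rt_inv]
  have hq := qq_ne_zero t (-P.D.co a0)
  obtain ⟨F, hF⟩ : ∃ F : (Fin r → ℤ) → ℂ, F = fun a =>
      (-1 : ℂ) ^ (dotProduct (P.D.co b) (P.D.rt u a)) *
        (if P.D.rt u a ∈ P.D.Pos then 1 else -pr (P.D.rt u a) y) *
        Complex.Gamma (1 + (pr (P.D.rt u a) y +
          ((dotProduct (P.D.co b) (P.D.rt u a) : ℤ) : ℂ))) := ⟨_, rfl⟩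
  obtain ⟨G, hG⟩ : ∃ G : (Fin r → ℤ) → ℂ, G = fun a =>
      (if P.D.rt v.1 a ∈ P.D.Pos then 1 else
        -(pr (P.D.rt u a) y + ((dotProduct (P.D.co b) (P.D.rt u a) : ℤ) : ℂ))) *
        Complex.Gamma (1 + pr (P.D.rt u a) y) := ⟨_, rfl⟩
  have hmain : (1 + pr b y) * ∏ a ∈ P.Pos, F a = ∏ a ∈ P.Pos, G a := by
    have e1 : ∀ a ∈ P.Pos.erase a0, F a = G a := by
      intro a ha
      obtain ⟨ha1, ha2⟩ := Finset.mem_erase.1 ha
      have k1 : P.D.rt u a ≠ b := by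
        intro h
        have k : P.D.rt v.1 a = -b := by rw [hvu, h, rt_refl_self hbm]
        have k' : a = -a0 := by
          apply P.D.rt_inj v.1
          rw [k, P.D.rt_neg, hva0]
        rw [k'] at ha2
        exact neg_not_pos (mem_Pos.1 hv).1 (mem_Pos.1 ha2).1
      have k2 : P.D.rt u a ≠ -b := by
        intro h
        apply ha1
        apply P.D.rt_inj u
        rw [h, hua0]
      have k3 := gp_step hb (P.D.rt_mem.2 (pos_mem ha2) : P.D.rt u a ∈ P.D.Φ) k1 k2 hy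
      rw [hF, hG]
      simp only
      rw [hvu]
      exact k3
    have e2 : (1 + pr b y) * F a0 = G a0 := by
      rw [hF, hG]
      simp only [hua0, hva0]
      rw [if_neg (neg_not_pos hb.1), if_pos hb.1, gp_pr_neg, dotProduct_neg,
        P.D.co_self b hbm]
      have n1 : -pr b y ≠ 0 := by
        have := hy.1 b hbm 0
        rw [Int.cast_zero] at this
        exact neg_ne_zero.2 this
      have n2 : -pr b y - 1 ≠ 0 := by
        have := hy.1 b hbm (-1)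
        intro h
        apply this
        rw [Int.cast_neg, Int.cast_one]
        linear_combination -h
      have g1 := Complex.Gamma_add_one (-pr b y) n1
      have g2 := Complex.Gamma_add_one (-pr b y - 1) n2
      rw [sub_add_cancel] at g2
      rw [add_comm 1 (-pr b y), g1, g2]
      have n3 : (1 : ℂ) + (-pr b y + ((-2 : ℤ) : ℂ)) = -pr b y - 1 := by
        push_cast
        ring
      rw [n3]
      have n4 : (-1 : ℂ) ^ (-2 : ℤ) = 1 := by norm_num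
      rw [n4]
      ring
    rw [← Finset.mul_prod_erase P.Pos F hv, ← Finset.mul_prod_erase P.Pos G hv,
      Finset.prod_congr rfl e1, ← mul_assoc, e2]
  rw [hF, hG] at hmain
  simp only [Finset.prod_mul_distrib] at hmain
  linear_combination (qq t (-P.D.co a0) * (qq t (-P.D.co a0))⁻¹ *
      Complex.exp (-P.D.hv t u y - Real.pi * Complex.I * pr (P.D.rt u P.tr) y)) * hmain +
    (Complex.exp (-P.D.hv t u y - Real.pi * Complex.I * pr (P.D.rt u P.tr) y) *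
      (∏ a ∈ P.Pos, if P.D.rt v.1 a ∈ P.D.Pos then 1 else
        -(pr (P.D.rt u a) y + ((dotProduct (P.D.co b) (P.D.rt u a) : ℤ) : ℂ))) *
      ∏ a ∈ P.Pos, Complex.Gamma (1 + pr (P.D.rt u a) y)) * mul_inv_cancel₀ hq

theorem gam_levi {t : Fin r → ℂ} (ht : P.Inv t) {b : Fin r → ℤ} (hb : P.D.IsMax b) (v : P.X)
    (hv : P.Levi (P.D.rt v.1⁻¹ b)) {y : Fin r → ℂ} (hy : P.SG y) :
    P.Rm y v v * P.gam t v (P.D.xi (P.D.refl b) (P.D.co b) y) =
      P.Rm (P.D.xi (P.D.refl b) (P.D.co b) y) v v * P.gam t v y := by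
  have hbm := hb.mem
  have hss := refl_mul_self hbm
  have hlm : P.lm (P.D.refl b) v = v := by
    have h1 : P.D.refl b * v.1 = v.1 * P.D.refl (P.D.rt v.1⁻¹ b) := by
      have h2 := refl_rt v.1 hv.1
      rw [P.D.rt_rt_inv] at h2
      rw [h2]
      group
    show P.fl (P.D.refl b * v.1) = v
    rw [h1, fl_mul _ (refl_mem hv), fl_val]
  have hqq : qq t (P.D.yt (P.D.refl b * v.1)⁻¹ (P.D.co b)) = 1 := by
    rw [gp_co hbm v.1, qq_neg]
    have h1 : qq t (P.D.co (P.D.rt v.1⁻¹ b)) = 1 := by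
      have h2 : ∑ j, t j * (P.D.co (P.D.rt v.1⁻¹ b) j : ℂ) = 0 := (lab_ch ht).levi hv
      unfold qq
      rw [h2, Complex.exp_zero]
    rw [h1, inv_one]
  have hd := gp_diag_lm (P.D.refl b) v y
  have hg := gp_lm ht (P.D.refl b) v y
  rw [hlm] at hd hg
  rw [hd, hg, gp_xi, gp_diag_xi, hqq]
  set u : P.D.W := P.D.refl b * v.1 with hu
  have hvu : ∀ a, P.D.rt v.1 a = P.D.rt (P.D.refl b) (P.D.rt u a) := by
    intro a
    rw [← P.D.rt_mul, hu, ← mul_assoc, hss, one_mul]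
  have hmain : (∏ a ∈ P.Pos, (-1 : ℂ) ^ (dotProduct (P.D.co b) (P.D.rt u a))) *
      (∏ a ∈ P.Pos, if P.D.rt u a ∈ P.D.Pos then 1 else -pr (P.D.rt u a) y) *
      (∏ a ∈ P.Pos, Complex.Gamma (1 + (pr (P.D.rt u a) y +
        ((dotProduct (P.D.co b) (P.D.rt u a) : ℤ) : ℂ)))) =
      (∏ a ∈ P.Pos, if P.D.rt v.1 a ∈ P.D.Pos then 1 else
        -(pr (P.D.rt u a) y + ((dotProduct (P.D.co b) (P.D.rt u a) : ℤ) : ℂ))) *
      ∏ a ∈ P.Pos, Complex.Gamma (1 + pr (P.D.rt u a) y) := by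
    rw [← Finset.prod_mul_distrib, ← Finset.prod_mul_distrib, ← Finset.prod_mul_distrib]
    refine Finset.prod_congr rfl fun a ha => ?_
    have hnl := (mem_Pos.1 ha).2
    have k1 : P.D.rt u a ≠ b := by
      intro h
      apply hnl
      have k : P.D.rt v.1 a = -b := by rw [hvu, h, rt_refl_self hbm]
      have k' : a = -P.D.rt v.1⁻¹ b := by
        apply P.D.rt_inj v.1
        rw [k, P.D.rt_neg, P.D.rt_rt_inv]
      rw [k']
      exact ⟨neg_mem hv.1, fun i hi => by rw [Pi.neg_apply, hv.2 i hi, neg_zero]⟩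
    have k2 : P.D.rt u a ≠ -b := by
      intro h
      apply hnl
      have k : P.D.rt v.1 a = b := by rw [hvu, h, P.D.rt_neg, rt_refl_self hbm, neg_neg]
      have k' : a = P.D.rt v.1⁻¹ b := by
        apply P.D.rt_inj v.1
        rw [k, P.D.rt_rt_inv]
      rw [k']
      exact hv
    have k3 := gp_step hb (P.D.rt_mem.2 (pos_mem ha) : P.D.rt u a ∈ P.D.Φ) k1 k2 hy
    rw [hvu]
    exact k3
  linear_combination (Complex.exp (-P.D.hv t u y -
    Real.pi * Complex.I * pr (P.D.rt u P.tr) y)) * hmain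

end Pool.Agent.FLG.Par
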