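import Pool.Agent.FLG.P.ShiftF
import Pool.Agent.FLG.K.Ring
import Pool.Agent.DSTJ.SpecD

/-!
# FLG-P-Fro: the equation of `G/P` with its shift operators, Gamma classes and K-theory, as a `Fro`

`KD P t` collects what is needed from the `K`-theory of `G/P`: a basis `B i` (restrictions `B i p` to the fixed
points `p`), the classes `e^{t + πi c_1} Γ̂ Ch(B_i)` and the Euler form.
-/

set_option autoImplicit false

open scoped BigOperators Topology
open Filter
open Pool.Agent.DST.TE Pool.Agent.DSTJ Pool.Agent.DSTJ.Spec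

namespace Pool.Agent.FLG.Par

open RS

variable {r : ℕ} {P : Par r} {N : ℕ}

/-- the input from `K`-theory -/
structure KD (P : Par r) (t : Fin r → ℂ) where
  /-- `B i p` is the restriction of the class `i` to the fixed point `p` -/
  B : P.X → P.X → RH r
  /-- the classes `e^{t + πi c_1} Γ̂ Ch(B_i)` -/
  G : (Fin r → ℂ) → Matrix P.X P.X ℂ
  /-- the Euler form -/
  χ : P.X → P.X → RH r
  G_diff : ∀ {y : Fin r → ℂ}, (∀ a ∈ P.D.Φ, ∀ m : ℤ, m ≠ 0 → pr a y ≠ m) → ∀ u i,
    DifferentiableAt ℂ (fun y => G y u i) y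
  G_res : ∀ {y : Fin r → ℂ}, (∀ a ∈ P.D.Φ, pr a y ≠ 0) →
    P.Rm y * G y = Matrix.diagonal (fun p => P.gam t p y) * Matrix.of fun p i => evK y (B i p)
  B_supp : ∀ i p, B i p ≠ 0 → P.D.Bru i.1 p.1
  B_diag : ∀ p, B p p = ∏ b ∈ P.D.Inv p.1, (1 - chr b)
  χ_unit : IsUnit (Matrix.of χ).det
  χ_loc : ∀ i j (y : Fin r → ℂ), (∀ a ∈ P.D.Φ, ∀ m : ℤ, pr a y ≠ m) → evK y (χ i j) =
    ∑ p : P.X, evK y (sK (B i p) * B j p) /
      ∏ a ∈ P.Pos, (1 - Complex.exp (2 * Real.pi * Complex.I * pr (P.D.rt p.1 a) y))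

theorem KD.tri {t : Fin r → ℂ} (K : P.KD t) (n : P.Num N) {i p : Fin N} (h : p < i) :
    K.B (n.e i) (n.e p) = 0 := by
  by_contra hne
  have h1 := K.B_supp _ _ hne
  have h2 : n.e i ≠ n.e p := fun h' => h.ne (n.e.injective h').symm
  have h3 := bru_strict h1 h2 n.ξ_pos
  have h4 := n.mono h
  simp only at h4
  omega

variable (n : P.Num N) {t : Fin r → ℂ} (ht : P.Inv t) (K : P.KD t)

theorem gam_diff (t : Fin r → ℂ) (v : P.X) {y : Fin r → ℂ}
    (hy : ∀ a ∈ P.D.Φ, ∀ m : ℤ, pr a y ≠ m) : DifferentiableAt ℂ (P.gam t v) y := by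
  have hprod : ∀ (s : Finset (Fin r → ℤ)), s ⊆ P.Pos → DifferentiableAt ℂ
      (fun y : Fin r → ℂ => ∏ a ∈ s, Complex.Gamma (1 + pr (P.D.rt v.1 a) y)) y := by
    intro s
    induction s using Finset.cons_induction with
    | empty => simp
    | cons a s ha ih =>
      intro hs
      simp only [Finset.prod_cons]
      refine DifferentiableAt.mul ?_ (ih fun b hb => hs (Finset.mem_cons_of_mem hb))
      have h0 : Differentiable ℂ fun y : Fin r → ℂ => 1 + pr (P.D.rt v.1 a) y := by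
        unfold pr
        fun_prop
      have h3 : ∀ m : ℕ, 1 + pr (P.D.rt v.1 a) y ≠ -m := by
        intro m hm
        apply hy (P.D.rt v.1 a) (P.D.rt_mem.2 (pos_mem (hs (Finset.mem_cons_self a s))))
          (-(m + 1 : ℤ))
        push_cast
        linear_combination hm
      exact (Complex.differentiableAt_Gamma _ h3).comp y (h0 y)
  unfold gam
  refine DifferentiableAt.mul ?_ (hprod _ (Finset.Subset.refl _))
  refine DifferentiableAt.cexp ?_
  unfold hv yt pr
  fun_prop

private theorem evK_sub_cc (μ : Fin r → ℤ) (y : Fin r → ℂ) (f : RH r) :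
    evK (y - cc μ) f = evK y f := by
  rw [← evK_add_int μ y (-1) f]
  congr 2
  funext i
  simp only [Pi.sub_apply, cc]
  push_cast
  ring

private theorem gam_ne' {y : Fin r → ℂ} (hy : ∀ a ∈ P.D.Φ, ∀ m : ℤ, pr a y ≠ m) (p : P.X) :
    P.gam t p y ≠ 0 := by
  unfold gam
  refine mul_ne_zero (Complex.exp_ne_zero _) ?_
  refine Finset.prod_ne_zero_iff.2 fun a ha => Complex.Gamma_ne_zero fun k hk => ?_
  apply hy (P.D.rt p.1 a) (P.D.rt_mem.2 (pos_mem ha)) (-(k + 1 : ℤ))
  push_cast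
  linear_combination hk

private theorem B_det' {y : Fin r → ℂ} (hy : ∀ a ∈ P.D.Φ, ∀ m : ℤ, pr a y ≠ m) :
    (Matrix.of fun p i => evK y (K.B (n.e i) (n.e p)) : Matrix (Fin N) (Fin N) ℂ).det ≠ 0 := by
  rw [Matrix.det_of_isLowerTriangular]
  · refine Finset.prod_ne_zero_iff.2 fun p _ => ?_
    rw [Matrix.of_apply, K.B_diag, map_prod]
    refine Finset.prod_ne_zero_iff.2 fun b hb => ?_
    rw [map_sub, map_one, evK_chr]
    intro h
    have hb' : b ∈ P.D.Φ := mem_of_pos (Finset.mem_filter.1 hb).1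
    obtain ⟨k, hk⟩ := Complex.exp_eq_one_iff.1 (sub_eq_zero.1 h).symm
    apply hy b hb' k
    have h2πI : (2 * Real.pi * Complex.I : ℂ) ≠ 0 := Complex.two_pi_I_ne_zero
    have h3 : (2 * Real.pi * Complex.I : ℂ) * pr b y = (2 * Real.pi * Complex.I : ℂ) * k := by
      rw [hk]
      ring
    exact mul_left_cancel₀ h2πI h3
  · intro i j hij
    rw [Matrix.of_apply, K.tri n (show i < j from hij), map_zero]

private theorem res_G {y : Fin r → ℂ} (hy : ∀ a ∈ P.D.Φ, pr a y ≠ 0) :
    (P.Rm y).submatrix n.e n.e * (K.G y).submatrix n.e n.e =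
      Matrix.diagonal (fun p => P.gam t (n.e p) y) *
        Matrix.of fun p i => evK y (K.B (n.e i) (n.e p)) := by
  rw [Matrix.submatrix_mul_equiv, K.G_res hy]
  ext p i
  rw [Matrix.submatrix_apply, Matrix.diagonal_mul, Matrix.diagonal_mul]
  rfl

private theorem w1_ne {y : Fin r → ℂ} (hy : (toBase n t).W1 y) : ∀ a ∈ P.D.Φ, pr a y ≠ 0 :=
  fun a ha h => hy ⟨a, ha⟩ 0 (h.trans Int.cast_zero.symm)

/-- The equation with its shift operators, `Γ`-classes and the basis of `K`-theory. -/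
noncomputable def toFro : Fro r N where
  toBase := toBase n t
  G := fun y => (K.G y).submatrix n.e n.e
  G_hol := fun y hy i j => K.G_diff (fun a ha m hm => hy ⟨a, ha⟩ m hm) _ _
  g := fun p y => P.gam t (n.e p) y
  g_hol := fun y hy p => gam_diff t (n.e p) fun a ha m => hy ⟨a, ha⟩ m
  g_ne := fun y hy p => gam_ne' (fun a ha m => hy ⟨a, ha⟩ m) _
  B := fun y => Matrix.of fun p i => evK y (K.B (n.e i) (n.e p))
  B_per := fun y _ j => by
    ext p i
    exact evK_add_int n.ξ y j _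
  B_det := fun y hy => B_det' n K (fun a ha m => hy ⟨a, ha⟩ m)
  RG := fun y hy => res_G n K (w1_ne n hy)
  S := fun μ y w => (exists_shift n ht μ).choose (fun i => y i * Complex.exp w) (Complex.exp w)
  S_hol := fun μ p q => by
    have h1 := ((exists_shift n ht μ).choose_spec.1 p q).differentiable one_ne_zero
    have h2 : Differentiable ℂ fun x : (Fin r → ℂ) × ℂ =>
        ((fun i => x.1 i * Complex.exp x.2 : Fin r → ℂ), Complex.exp x.2) := by fun_prop
    exact h1.comp h2
  S_det := fun μ y w => (exists_shift n ht μ).choose_spec.2.1 _ _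
  shift := fun μ y h1 h2 h3 w => by
    refine (exists_shift n ht μ).choose_spec.2.2 _ (fun y => Matrix.of fun p i =>
      evK y (K.B (n.e i) (n.e p))) ?_ ?_ ?_ y h1 h2 h3 w
    · intro y hy i j
      exact K.G_diff (fun a ha m hm => hy ⟨a, ha⟩ m hm) _ _
    · intro y _
      ext p i
      exact evK_sub_cc μ y _
    · intro y hy
      exact res_G n K (w1_ne n hy)

end Pool.Agent.FLG.Par
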