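import Pool.Agent.FLG.P.Defs

/-!
# FLG-P-Cos: cosets of the Levi Weyl group

Everything is reduced to the generators `s j`, `j ∈ J`, of the Levi Weyl group.
-/

set_option autoImplicit false

open scoped BigOperators
open Pool.Agent.DST.TE

namespace Pool.Agent.FLG.Par

open RS

variable {r : ℕ} {P : Par r}

/-! ### auxiliary facts on the generators -/

private theorem levi_neg {a : Fin r → ℤ} (ha : P.Levi a) : P.Levi (-a) :=
  ⟨RS.neg_mem ha.1, fun i hi => by rw [Pi.neg_apply, ha.2 i hi, neg_zero]⟩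

private theorem al_apply_ne {i j : Fin r} (h : i ≠ j) : al j i = 0 := Pi.single_eq_of_ne h _

private theorem al_apply_same (j : Fin r) : al j j = 1 := Pi.single_eq_same _ _

private theorem al_levi {j : Fin r} (hj : j ∈ P.J) : P.Levi (al j) := by
  refine ⟨P.D.al_mem j, fun i hi => al_apply_ne ?_⟩
  rintro rfl
  exact hi hj

private theorem s_mem {j : Fin r} (hj : j ∈ P.J) : P.D.s j ∈ P.WJ :=
  Subgroup.subset_closure ⟨j, hj, rfl⟩

private theorem s_mul_s (j : Fin r) : P.D.s j * P.D.s j = 1 := refl_mul_self (P.D.al_mem j)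

private theorem rt_s (j : Fin r) (a : Fin r → ℤ) :
    P.D.rt (P.D.s j) a = a - dotProduct (P.D.co (al j)) a • al j := rt_refl (P.D.al_mem j) a

private theorem rt_s_rt_s (j : Fin r) (a : Fin r → ℤ) : P.D.rt (P.D.s j) (P.D.rt (P.D.s j) a) = a := by
  rw [← P.D.rt_mul, s_mul_s, P.D.rt_one]

private theorem rt_s_apply {i j : Fin r} (h : i ≠ j) (a : Fin r → ℤ) : P.D.rt (P.D.s j) a i = a i := by
  rw [rt_s, Pi.sub_apply, Pi.smul_apply, al_apply_ne h, smul_zero, sub_zero]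

private theorem s_levi {j : Fin r} (hj : j ∈ P.J) {a : Fin r → ℤ} (ha : P.Levi a) :
    P.Levi (P.D.rt (P.D.s j) a) := by
  refine ⟨P.D.rt_mem.2 ha.1, fun i hi => ?_⟩
  have h1 : i ≠ j := by
    rintro rfl
    exact hi hj
  rw [rt_s_apply h1, ha.2 i hi]

private theorem pos_of_coord {b : Fin r → ℤ} (hb : b ∈ P.D.Φ) {i : Fin r} (hi : 0 < b i) : b ∈ P.D.Pos := by
  refine RS.mem_Pos.2 ⟨hb, ?_⟩
  rcases P.D.sign b hb with h | h
  · exact h
  · exact absurd (h i) (not_le.2 hi)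

private theorem refl_aux (n : ℕ) : ∀ a : Fin r → ℤ, a ∈ P.D.Pos → P.Levi a → (∑ i, a i).toNat = n →
    P.D.refl a ∈ P.WJ := by
  induction n using Nat.strong_induction_on with
  | _ n ih =>
    intro a hap ha hn
    obtain ⟨haΦ, ha0⟩ := RS.mem_Pos.1 hap
    obtain ⟨j, hj1, hj2⟩ : ∃ j, 0 < a j ∧ 0 < P.D.co a j := by
      by_contra hcon
      push Not at hcon
      have h1 : dotProduct (P.D.co a) a ≤ 0 := by
        refine Finset.sum_nonpos fun i _ => ?_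
        rcases (ha0 i).eq_or_lt with h2 | h2
        · rw [← h2, mul_zero]
        · exact mul_nonpos_of_nonpos_of_nonneg (hcon i h2) h2.le
      rw [P.D.co_self a haΦ] at h1
      exact absurd h1 (by norm_num)
    have hjJ : j ∈ P.J := by
      by_contra h1
      rw [ha.2 j h1] at hj1
      exact lt_irrefl _ hj1
    by_cases haj : a = al j
    · rw [haj]
      exact s_mem hjJ
    have hajn : a ≠ -al j := by
      intro h1
      rw [h1, Pi.neg_apply, al_apply_same] at hj1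
      exact absurd hj1 (by norm_num)
    have hm : 1 ≤ dotProduct (P.D.co (al j)) a := by
      rcases P.D.rank2 a haΦ (al j) (P.D.al_mem j) haj hajn with h1 | h1 | h1
      · rw [dot_al] at h1
        rw [h1.1] at hj2
        exact absurd hj2 (lt_irrefl _)
      · exact h1.2.1
      · rw [dot_al] at h1
        have := h1.1
        omega
    have hbΦ : P.D.rt (P.D.s j) a ∈ P.D.Φ := P.D.rt_mem.2 haΦ
    obtain ⟨i, hij, hi⟩ : ∃ i, i ≠ j ∧ 0 < a i := by
      by_contra hcon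
      push Not at hcon
      have h1 : (1 : ℤ) • a = a j • al j := by
        funext i
        rw [one_smul, Pi.smul_apply, smul_eq_mul]
        by_cases h2 : i = j
        · subst h2
          rw [al_apply_same, mul_one]
        · rw [al_apply_ne h2, mul_zero]
          exact le_antisymm (hcon i h2) (ha0 i)
      rcases P.D.reduced a haΦ (al j) (P.D.al_mem j) 1 (a j) one_ne_zero h1 with h2 | h2
      · exact haj h2
      · exact hajn h2
    have hbp : P.D.rt (P.D.s j) a ∈ P.D.Pos := by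
      refine pos_of_coord hbΦ (i := i) ?_
      rw [rt_s_apply hij]
      exact hi
    have hsum : ∑ i, P.D.rt (P.D.s j) a i = ∑ i, a i - dotProduct (P.D.co (al j)) a := by
      rw [rt_s]
      simp only [Pi.sub_apply, Pi.smul_apply, smul_eq_mul]
      rw [Finset.sum_sub_distrib, ← Finset.mul_sum]
      have h1 : ∑ i, al j i = 1 := by
        rw [Finset.sum_eq_single j (fun i _ h2 => al_apply_ne h2) (fun h2 => absurd (Finset.mem_univ j) h2),
          al_apply_same]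
      rw [h1, mul_one]
    have hb0 : 0 ≤ ∑ i, P.D.rt (P.D.s j) a i := Finset.sum_nonneg fun i _ => (RS.mem_Pos.1 hbp).2 i
    have h2 := ih (∑ i, P.D.rt (P.D.s j) a i).toNat (by omega) _ hbp (s_levi hjJ ha) rfl
    rw [refl_rt (P.D.s j) haΦ] at h2
    have h3 : P.D.refl a = (P.D.s j)⁻¹ * (P.D.s j * P.D.refl a * (P.D.s j)⁻¹) * P.D.s j := by group
    rw [h3]
    exact P.WJ.mul_mem (P.WJ.mul_mem (P.WJ.inv_mem (s_mem hjJ)) h2) (s_mem hjJ)

theorem refl_mem {a : Fin r → ℤ} (ha : P.Levi a) : P.D.refl a ∈ P.WJ := by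
  by_cases h : a ∈ P.D.Pos
  · exact refl_aux _ a h ha rfl
  · rw [← refl_neg ha.1]
    exact refl_aux _ (-a) ((not_pos_iff ha.1).1 h) (levi_neg ha) rfl

/-- induction on the elements of the Levi Weyl group, for an invariant relation -/
private theorem wj_ind {α : Type*} (f : P.D.W → α → α) (h1 : ∀ a, f 1 a = a)
    (hm : ∀ u w a, f (u * w) a = f u (f w a)) (p : α → Prop) (hs : ∀ j ∈ P.J, ∀ a, p a → p (f (P.D.s j) a))
    {v : P.D.W} (hv : v ∈ P.WJ) : ∀ a, p a ↔ p (f v a) := by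
  induction hv using Subgroup.closure_induction with
  | mem x hx =>
    obtain ⟨j, hj, rfl⟩ := hx
    intro a
    refine ⟨hs j hj a, fun h => ?_⟩
    have h2 := hs j hj _ h
    rw [← hm, s_mul_s, h1] at h2
    exact h2
  | one =>
    intro a
    rw [h1]
  | mul x y _ _ hx hy =>
    intro a
    rw [hm]
    exact (hy a).trans (hx _)
  | inv x _ hx =>
    intro a
    rw [hx (f x⁻¹ a), ← hm, mul_inv_cancel, h1]

theorem wj_levi {v : P.D.W} (hv : v ∈ P.WJ) {a : Fin r → ℤ} (ha : P.Levi a) :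
    P.Levi (P.D.rt v a) :=
  (wj_ind P.D.rt P.D.rt_one P.D.rt_mul P.Levi (fun _ hj _ h => s_levi hj h) hv a).1 ha

private theorem s_pos {j : Fin r} (hj : j ∈ P.J) {a : Fin r → ℤ} (ha : a ∈ P.Pos) :
    P.D.rt (P.D.s j) a ∈ P.Pos := by
  obtain ⟨h1, i, hi, hai⟩ := Finset.mem_filter.1 ha
  obtain ⟨h2, h3⟩ := RS.mem_Pos.1 h1
  have hij : i ≠ j := by
    rintro rfl
    exact hi hj
  have h4 : 0 < a i := lt_of_le_of_ne (h3 i) hai.symm
  refine Finset.mem_filter.2 ⟨pos_of_coord (P.D.rt_mem.2 h2) (i := i) ?_, i, hi, ?_⟩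
  · rw [rt_s_apply hij]
    exact h4
  · rw [rt_s_apply hij]
    exact hai

theorem wj_pos {v : P.D.W} (hv : v ∈ P.WJ) {a : Fin r → ℤ} (ha : a ∈ P.Pos) :
    P.D.rt v a ∈ P.Pos :=
  (wj_ind P.D.rt P.D.rt_one P.D.rt_mul (fun a => a ∈ P.Pos) (fun _ hj _ h => s_pos hj h) hv a).1 ha

theorem mem_Pos {a : Fin r → ℤ} : a ∈ P.Pos ↔ a ∈ P.D.Pos ∧ ¬ P.Levi a := by
  unfold Pos
  rw [Finset.mem_filter]
  refine and_congr_right fun h => ⟨?_, fun h1 => ?_⟩
  · rintro ⟨i, hi, hai⟩ h1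
    exact hai (h1.2 i hi)
  · by_contra h2
    push Not at h2
    exact h1 ⟨mem_of_pos h, h2⟩

/-- every root is in the Levi, positive or negative outside -/
theorem cases {a : Fin r → ℤ} (ha : a ∈ P.D.Φ) : P.Levi a ∨ a ∈ P.Pos ∨ -a ∈ P.Pos := by
  by_cases h : P.Levi a
  · exact Or.inl h
  · rcases pos_or_neg ha with h1 | h1
    · exact Or.inr (Or.inl (mem_Pos.2 ⟨h1, h⟩))
    · refine Or.inr (Or.inr (mem_Pos.2 ⟨h1, fun h2 => h ?_⟩))
      have h3 := levi_neg h2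
      rwa [neg_neg] at h3

theorem pos_mem {a : Fin r → ℤ} (ha : a ∈ P.Pos) : a ∈ P.D.Φ :=
  mem_of_pos (mem_Pos.1 ha).1

private theorem x_levi_aux (p : P.X) {a : Fin r → ℤ} (ha : P.Levi a) (h : a ∈ P.D.Pos) :
    P.D.rt p.1 a ∈ P.D.Pos := by
  refine RS.mem_Pos.2 ⟨P.D.rt_mem.2 ha.1, fun i => ?_⟩
  have h1 : P.D.rt p.1 a = ∑ j, a j • P.D.rt p.1 (al j) := by
    conv_lhs => rw [eq_sum_al a]
    rw [P.D.rt_sum]
    exact Finset.sum_congr rfl fun j _ => P.D.rt_smul _ _ _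
  rw [h1, Finset.sum_apply]
  refine Finset.sum_nonneg fun j _ => ?_
  rw [Pi.smul_apply, smul_eq_mul]
  by_cases hj : j ∈ P.J
  · exact mul_nonneg ((RS.mem_Pos.1 h).2 j) ((RS.mem_Pos.1 (p.2 j hj)).2 i)
  · rw [ha.2 j hj, zero_mul]

/-- minimal representatives preserve the sign of Levi roots -/
theorem x_levi (p : P.X) {a : Fin r → ℤ} (ha : P.Levi a) :
    P.D.rt p.1 a ∈ P.D.Pos ↔ a ∈ P.D.Pos := by
  refine ⟨fun h => ?_, x_levi_aux p ha⟩
  by_contra h1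
  have h2 := x_levi_aux p (levi_neg ha) ((not_pos_iff ha.1).1 h1)
  rw [P.D.rt_neg] at h2
  exact neg_not_pos h h2

private theorem exists_fl_aux (n : ℕ) : ∀ w : P.D.W, P.D.len w = n → ∃ p : P.X, p.1⁻¹ * w ∈ P.WJ := by
  induction n using Nat.strong_induction_on with
  | _ n ih =>
    intro w hw
    by_cases h : ∀ j ∈ P.J, P.D.rt w (al j) ∈ P.D.Pos
    · refine ⟨⟨w, h⟩, ?_⟩
      show w⁻¹ * w ∈ P.WJ
      rw [inv_mul_cancel]
      exact P.WJ.one_mem
    · push Not at h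
      obtain ⟨j, hj, h1⟩ := h
      have h2 := len_mul_s_of_neg j w h1
      obtain ⟨p, hp⟩ := ih _ (by omega) (w * P.D.s j) rfl
      refine ⟨p, ?_⟩
      have h3 : p.1⁻¹ * w = p.1⁻¹ * (w * P.D.s j) * P.D.s j := by
        rw [mul_assoc, mul_assoc, s_mul_s, mul_one]
      rw [h3]
      exact P.WJ.mul_mem hp (s_mem hj)

theorem exists_fl (w : P.D.W) : ∃ p : P.X, p.1⁻¹ * w ∈ P.WJ := exists_fl_aux _ w rfl

private theorem fl_mem (w : P.D.W) : (P.fl w).1⁻¹ * w ∈ P.WJ := by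
  unfold fl
  rw [dif_pos (exists_fl w)]
  exact (exists_fl w).choose_spec

theorem fl_spec (w : P.D.W) : ∃ v ∈ P.WJ, w = (P.fl w).1 * v :=
  ⟨_, fl_mem w, by rw [mul_inv_cancel_left]⟩

theorem unique {p q : P.X} (h : p.1⁻¹ * q.1 ∈ P.WJ) : p = q := by
  have h1 : p.1⁻¹ * q.1 = 1 := by
    refine eq_one_of_len ?_
    unfold RS.len
    rw [Finset.card_eq_zero, Finset.filter_eq_empty_iff]
    intro a ha hn
    apply hn
    by_cases hl : P.Levi a
    · have h2 := (x_levi q hl).2 ha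
      have h3 : P.D.rt q.1 a = P.D.rt p.1 (P.D.rt (p.1⁻¹ * q.1) a) := by
        rw [← P.D.rt_mul, mul_inv_cancel_left]
      rw [h3] at h2
      exact (x_levi p (wj_levi h hl)).1 h2
    · exact (mem_Pos.1 (wj_pos h (mem_Pos.2 ⟨ha, hl⟩))).1
  exact Subtype.ext (inv_mul_eq_one.1 h1)

theorem fl_val (p : P.X) : P.fl p.1 = p := unique (fl_mem p.1)

theorem fl_eq_iff (u w : P.D.W) : P.fl u = P.fl w ↔ u⁻¹ * w ∈ P.WJ := by
  constructor
  · intro h
    have h1 : u⁻¹ * w = ((P.fl u).1⁻¹ * u)⁻¹ * ((P.fl w).1⁻¹ * w) := by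
      rw [h]
      group
    rw [h1]
    exact P.WJ.mul_mem (P.WJ.inv_mem (fl_mem u)) (fl_mem w)
  · intro h
    refine unique ?_
    have h1 : (P.fl u).1⁻¹ * (P.fl w).1 = ((P.fl u).1⁻¹ * u) * (u⁻¹ * w) * ((P.fl w).1⁻¹ * w)⁻¹ := by
      group
    rw [h1]
    exact P.WJ.mul_mem (P.WJ.mul_mem (fl_mem u) h) (P.WJ.inv_mem (fl_mem w))

theorem fl_mul (w : P.D.W) {v : P.D.W} (hv : v ∈ P.WJ) : P.fl (w * v) = P.fl w := by
  rw [fl_eq_iff]
  have h1 : (w * v)⁻¹ * w = v⁻¹ := by group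
  rw [h1]
  exact P.WJ.inv_mem hv

theorem lm_one (p : P.X) : P.lm 1 p = p := by
  unfold lm
  rw [one_mul, fl_val]

theorem lm_fl (u w : P.D.W) : P.lm u (P.fl w) = P.fl (u * w) := by
  unfold lm
  rw [fl_eq_iff]
  have h1 : (u * (P.fl w).1)⁻¹ * (u * w) = (P.fl w).1⁻¹ * w := by group
  rw [h1]
  exact fl_mem w

theorem lm_mul (u w : P.D.W) (p : P.X) : P.lm (u * w) p = P.lm u (P.lm w p) := by
  show P.fl (u * w * p.1) = P.lm u (P.fl (w * p.1))
  rw [lm_fl, mul_assoc]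

theorem lm_inv_lm (w : P.D.W) (p : P.X) : P.lm w⁻¹ (P.lm w p) = p := by
  rw [← lm_mul, inv_mul_cancel, lm_one]

theorem lm_lm_inv (w : P.D.W) (p : P.X) : P.lm w (P.lm w⁻¹ p) = p := by
  rw [← lm_mul, mul_inv_cancel, lm_one]

private theorem len_mul_le (w : P.D.W) {v : P.D.W} (hv : v ∈ P.WJ) : P.len (w * v) ≤ P.len w := by
  unfold len
  refine Finset.card_le_card_of_injOn (P.D.rt v) ?_ (P.D.rt_inj v).injOn
  intro a ha
  rw [Finset.mem_coe, Finset.mem_filter] at ha ⊢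
  refine ⟨wj_pos hv ha.1, ?_⟩
  rw [← P.D.rt_mul]
  exact ha.2

theorem len_inv (w : P.D.W) {v : P.D.W} (hv : v ∈ P.WJ) : P.len (w * v) = P.len w := by
  refine le_antisymm (len_mul_le w hv) ?_
  have h1 := len_mul_le (w * v) (P.WJ.inv_mem hv)
  rwa [mul_inv_cancel_right] at h1

theorem len_fl (w : P.D.W) : P.len (P.fl w).1 = P.len w := by
  obtain ⟨v, hv, h⟩ := fl_spec w
  conv_rhs => rw [h]
  rw [len_inv _ hv]

theorem len_lm (w : P.D.W) (p : P.X) : P.len (P.lm w p).1 = P.len (w * p.1) := len_fl _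

theorem len_val (p : P.X) : P.len p.1 = P.D.len p.1 := by
  unfold len RS.len
  congr 1
  ext a
  rw [Finset.mem_filter, Finset.mem_filter]
  refine ⟨fun h => ⟨(mem_Pos.1 h.1).1, h.2⟩, fun h => ⟨mem_Pos.2 ⟨h.1, fun h1 => h.2 ?_⟩, h.2⟩⟩
  exact (x_levi p h1).2 h.1

private theorem filt_sub (w : P.D.W) : (P.Pos.filter fun a => P.D.rt w a ∉ P.D.Pos) ⊆
    P.D.Pos.filter fun a => P.D.rt w a ∉ P.D.Pos :=
  Finset.filter_subset_filter _ (Finset.filter_subset _ _)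

theorem len_le (w : P.D.W) : P.len w ≤ P.D.len w := Finset.card_le_card (filt_sub w)

/-- `w` is a minimal representative iff the two lengths agree -/
theorem mem_iff_len (w : P.D.W) :
    (∀ j ∈ P.J, P.D.rt w (al j) ∈ P.D.Pos) ↔ P.len w = P.D.len w := by
  constructor
  · intro h
    exact len_val ⟨w, h⟩
  · intro h j hj
    by_contra h1
    have h2 := Finset.eq_of_subset_of_card_le (filt_sub w) h.ge
    have h3 : al j ∈ P.D.Pos.filter fun a => P.D.rt w a ∉ P.D.Pos :=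
      Finset.mem_filter.2 ⟨al_pos P.D j, h1⟩
    rw [← h2, Finset.mem_filter] at h3
    exact (mem_Pos.1 h3.1).2 (al_levi hj)

private theorem sum_Pos_aux {M : Type*} [AddCommMonoid M] {v : P.D.W} (hv : v ∈ P.WJ)
    (f : (Fin r → ℤ) → M) : ∑ a ∈ P.Pos, f (P.D.rt v a) = ∑ a ∈ P.Pos, f a := by
  refine Finset.sum_nbij' (P.D.rt v) (P.D.rt v⁻¹) (fun a ha => wj_pos hv ha)
    (fun a ha => wj_pos (P.WJ.inv_mem hv) ha) (fun a _ => P.D.rt_inv_rt v a)
    (fun a _ => P.D.rt_rt_inv v a) (fun a _ => rfl)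

theorem tr_inv {v : P.D.W} (hv : v ∈ P.WJ) : P.D.rt v P.tr = P.tr := by
  unfold tr
  rw [P.D.rt_sum]
  exact sum_Pos_aux hv fun a => a

theorem rt_fl_tr (w : P.D.W) : P.D.rt (P.fl w).1 P.tr = P.D.rt w P.tr := by
  obtain ⟨v, hv, h⟩ := fl_spec w
  conv_rhs => rw [h, P.D.rt_mul, tr_inv hv]

theorem rt_lm_tr (w : P.D.W) (p : P.X) : P.D.rt (P.lm w p).1 P.tr = P.D.rt (w * p.1) P.tr :=
  rt_fl_tr _

theorem L_inv {v : P.D.W} (hv : v ∈ P.WJ) {a : Fin r → ℤ} (ha : a ∈ P.D.Φ) :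
    P.L (P.D.rt v a) = P.L a := by
  unfold L
  rw [co_rt v ha, tr_inv (P.WJ.inv_mem hv)]

theorem L_levi {a : Fin r → ℤ} (ha : P.Levi a) : P.L a = 0 := by
  have h1 := L_inv (refl_mem ha) ha.1
  rw [rt_refl_self ha.1] at h1
  have h2 : P.L (-a) = -P.L a := by
    unfold L
    rw [co_neg ha.1, neg_dotProduct]
  omega

theorem Lab.levi {c : (Fin r → ℤ) → ℂ} (h : P.Lab c) {a : Fin r → ℤ} (ha : P.Levi a) :
    c a = 0 := by
  have h1 := h.inv _ (refl_mem ha) a ha.1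
  rw [rt_refl_self ha.1, h.odd a ha.1] at h1
  have h2 : (2 : ℂ) * c a = 0 := by linear_combination (-1 : ℂ) * h1
  exact (mul_eq_zero.1 h2).resolve_left two_ne_zero

private theorem ch_s {h : Fin r → ℂ} (hh : P.Inv h) {j : Fin r} (hj : j ∈ P.J) {a : Fin r → ℤ}
    (ha : a ∈ P.D.Φ) : P.D.ch h (P.D.rt (P.D.s j) a) = P.D.ch h a := by
  have hinv : (P.D.s j)⁻¹ = P.D.s j := refl_inv (P.D.al_mem j)
  have h1 : ∀ i, P.D.co (P.D.rt (P.D.s j) a) i = P.D.co a i - P.D.co (al j) i * P.D.co a j := by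
    intro i
    rw [← dot_al (P.D.co (P.D.rt (P.D.s j) a)) i, co_rt (P.D.s j) ha, hinv, rt_s, dotProduct_sub,
      dotProduct_smul, dot_al, dot_al, dot_al, smul_eq_mul]
  have h2 : P.D.ch h (al j) = 0 := hh j hj
  have h3 : P.D.ch h (P.D.rt (P.D.s j) a) = P.D.ch h a - P.D.ch h (al j) * (P.D.co a j : ℂ) := by
    unfold RS.ch
    rw [Finset.sum_mul, ← Finset.sum_sub_distrib]
    refine Finset.sum_congr rfl fun i _ => ?_
    rw [h1]
    push_cast
    ring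
  rw [h3, h2, zero_mul, sub_zero]

theorem lab_ch {h : Fin r → ℂ} (hh : P.Inv h) : P.Lab (P.D.ch h) := by
  refine ⟨fun a ha => ?_, fun v hv a ha => ?_⟩
  · unfold RS.ch
    rw [co_neg ha, ← Finset.sum_neg_distrib]
    refine Finset.sum_congr rfl fun i _ => ?_
    rw [Pi.neg_apply]
    push_cast
    ring
  · have h1 := (wj_ind P.D.rt P.D.rt_one P.D.rt_mul
      (fun b => b ∈ P.D.Φ ∧ P.D.ch h b = P.D.ch h a)
      (fun j hj b hb => ⟨P.D.rt_mem.2 hb.1, (ch_s hh hj hb.1).trans hb.2⟩) hv a).1 ⟨ha, rfl⟩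
    exact h1.2

theorem ch_ctr (a : Fin r → ℤ) : P.D.ch P.ctr a = P.L a := by
  unfold RS.ch ctr L dotProduct
  push_cast
  exact Finset.sum_congr rfl fun i _ => mul_comm _ _

theorem inv_ctr : P.Inv P.ctr := by
  intro j hj
  rw [ch_ctr, L_levi (al_levi hj), Int.cast_zero]

private theorem hyt {h : Fin r → ℂ} (hh : P.Inv h) {v : P.D.W} (hv : v ∈ P.WJ) (y : Fin r → ℂ) :
    ∑ i, h i * P.D.yt v y i = ∑ i, h i * y i := by
  have h1 := (wj_ind (fun (u : P.D.W) (z : Fin r → ℂ) => P.D.yt u z) (fun z => P.D.yt_one z)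
    (fun u w z => P.D.yt_mul u w z)
    (fun z => ∑ i, h i * z i = ∑ i, h i * y i) ?_ hv y).1 rfl
  · exact h1
  · intro j hj z hz
    show ∑ i, h i * P.D.yt (P.D.s j) z i = ∑ i, h i * y i
    rw [← hz]
    have h2 : P.D.yt (P.D.s j) z = z - pr (al j) z • cc (P.D.co (al j)) := yt_refl (P.D.al_mem j) z
    have h3 : ∑ i, h i * (P.D.co (al j) i : ℂ) = 0 := hh j hj
    have h4 : ∑ i, h i * P.D.yt (P.D.s j) z i =
        ∑ i, h i * z i - pr (al j) z * ∑ i, h i * (P.D.co (al j) i : ℂ) := by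
      rw [Finset.mul_sum, ← Finset.sum_sub_distrib]
      refine Finset.sum_congr rfl fun i _ => ?_
      rw [h2]
      show h i * (z i - pr (al j) z * (P.D.co (al j) i : ℂ)) = _
      ring
    rw [h4, h3, mul_zero, sub_zero]

theorem hv_inv {h : Fin r → ℂ} (hh : P.Inv h) (w : P.D.W) {v : P.D.W} (hv : v ∈ P.WJ)
    (y : Fin r → ℂ) : P.D.hv h (w * v) y = P.D.hv h w y := by
  unfold RS.hv
  rw [mul_inv_rev, P.D.yt_mul]
  exact hyt hh (P.WJ.inv_mem hv) _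

theorem hv_fl {h : Fin r → ℂ} (hh : P.Inv h) (w : P.D.W) (y : Fin r → ℂ) :
    P.D.hv h (P.fl w).1 y = P.D.hv h w y := by
  obtain ⟨v, hv, h1⟩ := fl_spec w
  conv_rhs => rw [h1]
  rw [hv_inv hh _ hv]

theorem hv_ctr (u : P.D.W) (y : Fin r → ℂ) : P.D.hv P.ctr u y = pr (P.D.rt u P.tr) y := by
  rw [P.D.pr_rt]
  rfl

theorem qq_inv {t : Fin r → ℂ} (ht : P.Inv t) {v : P.D.W} (hv : v ∈ P.WJ) (μ : Fin r → ℤ) :
    qq t (P.D.yt v μ) = qq t μ := by
  unfold qq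
  congr 1
  have h1 := hyt ht hv (cc μ)
  rw [P.D.yt_cc] at h1
  exact h1

/-- a bijection of sums over `P.Pos` -/
theorem sum_Pos {M : Type*} [AddCommMonoid M] {v : P.D.W} (hv : v ∈ P.WJ)
    (f : (Fin r → ℤ) → M) : ∑ a ∈ P.Pos, f (P.D.rt v a) = ∑ a ∈ P.Pos, f a := sum_Pos_aux hv f

theorem prod_Pos {M : Type*} [CommMonoid M] {v : P.D.W} (hv : v ∈ P.WJ)
    (f : (Fin r → ℤ) → M) : ∏ a ∈ P.Pos, f (P.D.rt v a) = ∏ a ∈ P.Pos, f a := by
  refine Finset.prod_nbij' (P.D.rt v) (P.D.rt v⁻¹) (fun a ha => wj_pos hv ha)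
    (fun a ha => wj_pos (P.WJ.inv_mem hv) ha) (fun a _ => P.D.rt_inv_rt v a)
    (fun a _ => P.D.rt_rt_inv v a) (fun a _ => rfl)

/-- the tangent weights at `w p` are the images of those at `p` -/
theorem prod_lm {M : Type*} [CommMonoid M] (w : P.D.W) (p : P.X) (f : (Fin r → ℤ) → M) :
    ∏ a ∈ P.Pos, f (P.D.rt (P.lm w p).1 a) = ∏ a ∈ P.Pos, f (P.D.rt w (P.D.rt p.1 a)) := by
  obtain ⟨v, hv, h⟩ := fl_spec (w * p.1)
  have h1 : ∀ a, P.D.rt w (P.D.rt p.1 a) = P.D.rt (P.lm w p).1 (P.D.rt v a) := by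
    intro a
    rw [← P.D.rt_mul, h, P.D.rt_mul]
    rfl
  have h2 : ∏ a ∈ P.Pos, f (P.D.rt w (P.D.rt p.1 a)) = ∏ a ∈ P.Pos, f (P.D.rt (P.lm w p).1 (P.D.rt v a)) :=
    Finset.prod_congr rfl fun a _ => congrArg f (h1 a)
  exact (h2.trans (prod_Pos hv fun a => f (P.D.rt (P.lm w p).1 a))).symm

end Pool.Agent.FLG.Par
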