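import Pool.Agent.FLG.P.Cos
import Pool.Agent.FLG.Theta
import Pool.Agent.FLG.Tau

/-!
# FLG-P-Bnd: bounds for the length of cosets

PLAN. Notation `χ(b) = 1` if `b < 0`, `0` if `b > 0`; `S = P.Pos`; `len w = ∑ b ∈ S, χ(w b)`. For `a ∈ S`, `S = S₁ ⊔ S₂ ⊔ S₃` according to `s_a b ∈ S`, `-s_a b ∈ S`, `s_a b` Levi.
`len_bound`: it is enough to treat `w = p ∈ X` (`fl_spec`: `w = p v`, `w s_a = p s_{va} v`, `L_inv`). `len (p s_a) = ∑ χ(p s_a b)`. `S₁` is `s_a`-stable: its contributions to `len (p s_a) - len p` and to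
`L a = ∑ b ∈ S, ⟨b, a^∨⟩` vanish. `S₂`: `b* = -s_a b ∈ S₂`, `χ(p s_a b) = 1 - χ(p b*)`, contribution between `-|S₂|` and `|S₂|`, `⟨b, a^∨⟩ ≥ 1`, and `⟨a, a^∨⟩ = 2`, `a ∈ S₂`. `S₃`: `b = γ + m a`, `γ = s_a b` Levi,
`m = ⟨b, a^∨⟩ ≥ 1` because `a` is not Levi and `b` is positive outside `J`. So `|Δ| ≤ |S₂| + |S₃| ≤ L a - 1`.
`len_lt_of_pos` (`w a > 0`): `S₂`: `b + b* = ⟨b, a^∨⟩ a`, so not both `w b < 0`, `w b* < 0`: contribution `≥ 1` (the term `b = a`); `S₃` for `w = p ∈ X`: if `γ > 0` then `p b = p γ + m p a > 0` and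
`χ(p γ) - χ(p b) = 0`; if `γ < 0`: `χ(p γ) = 1`, contribution `≥ 0`. `mem_X_of_len`: equality `len (p s_a) = len p + 1` forces `p b < 0` for all `b ∈ S₃` with `γ < 0`. If `γ' > 0` is Levi with
`p s_a γ' < 0`: `s_a γ'` Levi only if `⟨γ', a^∨⟩ = 0`, then `p s_a γ' = p γ' > 0`; if `b = s_a γ' ∈ S` then `γ = γ' > 0`, so `p b > 0`; if `b = -s_a γ' ∈ S`, `γ = -γ' < 0`, so `p b < 0`, `p s_a γ' > 0`. Contradiction.
`max_len`: for `β ≠ ±th`: `χ(s_th β) - χ(β) = ⟨β, th^∨⟩` (`IsMax.le_one`, `pos_of_pos`, see the proof of `IsMax.len` in Theta.lean); sum over `b ∈ S`, `β = u b`.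
`tau_len`: `IsTau` at `b = x u a`: `χ(u a) = χ(x u a) + ⟨ν, x u a⟩`; sum.
`s_len`: `len (s_i u)`: `β = u b = ± al i` is the only root whose sign changes (`s_perm`).
-/

set_option autoImplicit false

open scoped BigOperators
open Pool.Agent.DST.TE

namespace Pool.Agent.FLG.Par

open RS

variable {r : ℕ} {P : Par r}

/-! ### signs -/

/-- the sign of `w b` -/
private def sg (P : Par r) (w : P.D.W) (b : Fin r → ℤ) : ℤ := if P.D.rt w b ∈ P.D.Pos then 0 else 1

private theorem sg_pos {w : P.D.W} {b : Fin r → ℤ} (h : P.D.rt w b ∈ P.D.Pos) : sg P w b = 0 :=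
  if_pos h

private theorem sg_neg {w : P.D.W} {b : Fin r → ℤ} (h : P.D.rt w b ∉ P.D.Pos) : sg P w b = 1 :=
  if_neg h

private theorem sg_cases (w : P.D.W) (b : Fin r → ℤ) : sg P w b = 0 ∨ sg P w b = 1 := by
  by_cases h : P.D.rt w b ∈ P.D.Pos
  · exact Or.inl (sg_pos h)
  · exact Or.inr (sg_neg h)

private theorem sg_neg_arg (w : P.D.W) {b : Fin r → ℤ} (hb : b ∈ P.D.Φ) :
    sg P w (-b) = 1 - sg P w b := by
  by_cases h : P.D.rt w b ∈ P.D.Pos
  · have h1 : P.D.rt w (-b) ∉ P.D.Pos := by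
      rw [P.D.rt_neg]
      exact neg_not_pos h
    rw [sg_pos h, sg_neg h1]
    norm_num
  · have h1 : P.D.rt w (-b) ∈ P.D.Pos := by
      rw [P.D.rt_neg]
      exact (not_pos_iff (P.D.rt_mem.2 hb)).1 h
    rw [sg_neg h, sg_pos h1]
    norm_num

private theorem len_sum (w : P.D.W) : (P.len w : ℤ) = ∑ a ∈ P.Pos, sg P w a := by
  unfold len
  rw [Finset.card_filter, Nat.cast_sum]
  refine Finset.sum_congr rfl fun a _ => ?_
  by_cases h : P.D.rt w a ∈ P.D.Pos
  · rw [sg_pos h, if_neg (not_not.2 h), Nat.cast_zero]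
  · rw [sg_neg h, if_pos h, Nat.cast_one]

private theorem sg_mul (w u : P.D.W) (b : Fin r → ℤ) : sg P (w * u) b = sg P w (P.D.rt u b) := by
  unfold sg
  rw [P.D.rt_mul]

private theorem rr {a : Fin r → ℤ} (ha : a ∈ P.D.Φ) (b : Fin r → ℤ) :
    P.D.rt (P.D.refl a) (P.D.rt (P.D.refl a) b) = b := by
  rw [← P.D.rt_mul, refl_mul_self ha, P.D.rt_one]

/-- the roots of `P.Pos` which `s_a` does not map to `P.Pos` -/
private def T (P : Par r) (a : Fin r → ℤ) : Finset (Fin r → ℤ) :=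
  P.Pos.filter fun b => P.D.rt (P.D.refl a) b ∉ P.Pos

private theorem mem_T {a b : Fin r → ℤ} : b ∈ T P a ↔ b ∈ P.Pos ∧ P.D.rt (P.D.refl a) b ∉ P.Pos := by
  unfold T
  rw [Finset.mem_filter]

private theorem neg_not_mem {a : Fin r → ℤ} (ha : a ∈ P.Pos) : -a ∉ P.Pos := fun h =>
  neg_not_pos (mem_Pos.1 ha).1 (mem_Pos.1 h).1

private theorem self_T {a : Fin r → ℤ} (ha : a ∈ P.Pos) : a ∈ T P a := by
  rw [mem_T, rt_refl_self (pos_mem ha)]
  exact ⟨ha, neg_not_mem ha⟩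

private theorem exists_coord {b : Fin r → ℤ} (hb : b ∈ P.Pos) : ∃ i, i ∉ P.J ∧ 0 < b i := by
  obtain ⟨h1, h2⟩ := mem_Pos.1 hb
  by_contra hcon
  push Not at hcon
  exact h2 ⟨mem_of_pos h1, fun i hi => le_antisymm (hcon i hi) ((RS.mem_Pos.1 h1).2 i)⟩

private theorem mem_of_coord {b : Fin r → ℤ} (hb : b ∈ P.D.Φ) {i : Fin r} (hi : i ∉ P.J)
    (h : 0 < b i) : b ∈ P.Pos := by
  rw [mem_Pos]
  refine ⟨RS.mem_Pos.2 ⟨hb, ?_⟩, fun h1 => ?_⟩
  · rcases P.D.sign b hb with h2 | h2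
    · exact h2
    · exact absurd (h2 i) (not_le.2 h)
  · rw [h1.2 i hi] at h
    exact lt_irrefl _ h

private theorem c_pos {a b : Fin r → ℤ} (ha : a ∈ P.Pos) (hb : b ∈ T P a) :
    1 ≤ dotProduct (P.D.co a) b := by
  obtain ⟨h1, h2⟩ := mem_T.1 hb
  by_contra hcon
  push Not at hcon
  apply h2
  obtain ⟨i, hi, hbi⟩ := exists_coord h1
  refine mem_of_coord (P.D.act_mem _ _ (pos_mem h1)) hi ?_
  show 0 < P.D.rt (P.D.refl a) b i
  rw [rt_refl (pos_mem ha), Pi.sub_apply, Pi.smul_apply, smul_eq_mul]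
  have e2 := (RS.mem_Pos.1 (mem_Pos.1 ha).1).2 i
  have e3 : dotProduct (P.D.co a) b * a i ≤ 0 := mul_nonpos_of_nonpos_of_nonneg (by omega) e2
  omega

/-- sums over the complement of `T` -/
private theorem sum_compl {M : Type*} [AddCommMonoid M] {a : Fin r → ℤ} (ha : a ∈ P.Pos)
    (f : (Fin r → ℤ) → M) :
    ∑ b ∈ P.Pos.filter (fun b => ¬ P.D.rt (P.D.refl a) b ∉ P.Pos), f (P.D.rt (P.D.refl a) b) =
      ∑ b ∈ P.Pos.filter (fun b => ¬ P.D.rt (P.D.refl a) b ∉ P.Pos), f b := by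
  have haΦ := pos_mem ha
  refine Finset.sum_bij' (fun b _ => P.D.rt (P.D.refl a) b) (fun b _ => P.D.rt (P.D.refl a) b)
    ?_ ?_ ?_ ?_ ?_
  · intro b hb
    rw [Finset.mem_filter, not_not] at hb ⊢
    rw [rr haΦ]
    exact ⟨hb.2, hb.1⟩
  · intro b hb
    rw [Finset.mem_filter, not_not] at hb ⊢
    rw [rr haΦ]
    exact ⟨hb.2, hb.1⟩
  · intro b _
    exact rr haΦ b
  · intro b _
    exact rr haΦ b
  · intro b _
    rfl

private theorem len_diff (w : P.D.W) {a : Fin r → ℤ} (ha : a ∈ P.Pos) :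
    (P.len (w * P.D.refl a) : ℤ) - P.len w =
      ∑ b ∈ T P a, (sg P w (P.D.rt (P.D.refl a) b) - sg P w b) := by
  rw [len_sum, len_sum, ← Finset.sum_filter_add_sum_filter_not P.Pos
    (fun b => P.D.rt (P.D.refl a) b ∉ P.Pos) (fun b => sg P (w * P.D.refl a) b),
    ← Finset.sum_filter_add_sum_filter_not P.Pos
    (fun b => P.D.rt (P.D.refl a) b ∉ P.Pos) (fun b => sg P w b)]
  have h1 : ∑ b ∈ P.Pos.filter (fun b => ¬ P.D.rt (P.D.refl a) b ∉ P.Pos), sg P (w * P.D.refl a) b =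
      ∑ b ∈ P.Pos.filter (fun b => ¬ P.D.rt (P.D.refl a) b ∉ P.Pos), sg P w b := by
    rw [← sum_compl ha (fun b => sg P w b)]
    exact Finset.sum_congr rfl fun b _ => sg_mul _ _ _
  have h2 : ∑ b ∈ P.Pos.filter (fun b => P.D.rt (P.D.refl a) b ∉ P.Pos), sg P (w * P.D.refl a) b =
      ∑ b ∈ P.Pos.filter (fun b => P.D.rt (P.D.refl a) b ∉ P.Pos), sg P w (P.D.rt (P.D.refl a) b) :=
    Finset.sum_congr rfl fun b _ => sg_mul _ _ _
  rw [h1, h2]
  unfold T
  rw [Finset.sum_sub_distrib]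
  ring

private theorem card_T_le {a : Fin r → ℤ} (ha : a ∈ P.Pos) : ((T P a).card : ℤ) + 1 ≤ P.L a := by
  have haΦ := pos_mem ha
  have h0 : P.L a = ∑ b ∈ P.Pos, dotProduct (P.D.co a) b := by
    unfold L tr
    rw [dotProduct_sum]
  have h1 : ∑ b ∈ P.Pos, dotProduct (P.D.co a) b =
      ∑ b ∈ T P a, dotProduct (P.D.co a) b +
        ∑ b ∈ P.Pos.filter (fun b => ¬ P.D.rt (P.D.refl a) b ∉ P.Pos), dotProduct (P.D.co a) b := by
    unfold T
    rw [Finset.sum_filter_add_sum_filter_not]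
  have h2 : ∑ b ∈ P.Pos.filter (fun b => ¬ P.D.rt (P.D.refl a) b ∉ P.Pos),
      dotProduct (P.D.co a) b = 0 := by
    have h3 := sum_compl ha (fun b => dotProduct (P.D.co a) b)
    have h4 : ∑ b ∈ P.Pos.filter (fun b => ¬ P.D.rt (P.D.refl a) b ∉ P.Pos),
        dotProduct (P.D.co a) (P.D.rt (P.D.refl a) b) =
        ∑ b ∈ P.Pos.filter (fun b => ¬ P.D.rt (P.D.refl a) b ∉ P.Pos),
          -dotProduct (P.D.co a) b := by
      refine Finset.sum_congr rfl fun b _ => ?_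
      rw [rt_refl haΦ, dotProduct_sub, dotProduct_smul, P.D.co_self a haΦ, smul_eq_mul]
      ring
    rw [h4, Finset.sum_neg_distrib] at h3
    omega
  have h4 : ((T P a).card : ℤ) + 1 ≤ ∑ b ∈ T P a, dotProduct (P.D.co a) b := by
    rw [← Finset.add_sum_erase _ _ (self_T ha), P.D.co_self a haΦ]
    have h5 : ((T P a).erase a).card • (1 : ℤ) ≤
        ∑ b ∈ (T P a).erase a, dotProduct (P.D.co a) b :=
      Finset.card_nsmul_le_sum _ _ _ fun b hb => c_pos ha (Finset.mem_of_mem_erase hb)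
    rw [Finset.card_erase_of_mem (self_T ha), nsmul_eq_mul, mul_one] at h5
    have h6 : 0 < (T P a).card := Finset.card_pos.2 ⟨a, self_T ha⟩
    omega
  rw [h0, h1, h2, add_zero]
  exact h4

theorem len_bound (w : P.D.W) {a : Fin r → ℤ} (ha : a ∈ P.Pos) :
    |(P.len (w * P.D.refl a) : ℤ) - P.len w| + 1 ≤ P.L a := by
  have h1 := card_T_le ha
  have h2 : |(P.len (w * P.D.refl a) : ℤ) - P.len w| ≤ (T P a).card := by
    rw [len_diff w ha]
    refine (Finset.abs_sum_le_sum_abs _ _).trans ?_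
    have h3 : ∑ b ∈ T P a, |sg P w (P.D.rt (P.D.refl a) b) - sg P w b| ≤ ∑ b ∈ T P a, (1 : ℤ) := by
      refine Finset.sum_le_sum fun b _ => ?_
      rcases sg_cases (P := P) w (P.D.rt (P.D.refl a) b) with h4 | h4 <;>
        rcases sg_cases (P := P) w b with h5 | h5 <;> rw [h4, h5] <;> norm_num
    rw [Finset.sum_const, nsmul_eq_mul, mul_one] at h3
    exact h3
  omega

theorem two_le_L {a : Fin r → ℤ} (ha : a ∈ P.Pos) : 2 ≤ P.L a := by
  have h1 := card_T_le ha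
  have h6 : 0 < (T P a).card := Finset.card_pos.2 ⟨a, self_T ha⟩
  omega

/-- a sum of a positive root and a root is not a multiple of a negative root -/
private theorem not_both {x y z : Fin r → ℤ} {m : ℤ} (hz : z ∈ P.D.Pos) (hm : 0 < m)
    (h : x + y = m • z) (hx : x ∈ P.D.Φ) (hy : y ∈ P.D.Φ) : x ∈ P.D.Pos ∨ y ∈ P.D.Pos := by
  by_contra hcon
  push Not at hcon
  have n1 := (not_pos_iff hx).1 hcon.1
  have n2 := (not_pos_iff hy).1 hcon.2
  apply ne_zero (mem_of_pos hz)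
  funext i
  have e1 := (RS.mem_Pos.1 n1).2 i
  have e2 := (RS.mem_Pos.1 n2).2 i
  have e3 := (RS.mem_Pos.1 hz).2 i
  have e4 := congrFun h i
  rw [Pi.add_apply, Pi.smul_apply, smul_eq_mul] at e4
  rw [Pi.neg_apply] at e1 e2
  have e5 : m * z i ≤ 0 := by rw [← e4]; omega
  have e6 : z i ≤ 0 := by
    by_contra hcon
    push Not at hcon
    have := mul_pos hm hcon
    omega
  show z i = 0
  omega

private theorem pos_of_add {x y z : Fin r → ℤ} {m : ℤ} (hz : z ∈ P.D.Pos) (hm : 0 ≤ m)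
    (h : x = y + m • z) (hx : x ∈ P.D.Φ) (hy : y ∈ P.D.Pos) : x ∈ P.D.Pos := by
  refine RS.mem_Pos.2 ⟨hx, fun i => ?_⟩
  rw [h, Pi.add_apply, Pi.smul_apply, smul_eq_mul]
  exact add_nonneg ((RS.mem_Pos.1 hy).2 i) (mul_nonneg hm ((RS.mem_Pos.1 hz).2 i))

/-- the terms of `len_diff` for a minimal representative -/
private theorem term_nonneg (p : P.X) {a b : Fin r → ℤ} (ha : a ∈ P.Pos) (hb : b ∈ T P a)
    (h : P.D.rt p.1 a ∈ P.D.Pos) : 0 ≤ sg P p.1 (P.D.rt (P.D.refl a) b) - sg P p.1 b := by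
  have haΦ := pos_mem ha
  obtain ⟨hb1, hb2⟩ := mem_T.1 hb
  have hbΦ := pos_mem hb1
  have hc := c_pos ha hb
  have hsΦ : P.D.rt (P.D.refl a) b ∈ P.D.Φ := P.D.rt_mem.2 hbΦ
  have hs : P.D.rt (P.D.refl a) b = b - dotProduct (P.D.co a) b • a := rt_refl haΦ b
  have hsum : P.D.rt p.1 b = P.D.rt p.1 (P.D.rt (P.D.refl a) b) +
      dotProduct (P.D.co a) b • P.D.rt p.1 a := by
    rw [← P.D.rt_smul, ← P.D.rt_add, hs, sub_add_cancel]
  rcases sg_cases (P := P) p.1 b with h1 | h1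
  · rw [h1]
    rcases sg_cases (P := P) p.1 (P.D.rt (P.D.refl a) b) with h2 | h2 <;> rw [h2] <;> norm_num
  · have hbn : P.D.rt p.1 b ∉ P.D.Pos := by
      intro h2
      rw [sg_pos h2] at h1
      exact absurd h1 (by norm_num)
    have h3 : P.D.rt p.1 (P.D.rt (P.D.refl a) b) ∉ P.D.Pos := by
      intro h4
      exact hbn (pos_of_add h (by omega) hsum (P.D.rt_mem.2 hbΦ) h4)
    rw [h1, sg_neg h3]
    norm_num

private theorem term_self (p : P.X) {a : Fin r → ℤ} (ha : a ∈ P.Pos)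
    (h : P.D.rt p.1 a ∈ P.D.Pos) : sg P p.1 (P.D.rt (P.D.refl a) a) - sg P p.1 a = 1 := by
  rw [rt_refl_self (pos_mem ha), sg_neg_arg _ (pos_mem ha), sg_pos h]
  norm_num

private theorem len_lt_x (p : P.X) {a : Fin r → ℤ} (ha : a ∈ P.Pos)
    (h : P.D.rt p.1 a ∈ P.D.Pos) : P.len p.1 < P.len (p.1 * P.D.refl a) := by
  have h1 := len_diff p.1 ha
  have h2 := Finset.single_le_sum (f := fun b => sg P p.1 (P.D.rt (P.D.refl a) b) - sg P p.1 b)
    (fun b hb => term_nonneg p ha hb h) (self_T ha)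
  have h3 : (1 : ℤ) ≤ ∑ b ∈ T P a, (sg P p.1 (P.D.rt (P.D.refl a) b) - sg P p.1 b) := by
    rw [← term_self p ha h]
    exact h2
  rw [← h1] at h3
  omega

theorem len_lt_of_pos (w : P.D.W) {a : Fin r → ℤ} (ha : a ∈ P.Pos)
    (h : P.D.rt w a ∈ P.D.Pos) : P.len w < P.len (w * P.D.refl a) := by
  obtain ⟨v, hv, hw⟩ := fl_spec w
  have h1 : w * P.D.refl a = (P.fl w).1 * P.D.refl (P.D.rt v a) * v := by
    rw [refl_rt v (pos_mem ha)]
    conv_lhs => rw [hw]
    group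
  have h2 : P.D.rt (P.fl w).1 (P.D.rt v a) ∈ P.D.Pos := by
    rw [← P.D.rt_mul, ← hw]
    exact h
  have h3 := len_lt_x (P.fl w) (wj_pos hv ha) h2
  rw [h1, len_inv _ hv, ← len_fl w]
  exact h3

theorem len_lt_of_neg (w : P.D.W) {a : Fin r → ℤ} (ha : a ∈ P.Pos)
    (h : P.D.rt w a ∉ P.D.Pos) : P.len (w * P.D.refl a) < P.len w := by
  have haΦ := pos_mem ha
  have h1 := len_lt_of_pos (w * P.D.refl a) ha (by
    rw [P.D.rt_mul, rt_refl_self haΦ, P.D.rt_neg]
    exact (not_pos_iff (P.D.act_mem _ _ haΦ)).1 h)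
  rwa [mul_assoc, refl_mul_self haΦ, mul_one] at h1

/-- covers are minimal representatives -/
theorem mem_X_of_len (p : P.X) {a : Fin r → ℤ} (ha : a ∈ P.Pos)
    (h : P.len (p.1 * P.D.refl a) = P.len p.1 + 1) :
    ∀ j ∈ P.J, P.D.rt (p.1 * P.D.refl a) (al j) ∈ P.D.Pos := by
  intro j hj
  have haΦ := pos_mem ha
  have hpa : P.D.rt p.1 a ∈ P.D.Pos := by
    by_contra h1
    have h2 := len_lt_of_neg p.1 ha h1
    omega
  have hterm : ∀ b ∈ T P a, b ≠ a → sg P p.1 (P.D.rt (P.D.refl a) b) = sg P p.1 b := by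
    intro b hb hne
    have h1 := len_diff p.1 ha
    rw [← Finset.add_sum_erase _ _ (self_T ha), term_self p ha hpa] at h1
    have h2 := Finset.single_le_sum (f := fun b => sg P p.1 (P.D.rt (P.D.refl a) b) - sg P p.1 b)
      (fun b hb => term_nonneg p ha (Finset.mem_of_mem_erase hb) hpa) (Finset.mem_erase.2 ⟨hne, hb⟩)
    have h3 := term_nonneg p ha hb hpa
    omega
  have hlev : P.Levi (al j) := by
    refine ⟨P.D.al_mem j, fun i hi => Pi.single_eq_of_ne ?_ _⟩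
    rintro rfl
    exact hi hj
  have hxj : P.D.rt p.1 (al j) ∈ P.D.Pos := p.2 j hj
  rw [P.D.rt_mul]
  by_contra hcon
  have hbΦ : P.D.rt (P.D.refl a) (al j) ∈ P.D.Φ := P.D.rt_mem.2 (P.D.al_mem j)
  have hnl : ¬ P.Levi (P.D.rt (P.D.refl a) (al j)) := by
    intro h1
    obtain ⟨i, hi, hai⟩ := exists_coord ha
    have h2 := h1.2 i hi
    rw [rt_refl haΦ, Pi.sub_apply, Pi.smul_apply, smul_eq_mul, hlev.2 i hi, zero_sub, neg_eq_zero] at h2
    rcases mul_eq_zero.1 h2 with h3 | h3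
    · apply hcon
      rw [rt_refl haΦ, h3, zero_smul, sub_zero]
      exact hxj
    · omega
  have hljn : al j ∉ P.Pos := fun h1 => (mem_Pos.1 h1).2 hlev
  have hljn' : -al j ∉ P.Pos := by
    intro h1
    exact neg_not_pos (al_pos P.D j) (mem_Pos.1 h1).1
  rcases cases hbΦ with h1 | h1 | h1
  · exact hnl h1
  · have hT : P.D.rt (P.D.refl a) (al j) ∈ T P a := by
      rw [mem_T, rr haΦ]
      exact ⟨h1, hljn⟩
    have hne : P.D.rt (P.D.refl a) (al j) ≠ a := by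
      intro h2
      have h3 := rr haΦ (al j)
      rw [h2, rt_refl_self haΦ] at h3
      apply neg_not_pos (mem_Pos.1 ha).1
      rw [h3]
      exact al_pos P.D j
    have h2 := hterm _ hT hne
    rw [rr haΦ, sg_pos hxj, sg_neg hcon] at h2
    exact absurd h2 (by norm_num)
  · have hT : -P.D.rt (P.D.refl a) (al j) ∈ T P a := by
      rw [mem_T, P.D.rt_neg, rr haΦ]
      exact ⟨h1, hljn'⟩
    have hne : -P.D.rt (P.D.refl a) (al j) ≠ a := by
      intro h2
      have h3 := rr haΦ (al j)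
      have h4 : P.D.rt (P.D.refl a) (al j) = -a := neg_eq_iff_eq_neg.1 h2
      rw [h4, P.D.rt_neg, rt_refl_self haΦ, neg_neg] at h3
      rw [h3] at ha
      exact hljn ha
    have h2 := hterm _ hT hne
    rw [P.D.rt_neg, rr haΦ, sg_neg_arg _ (P.D.al_mem j), sg_neg_arg _ hbΦ, sg_pos hxj, sg_neg hcon] at h2
    exact absurd h2 (by norm_num)

/-- the sum of the corrections at `u b = ± c` -/
private theorem sum_corr (u : P.D.W) (c : Fin r → ℤ) :
    ∑ b ∈ P.Pos, (if P.D.rt u b = c then (1 : ℤ) else if P.D.rt u b = -c then -1 else 0) =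
      (if P.D.rt u⁻¹ c ∈ P.Pos then 1 else if -P.D.rt u⁻¹ c ∈ P.Pos then -1 else 0) := by
  obtain ⟨z, hz⟩ : ∃ z, z = P.D.rt u⁻¹ c := ⟨_, rfl⟩
  have h3 : ∀ b, P.D.rt u b = c ↔ b = z := by
    intro b
    constructor
    · intro e
      rw [hz, ← e, P.D.rt_inv_rt]
    · intro e
      rw [e, hz, P.D.rt_rt_inv]
  have h4 : ∀ b, P.D.rt u b = -c ↔ b = -z := by
    intro b
    constructor
    · intro e
      rw [hz, ← P.D.rt_neg, ← e, P.D.rt_inv_rt]
    · intro e
      rw [e, hz, P.D.rt_neg, P.D.rt_rt_inv]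
  simp only [h3, h4]
  rw [← hz]
  by_cases hp : z ∈ P.Pos
  · rw [if_pos hp, Finset.sum_eq_single z]
    · rw [if_pos rfl]
    · intro b hb hne
      rw [if_neg hne, if_neg]
      rintro rfl
      exact neg_not_mem hp hb
    · intro hn
      exact absurd hp hn
  · rw [if_neg hp]
    by_cases hp' : -z ∈ P.Pos
    · have hne : -z ≠ z := fun e => hp (e ▸ hp')
      rw [if_pos hp', Finset.sum_eq_single (-z)]
      · rw [if_neg hne, if_pos rfl]
      · intro b hb hne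
        rw [if_neg, if_neg hne]
        rintro rfl
        exact hp hb
      · intro hn
        exact absurd hp' hn
    · rw [if_neg hp']
      refine Finset.sum_eq_zero fun b hb => ?_
      rw [if_neg, if_neg]
      · rintro rfl
        exact hp' hb
      · rintro rfl
        exact hp hb

private theorem s_step (i : Fin r) {b : Fin r → ℤ} (hb : b ∈ P.D.Φ) :
    (if P.D.rt (P.D.s i) b ∈ P.D.Pos then (0 : ℤ) else 1) = (if b ∈ P.D.Pos then 0 else 1) +
      (if b = al i then 1 else if b = -al i then -1 else 0) := by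
  have hal := al_pos P.D i
  by_cases h1 : b = al i
  · subst h1
    rw [rt_s_al, if_neg (neg_not_pos hal), if_pos hal, if_pos rfl]
    norm_num
  · by_cases h2 : b = -al i
    · subst h2
      rw [P.D.rt_neg, rt_s_al, neg_neg, if_pos hal, if_neg (neg_not_pos hal), if_neg h1, if_pos rfl]
      norm_num
    · rw [if_neg h1, if_neg h2, add_zero]
      by_cases h3 : b ∈ P.D.Pos
      · rw [if_pos h3, if_pos (s_perm i h3 h1).1]
      · have h4 := (not_pos_iff hb).1 h3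
        have h5 : -b ≠ al i := fun e => h2 (by rw [← e, neg_neg])
        have h6 := (s_perm i h4 h5).1
        rw [P.D.rt_neg] at h6
        have h7 : P.D.rt (P.D.s i) b ∉ P.D.Pos := fun h8 => neg_not_pos h8 h6
        rw [if_neg h3, if_neg h7]

theorem s_len (i : Fin r) (u : P.D.W) : (P.len (P.D.s i * u) : ℤ) = P.len u +
    (if P.D.rt u⁻¹ (al i) ∈ P.Pos then 1 else if -P.D.rt u⁻¹ (al i) ∈ P.Pos then -1 else 0) := by
  rw [← sum_corr, len_sum, len_sum, ← Finset.sum_add_distrib]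
  refine Finset.sum_congr rfl fun b hb => ?_
  unfold sg
  rw [P.D.rt_mul]
  exact s_step i (P.D.rt_mem.2 (pos_mem hb))

private theorem step_eq {th : Fin r → ℤ} (h : P.D.IsMax th) {η : Fin r → ℤ} (hη : η ∈ P.D.Φ) :
    (if P.D.rt (P.D.refl th) η ∈ P.D.Pos then (0 : ℤ) else 1) =
      (if η ∈ P.D.Pos then 0 else 1) + dotProduct (P.D.co th) η -
        (if η = th then 1 else if η = -th then -1 else 0) := by
  have hth := h.mem
  by_cases h1 : η = th
  · subst h1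
    rw [rt_refl_self hth, if_neg (neg_not_pos h.1), if_pos h.1, if_pos rfl,
      P.D.co_self _ hth]
    norm_num
  · by_cases h2 : η = -th
    · subst h2
      have h3 : (-th) ∉ P.D.Pos := neg_not_pos h.1
      rw [P.D.rt_neg, rt_refl_self hth, neg_neg, if_pos h.1, if_neg h3, if_neg h1,
        if_pos rfl, dotProduct_neg, P.D.co_self _ hth]
      norm_num
    · rw [if_neg h1, if_neg h2, sub_zero]
      obtain ⟨h3, h4⟩ := h.le_one hη h1 h2
      have hr : P.D.rt (P.D.refl th) η = η - dotProduct (P.D.co th) η • th := rt_refl hth η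
      rcases lt_trichotomy (dotProduct (P.D.co th) η) 0 with h5 | h5 | h5
      · have h6 : dotProduct (P.D.co th) η = -1 := by omega
        rw [h6] at hr ⊢
        have h7 : -η ∈ P.D.Pos := by
          apply h.pos_of_pos (neg_mem hη)
          rw [dotProduct_neg, h6]
          norm_num
        have h8 : η ∉ P.D.Pos := (not_pos_iff hη).2 h7
        have h9 : P.D.rt (P.D.refl th) η ∈ P.D.Pos := by
          apply h.pos_of_pos (P.D.rt_mem.2 hη)
          rw [hr, dotProduct_sub, dotProduct_smul, h6, P.D.co_self _ hth]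
          norm_num
        rw [if_pos h9, if_neg h8]
        norm_num
      · rw [h5] at hr ⊢
        rw [zero_smul, sub_zero] at hr
        rw [hr, add_zero]
      · have h6 : dotProduct (P.D.co th) η = 1 := by omega
        rw [h6] at hr ⊢
        have h7 : η ∈ P.D.Pos := h.pos_of_pos hη h5
        have h9 : -(P.D.rt (P.D.refl th) η) ∈ P.D.Pos := by
          apply h.pos_of_pos (neg_mem (P.D.rt_mem.2 hη))
          rw [hr, dotProduct_neg, dotProduct_sub, dotProduct_smul, h6, P.D.co_self _ hth]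
          norm_num
        have h10 : P.D.rt (P.D.refl th) η ∉ P.D.Pos := (not_pos_iff (P.D.rt_mem.2 hη)).2 h9
        rw [if_neg h10, if_pos h7]
        norm_num

theorem max_len {th : Fin r → ℤ} (h : P.D.IsMax th) (u : P.D.W) :
    (P.len (P.D.refl th * u) : ℤ) = P.len u + dotProduct (P.D.co th) (P.D.rt u P.tr) -
      (if P.D.rt u⁻¹ th ∈ P.Pos then 1 else if -P.D.rt u⁻¹ th ∈ P.Pos then -1 else 0) := by
  have h2 : dotProduct (P.D.co th) (P.D.rt u P.tr) =
      ∑ a ∈ P.Pos, dotProduct (P.D.co th) (P.D.rt u a) := by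
    unfold tr
    rw [P.D.rt_sum, dotProduct_sum]
  rw [← sum_corr, len_sum, len_sum, h2, ← Finset.sum_add_distrib, ← Finset.sum_sub_distrib]
  refine Finset.sum_congr rfl fun b hb => ?_
  unfold sg
  rw [P.D.rt_mul]
  exact step_eq h (P.D.rt_mem.2 (pos_mem hb))

theorem tau_len {x : P.D.W} {ν : Fin r → ℤ} (h : P.D.IsTau x ν) (u : P.D.W) :
    (P.len (x * u) : ℤ) = P.len u - dotProduct ν (P.D.rt (x * u) P.tr) := by
  have h1 : dotProduct ν (P.D.rt (x * u) P.tr) = ∑ a ∈ P.Pos, dotProduct ν (P.D.rt (x * u) a) := by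
    unfold tr
    rw [P.D.rt_sum, dotProduct_sum]
  rw [h1, len_sum, len_sum, ← Finset.sum_sub_distrib]
  refine Finset.sum_congr rfl fun a ha => ?_
  have h2 := h (P.D.rt (x * u) a) (P.D.rt_mem.2 (pos_mem ha))
  have h3 : P.D.rt x⁻¹ (P.D.rt (x * u) a) = P.D.rt u a := by
    rw [P.D.rt_mul x u, P.D.rt_inv_rt]
  rw [h3] at h2
  unfold sg
  linarith

end Pool.Agent.FLG.Par
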