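import Pool.Agent.FLG.P.Bnd
import Pool.Agent.FLG.CommA

/-!
# FLG-P-CommA: commutation with the left divided differences

PLAN (uniform proof). Put `m(u, a) = len (u s_a) - len u - 1 + k L a` for `k = 0` (classical) or `k = 1` (quantum, there `m ≥ 0` by `len_bound`). Let `x = s_i`. Three cases for `u ∈ X`, `b = rt u⁻¹ (al i)`
(`s_len`): (i) `-b ∈ P.Pos`: `s_i u ∈ X` has length `len u - 1`; (ii) `b ∈ P.Pos`: length `+1`; (iii) `b` Levi: `lm s_i u = u`. Quantum part: (i) `a` contributes to `Eq` at `s_i u` iff it contributes at `u` and `s_i` is a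
descent of `fl (u s_a)`: `m(s_i u, a) = m(u, a) + 1 + (len (s_i u s_a) - len (u s_a))`, and the last bracket is `≥ -1`. (ii) if `a` contributes at `u` and `s_i` is a descent of `u s_a` then
`m(s_i u, a) = -2 < 0`. (iii) then `s_i u = u s_b`, `s_i u s_a = u s_{a'} s_b`, `a' = s_b a ∈ P.Pos`, `m(u, a') = -1 < 0`. Classical part: the same with `k = 0`, where instead of `m ≥ 0` one uses that
`len (u s_a) - len u` has the sign of `rt u a` (`len_lt_of_pos`, `len_lt_of_neg`), that `s_i` changes only the sign of `± al i`; the exceptional term is `rt u a = ± al i`; or deduce the classical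
statement from `RS.E0_A` by blocks: `mem_X_of_len`, and `RS.A i` maps `X` to `X` (`E0_block`).
-/

set_option autoImplicit false

open scoped BigOperators
open Pool.Agent.DST.TE

namespace Pool.Agent.FLG.Par

open RS

variable {r : ℕ} {P : Par r}

private theorem cp_rt_mem (u : P.D.W) (i : Fin r) : P.D.rt u⁻¹ (al i) ∈ P.D.Φ := P.D.act_mem _ _ (P.D.al_mem i)

private theorem cp_X_of_len (w : P.D.W) (h : P.len w = P.D.len w) : ∀ j ∈ P.J, P.D.rt w (al j) ∈ P.D.Pos :=
  (mem_iff_len w).2 h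

/-- a left descent of the coset length of `u ∈ X` stays in `X` -/
private theorem cp_down (i : Fin r) (u : P.X) (h : P.len (P.D.s i * u.1) < P.len u.1) :
    ∀ j ∈ P.J, P.D.rt (P.D.s i * u.1) (al j) ∈ P.D.Pos := by
  have h1 := s_len (P := P) i u.1
  have hb := cp_rt_mem (P := P) u.1 i
  by_cases h2 : P.D.rt u.1⁻¹ (al i) ∈ P.Pos
  · rw [if_pos h2] at h1
    omega
  · rw [if_neg h2] at h1
    by_cases h3 : -P.D.rt u.1⁻¹ (al i) ∈ P.Pos
    · rw [if_pos h3] at h1
      apply cp_X_of_len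
      have h4 : P.D.rt u.1⁻¹ (al i) ∉ P.D.Pos := by
        rw [not_pos_iff hb]
        exact (mem_Pos.1 h3).1
      have h5 := RS.len_s_mul_of_neg i u.1 h4
      have h6 := len_val u
      omega
    · rw [if_neg h3] at h1
      omega

private theorem cp_D_down (i : Fin r) (u : P.X) (h : P.D.len (P.D.s i * u.1) < P.D.len u.1) :
    (∀ j ∈ P.J, P.D.rt (P.D.s i * u.1) (al j) ∈ P.D.Pos) ∧ P.len (P.D.s i * u.1) < P.len u.1 := by
  have hb := cp_rt_mem (P := P) u.1 i
  have h1 : P.D.rt u.1⁻¹ (al i) ∉ P.D.Pos := by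
    intro h2
    have := RS.len_s_mul_of_pos i u.1 h2
    omega
  have h2 : -P.D.rt u.1⁻¹ (al i) ∈ P.D.Pos := (not_pos_iff hb).1 h1
  have h3 : -P.D.rt u.1⁻¹ (al i) ∈ P.Pos := by
    rcases cases hb with h4 | h4 | h4
    · exfalso
      have h5 := x_levi u h4
      rw [P.D.rt_rt_inv] at h5
      exact h1 (h5.1 (al_pos P.D i))
    · exact absurd (mem_Pos.1 h4).1 h1
    · exact h4
  have h4 := s_len (P := P) i u.1
  have h5 : P.D.rt u.1⁻¹ (al i) ∉ P.Pos := fun h => h1 (mem_Pos.1 h).1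
  rw [if_neg h5, if_pos h3] at h4
  have h6 : P.len (P.D.s i * u.1) < P.len u.1 := by omega
  exact ⟨cp_down i u h6, h6⟩

private theorem cp_E0 (c : (Fin r → ℤ) → ℂ) (u w : P.X) : P.E0 c u w =
    ∑ a ∈ P.Pos, if u = P.fl (w.1 * P.D.refl a) ∧ P.len u.1 = P.len w.1 + 1 then c a else 0 := by
  unfold E0
  rw [Matrix.of_apply]

private theorem cp_A (i : Fin r) (u w : P.X) : P.A i u w =
    if u = P.lm (P.D.s i) w ∧ P.len u.1 < P.len w.1 then 1 else 0 := by
  unfold A
  rw [Matrix.of_apply]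

open Classical in
/-- `E0` is a block of the operator of `G/B` -/
theorem E0_block {c : (Fin r → ℤ) → ℂ} (hc : P.Lab c) (v : P.D.W) (u : P.X) :
    P.D.E0 c v u.1 = if h : ∀ j ∈ P.J, P.D.rt v (al j) ∈ P.D.Pos then P.E0 c ⟨v, h⟩ u else 0 := by
  have hred : P.D.E0 c v u.1 = ∑ a ∈ P.Pos, if v = u.1 * P.D.refl a ∧ P.D.len v = P.D.len u.1 + 1 then c a else 0 := by
    unfold RS.E0
    rw [Matrix.of_apply]
    symm
    apply Finset.sum_subset
    · intro a ha
      exact (mem_Pos.1 ha).1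
    · intro a ha ha'
      have h1 : P.Levi a := by
        by_contra h2
        exact ha' (mem_Pos.2 ⟨ha, h2⟩)
      rw [hc.levi h1, ite_self]
  rw [hred]
  split_ifs with h
  · refine Eq.trans ?_ (cp_E0 c (⟨v, h⟩ : P.X) u).symm
    refine Finset.sum_congr rfl fun a ha => ?_
    have hiff : (v = u.1 * P.D.refl a ∧ P.D.len v = P.D.len u.1 + 1) ↔
        ((⟨v, h⟩ : P.X) = P.fl (u.1 * P.D.refl a) ∧ P.len v = P.len u.1 + 1) := ?_
    · by_cases hA : v = u.1 * P.D.refl a ∧ P.D.len v = P.D.len u.1 + 1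
      · rw [if_pos hA]
        exact (if_pos (hiff.1 hA)).symm
      · rw [if_neg hA]
        exact (if_neg (fun hB => hA (hiff.2 hB))).symm
    constructor
    · rintro ⟨e1, e2⟩
      refine ⟨?_, ?_⟩
      · rw [← e1]
        exact (fl_val (⟨v, h⟩ : P.X)).symm
      · have h1 := len_val (⟨v, h⟩ : P.X)
        have h2 := len_val u
        show P.len v = P.len u.1 + 1
        have h1' : P.len v = P.D.len v := h1
        omega
    · rintro ⟨e1, e2⟩
      have h1' : P.len v = P.D.len v := len_val (⟨v, h⟩ : P.X)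
      have h2 := len_val u
      have e2' : P.len v = P.len u.1 + 1 := e2
      have h3 : P.len (u.1 * P.D.refl a) = P.len u.1 + 1 := by
        rw [← len_fl, ← e1]
        exact e2
      have h4 := mem_X_of_len u ha h3
      have h5 : P.fl (u.1 * P.D.refl a) = ⟨u.1 * P.D.refl a, h4⟩ := fl_val (⟨u.1 * P.D.refl a, h4⟩ : P.X)
      rw [h5] at e1
      exact ⟨congrArg Subtype.val e1, by omega⟩
  · apply Finset.sum_eq_zero
    intro a ha
    rw [if_neg]
    rintro ⟨e1, e2⟩
    apply h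
    have h2 := len_val u
    have h3 := len_le (P := P) v
    have h4 : P.D.rt u.1 a ∈ P.D.Pos := by
      by_contra hcon
      have := RS.len_lt_of_neg u.1 (mem_Pos.1 ha).1 hcon
      rw [← e1] at this
      omega
    have h5 := len_lt_of_pos u.1 ha h4
    rw [← e1] at h5
    exact cp_X_of_len v (by omega)

open Classical in
theorem A_block (i : Fin r) (v : P.D.W) (u : P.X) :
    P.D.A i v u.1 = if h : ∀ j ∈ P.J, P.D.rt v (al j) ∈ P.D.Pos then P.A i ⟨v, h⟩ u else 0 := by
  unfold RS.A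
  rw [Matrix.of_apply]
  split_ifs with h1 h h
  · refine Eq.trans ?_ (cp_A i (⟨v, h⟩ : P.X) u).symm
    rw [if_pos]
    obtain ⟨e1, e2⟩ := h1
    have h2 : P.len v = P.D.len v := len_val (⟨v, h⟩ : P.X)
    have h3 := len_val u
    refine ⟨?_, ?_⟩
    · unfold lm
      rw [← e1]
      exact (fl_val (⟨v, h⟩ : P.X)).symm
    · show P.len v < P.len u.1
      omega
  · exfalso
    obtain ⟨e1, e2⟩ := h1
    rw [e1] at e2
    apply h
    rw [e1]
    exact (cp_D_down i u e2).1
  · refine Eq.trans ?_ (cp_A i (⟨v, h⟩ : P.X) u).symm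
    rw [if_neg]
    rintro ⟨e1, e2⟩
    apply h1
    have e2' : P.len v < P.len u.1 := e2
    have h2 : P.len (P.D.s i * u.1) = P.len v := by
      rw [← len_lm, ← e1]
    have h4 := cp_down i u (by omega)
    have h5 : P.lm (P.D.s i) u = ⟨P.D.s i * u.1, h4⟩ := fl_val (⟨P.D.s i * u.1, h4⟩ : P.X)
    rw [h5] at e1
    have h6 : P.len v = P.D.len v := len_val (⟨v, h⟩ : P.X)
    have h7 := len_val u
    exact ⟨congrArg Subtype.val e1, by omega⟩
  · rfl

private theorem cp_s_sq (i : Fin r) (w : P.X) : P.lm (P.D.s i) (P.lm (P.D.s i) w) = w := by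
  rw [← lm_mul, RS.s_mul_self, lm_one]

private theorem cp_mulA (M : Matrix P.X P.X ℂ) (i : Fin r) (u w : P.X) :
    (M * P.A i) u w = if P.len (P.D.s i * w.1) < P.len w.1 then M u (P.lm (P.D.s i) w) else 0 := by
  rw [Matrix.mul_apply, Finset.sum_eq_single (P.lm (P.D.s i) w)]
  · unfold A
    rw [Matrix.of_apply, len_lm]
    by_cases h : P.len (P.D.s i * w.1) < P.len w.1
    · rw [if_pos ⟨rfl, h⟩, if_pos h, mul_one]
    · rw [if_neg (fun h' => h h'.2), if_neg h, mul_zero]
  · intro v _ hv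
    unfold A
    rw [Matrix.of_apply, if_neg (fun h' => hv h'.1), mul_zero]
  · intro h
    exact absurd (Finset.mem_univ _) h

private theorem cp_Amul (M : Matrix P.X P.X ℂ) (i : Fin r) (u w : P.X) :
    (P.A i * M) u w = if P.len u.1 < P.len (P.D.s i * u.1) then M (P.lm (P.D.s i) u) w else 0 := by
  rw [Matrix.mul_apply, Finset.sum_eq_single (P.lm (P.D.s i) u)]
  · unfold A
    rw [Matrix.of_apply, len_lm]
    by_cases h : P.len u.1 < P.len (P.D.s i * u.1)
    · rw [if_pos ⟨(cp_s_sq i u).symm, h⟩, if_pos h, one_mul]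
    · rw [if_neg (fun h' => h h'.2), if_neg h, zero_mul]
  · intro v _ hv
    unfold A
    rw [Matrix.of_apply, if_neg, zero_mul]
    rintro ⟨h', -⟩
    apply hv
    rw [h', cp_s_sq]
  · intro h
    exact absurd (Finset.mem_univ _) h

open Classical in
private theorem cp_block (M : Matrix P.X P.X ℂ) (N N' : Matrix P.D.W P.D.W ℂ) (M' : Matrix P.X P.X ℂ)
    (h1 : ∀ (v u : P.X), N v.1 u.1 = M v u)
    (h2 : ∀ (v : P.D.W) (u : P.X), N' v u.1 = if h : ∀ j ∈ P.J, P.D.rt v (al j) ∈ P.D.Pos then M' ⟨v, h⟩ u else 0)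
    (u w : P.X) : (N * N') u.1 w.1 = (M * M') u w := by
  rw [Matrix.mul_apply, Matrix.mul_apply]
  symm
  refine Finset.sum_of_injOn (fun v : P.X => v.1) ?_ ?_ ?_ ?_
  · intro v _ v' _ h
    exact Subtype.ext h
  · intro v _
    exact Finset.mem_coe.2 (Finset.mem_univ _)
  · intro v _ hv
    rw [h2, dif_neg, mul_zero]
    intro h
    exact hv ⟨⟨v, h⟩, Finset.mem_coe.2 (Finset.mem_univ _), rfl⟩
  · intro v _
    rw [h1, h2, dif_pos v.2]
    rfl

theorem E0_A {c : (Fin r → ℤ) → ℂ} (hc : P.Lab c) (i : Fin r) :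
    P.E0 c * P.A i - P.A i * P.E0 c = -Matrix.diagonal fun w => c (P.D.rt w.1⁻¹ (al i)) := by
  classical
  ext u w
  have hE : ∀ (v u : P.X), P.D.E0 c v.1 u.1 = P.E0 c v u := by
    intro v u
    rw [E0_block hc, dif_pos v.2]
    rfl
  have hA : ∀ (v u : P.X), P.D.A i v.1 u.1 = P.A i v u := by
    intro v u
    rw [A_block, dif_pos v.2]
    rfl
  have h1 := cp_block (P.E0 c) (P.D.E0 c) (P.D.A i) (P.A i) hE (A_block i) u w
  have h2 := cp_block (P.A i) (P.D.A i) (P.D.E0 c) (P.E0 c) hA (E0_block hc) u w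
  have h3 := congrFun (congrFun (RS.E0_A (D := P.D) hc.odd i) u.1) w.1
  rw [Matrix.sub_apply, h1, h2, Matrix.neg_apply] at h3
  rw [Matrix.sub_apply, h3, Matrix.neg_apply]
  congr 1
  by_cases huw : u = w
  · subst huw
    rw [Matrix.diagonal_apply_eq, Matrix.diagonal_apply_eq]
  · rw [Matrix.diagonal_apply_ne _ huw, Matrix.diagonal_apply_ne _ (fun h => huw (Subtype.ext h))]

theorem Eq_A {c : (Fin r → ℤ) → ℂ} (hc : P.Lab c) (t : Fin r → ℂ) (k : ℤ) (i : Fin r) :
    P.Eq c t k * P.A i = P.A i * P.Eq c t k := by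
  have _ := hc
  ext u w
  rw [cp_mulA, cp_Amul]
  have hiff : ∀ a, u = P.fl (P.D.s i * w.1 * P.D.refl a) ↔ P.lm (P.D.s i) u = P.fl (w.1 * P.D.refl a) := by
    intro a
    rw [mul_assoc, ← lm_fl]
    constructor
    · intro h
      rw [h, cp_s_sq]
    · intro h
      rw [← h, cp_s_sq]
  have hlenu : ∀ a, P.lm (P.D.s i) u = P.fl (w.1 * P.D.refl a) → P.len (w.1 * P.D.refl a) = P.len (P.D.s i * u.1) := by
    intro a h
    rw [← len_fl, ← h, len_lm]
  have hlenu' : ∀ a, u = P.fl (P.D.s i * w.1 * P.D.refl a) → P.len (P.D.s i * w.1 * P.D.refl a) = P.len u.1 := by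
    intro a h
    rw [← len_fl, ← h]
  have hw := s_len (P := P) i w.1
  have hu := s_len (P := P) i u.1
  by_cases h1 : P.len (P.D.s i * w.1) < P.len w.1
  · rw [if_pos h1]
    have hw1 : (P.len (P.D.s i * w.1) : ℤ) = P.len w.1 - 1 := by
      split_ifs at hw <;> omega
    have hX := cp_down i w h1
    have hval : (P.lm (P.D.s i) w).1 = P.D.s i * w.1 := by
      have h5 : P.lm (P.D.s i) w = ⟨P.D.s i * w.1, hX⟩ := fl_val (⟨P.D.s i * w.1, hX⟩ : P.X)
      rw [h5]
    by_cases h2 : P.len u.1 < P.len (P.D.s i * u.1)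
    · rw [if_pos h2]
      have hu1 : (P.len (P.D.s i * u.1) : ℤ) = P.len u.1 + 1 := by
        split_ifs at hu <;> omega
      unfold Par.Eq
      rw [Matrix.of_apply, Matrix.of_apply]
      refine Finset.sum_congr rfl fun a _ => if_congr ?_ rfl rfl
      rw [hval, hiff, len_lm]
      constructor
      · rintro ⟨e1, e2, e3⟩
        exact ⟨e1, by omega, e3⟩
      · rintro ⟨e1, e2, e3⟩
        exact ⟨e1, by omega, e3⟩
    · rw [if_neg h2]
      unfold Par.Eq
      rw [Matrix.of_apply]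
      apply Finset.sum_eq_zero
      intro a ha
      rw [if_neg]
      rintro ⟨e1, e2, -⟩
      rw [hval] at e1 e2
      have h3 := len_bound w.1 ha
      rw [hlenu a ((hiff a).1 e1)] at h3
      have h4 := neg_abs_le ((P.len (P.D.s i * u.1) : ℤ) - P.len w.1)
      omega
  · rw [if_neg h1]
    by_cases h2 : P.len u.1 < P.len (P.D.s i * u.1)
    · rw [if_pos h2]
      have hu1 : (P.len (P.D.s i * u.1) : ℤ) = P.len u.1 + 1 := by
        split_ifs at hu <;> omega
      unfold Par.Eq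
      rw [Matrix.of_apply]
      symm
      apply Finset.sum_eq_zero
      intro a ha
      rw [if_neg]
      rintro ⟨e1, e2, -⟩
      rw [len_lm] at e2
      have h3 := len_bound (P.D.s i * w.1) ha
      rw [hlenu' a ((hiff a).2 e1)] at h3
      have h4 := neg_abs_le ((P.len u.1 : ℤ) - P.len (P.D.s i * w.1))
      omega
    · rw [if_neg h2]

end Pool.Agent.FLG.Par
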