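import Pool.Agent.FLG.BDefs
import Pool.Agent.FLG.LenS
import Pool.Agent.FLG.Rmat

/-!
# FLG-P-Defs: generalised flag varieties `G/P`

`P : Par r`: a root system `P.D` and the set `P.J` of the simple roots of the Levi subgroup. `P.X` numbers the
fixed points of the torus (minimal representatives of `W/W_J`), `P.Pos` are the positive roots outside the Levi
subgroup (tangent weights at `p`: `-p a`), `P.tr = 2ρ - 2ρ_J = c_1(G/P)`. Divisor classes and parameters `t` are
vectors `h : Fin r → ℂ` (`h = ∑ h_j α_j`) which are orthogonal to the simple coroots in `J` (`P.Inv h`).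
Names are those of RS.lean and BDefs.lean.
-/

set_option autoImplicit false

open scoped BigOperators
open Pool.Agent.DST.TE

namespace Pool.Agent.FLG

/-- a root system with a set of simple roots (a standard parabolic subgroup) -/
structure Par (r : ℕ) where
  D : RS r
  J : Finset (Fin r)

namespace Par

open RS

variable {r : ℕ} (P : Par r)

/-- the positive roots which are not roots of the Levi subgroup -/
def Pos : Finset (Fin r → ℤ) := P.D.Pos.filter fun a => ∃ i, i ∉ P.J ∧ a i ≠ 0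

/-- `a` is a root of the Levi subgroup -/
def Levi (a : Fin r → ℤ) : Prop := a ∈ P.D.Φ ∧ ∀ i, i ∉ P.J → a i = 0

/-- The fixed points of the torus in `G/P`: the elements `w` which are minimal in `w W_J`. -/
def X : Type := {w : P.D.W // ∀ j ∈ P.J, P.D.rt w (al j) ∈ P.D.Pos}

instance : DecidableEq P.X := inferInstanceAs (DecidableEq {w : P.D.W // _})

instance : Fintype P.X := inferInstanceAs
  (Fintype {w : P.D.W // ∀ j ∈ P.J, P.D.rt w (al j) ∈ P.D.Pos})

/-- the Weyl group of the Levi subgroup -/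
def WJ : Subgroup P.D.W := Subgroup.closure ((fun j => P.D.s j) '' (P.J : Set (Fin r)))

/-- the length of the coset `w W_J` -/
def len (w : P.D.W) : ℕ := (P.Pos.filter fun a => P.D.rt w a ∉ P.D.Pos).card

/-- the base point -/
def one : P.X := ⟨1, fun j _ => by
  rw [P.D.rt_one]
  exact al_pos P.D j⟩

open Classical in
/-- the minimal representative of `w W_J` -/
noncomputable def fl (w : P.D.W) : P.X :=
  if h : ∃ p : P.X, p.1⁻¹ * w ∈ P.WJ then h.choose else P.one

/-- the action of the Weyl group on the fixed points -/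
noncomputable def lm (w : P.D.W) (p : P.X) : P.X := P.fl (w * p.1)

/-- `c_1 = 2ρ - 2ρ_J` -/
def tr : Fin r → ℤ := ∑ a ∈ P.Pos, a

def dm : ℕ := P.Pos.card

/-- `⟨c_1, a^∨⟩` -/
def L (a : Fin r → ℤ) : ℤ := dotProduct (P.D.co a) P.tr

/-- The classical part of the quantum Chevalley operator. -/
noncomputable def E0 (c : (Fin r → ℤ) → ℂ) : Matrix P.X P.X ℂ := Matrix.of fun u w =>
  ∑ a ∈ P.Pos, if u = P.fl (w.1 * P.D.refl a) ∧ P.len u.1 = P.len w.1 + 1 then c a else 0

/-- The quantum part in which the curve classes have degree `c_1 = k`. -/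
noncomputable def Eq (c : (Fin r → ℤ) → ℂ) (t : Fin r → ℂ) (k : ℤ) : Matrix P.X P.X ℂ :=
  Matrix.of fun u w => ∑ a ∈ P.Pos,
    if u = P.fl (w.1 * P.D.refl a) ∧ (P.len u.1 : ℤ) + P.L a = P.len w.1 + 1 ∧ P.L a = k then
      c a * qq t (P.D.co a) else 0

/-- The quantum Chevalley operator of `G/P` with labels `c a`. -/
noncomputable def E (c : (Fin r → ℤ) → ℂ) (t : Fin r → ℂ) : Matrix P.X P.X ℂ :=
  Matrix.of fun u w => ∑ a ∈ P.Pos, if u = P.fl (w.1 * P.D.refl a) then c a *
    ((if P.len u.1 = P.len w.1 + 1 then 1 else 0) +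
      (if (P.len u.1 : ℤ) + P.L a = P.len w.1 + 1 then qq t (P.D.co a) else 0)) else 0

/-- the left divided difference operators -/
noncomputable def A (i : Fin r) : Matrix P.X P.X ℂ := Matrix.of fun u w =>
  if u = P.lm (P.D.s i) w ∧ P.len u.1 < P.len w.1 then 1 else 0

/-- the affine left divided difference operators -/
noncomputable def Aθ (b : Fin r → ℤ) (t : Fin r → ℂ) : Matrix P.X P.X ℂ := Matrix.of fun u w =>
  if u = P.lm (P.D.refl b) w ∧ P.D.rt w.1⁻¹ b ∈ P.Pos then qq t (-P.D.co (P.D.rt w.1⁻¹ b)) else 0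

/-- the operators of the elements of length `0` -/
noncomputable def Mτ (x : P.D.W) (ν : Fin r → ℤ) (t : Fin r → ℂ) : Matrix P.X P.X ℂ :=
  Matrix.of fun u w => if u = P.lm x w then qq t (P.D.yt u.1⁻¹ ν) else 0

/-- `h` is a divisor class of `G/P` -/
def Inv (h : Fin r → ℂ) : Prop := ∀ j ∈ P.J, P.D.ch h (al j) = 0

/-- labels of divisor classes of `G/P` -/
structure Lab (c : (Fin r → ℤ) → ℂ) : Prop where
  odd : ∀ a ∈ P.D.Φ, c (-a) = -c a
  inv : ∀ v ∈ P.WJ, ∀ a ∈ P.D.Φ, c (P.D.rt v a) = c a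

/-- `c_1` as a divisor class -/
def ctr : Fin r → ℂ := fun j => (P.tr j : ℂ)

/-- The classical product with the equivariant class `h`. -/
noncomputable def C0 (h y : Fin r → ℂ) : Matrix P.X P.X ℂ :=
  P.E0 (P.D.ch h) - Matrix.diagonal fun u => P.D.hv h u.1 y

/-- The quantum product with the equivariant class `h`. -/
noncomputable def Cq (h t y : Fin r → ℂ) : Matrix P.X P.X ℂ :=
  P.E (P.D.ch h) t - Matrix.diagonal fun u => P.D.hv h u.1 y

/-- The eigenvalues of `θ`. -/
noncomputable def th (u : P.X) : ℂ := (P.dm : ℂ) / 2 - P.len u.1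

/-- bound of the degrees of the quantum terms -/
def KK : ℕ := ∑ a ∈ P.Pos, (P.L a).toNat

/-- the graded pieces of the product with `c_1` -/
noncomputable def Cg (t : Fin r → ℂ) (k : ℕ) (y : Fin r → ℂ) : Matrix P.X P.X ℂ :=
  if k = 0 then P.C0 P.ctr y else P.Eq (P.D.ch P.ctr) t k

open Classical in
/-- `M` is the matrix of the left action of `w` on `H_T(G/P)`, a block of the one of `G/B`. -/
structure IsLeft (w : P.D.W) (M : (Fin r → ℂ) → Matrix P.X P.X ℂ) : Prop where
  diff : ∀ u v, Differentiable ℂ fun y => M y u v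
  zero : M 0 = 1
  det : ∀ y, (M y).det = 1
  homog : ∀ (x : ℂ) (y : Fin r → ℂ) u v,
    x ^ P.len u.1 * M (fun i => x * y i) u v = x ^ P.len v.1 * M y u v
  one : ∀ y u, M y u P.one = if u = P.one then 1 else 0
  comm0 : ∀ h, P.Inv h → ∀ y, P.C0 h y * M y = M y * P.C0 h (P.D.yt w⁻¹ y)
  commq : ∀ c, P.Lab c → ∀ t, P.Inv t → ∀ k y, P.Eq c t k * M y = M y * P.Eq c t k
  lift : ∃ M', P.D.IsLeft w M' ∧ ∀ y (v : P.D.W) (u : P.X), M' y v u.1 =
    if h : ∀ j ∈ P.J, P.D.rt v (al j) ∈ P.D.Pos then M y ⟨v, h⟩ u else 0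

/-- `Rm y p w` is the restriction of the Schubert class of `w` to the fixed point `p` -/
noncomputable def Rm (y : Fin r → ℂ) : Matrix P.X P.X ℂ := Matrix.of fun p w => P.D.Rm y p.1 w.1

/-- no integral root and no resonance at `y` -/
def SG (y : Fin r → ℂ) : Prop := (∀ a ∈ P.D.Φ, ∀ n : ℤ, pr a y ≠ n) ∧
  ∀ p q : P.X, p ≠ q → ∀ n : ℤ, pr (P.D.rt p.1 P.tr) y - pr (P.D.rt q.1 P.tr) y ≠ n

/-- The factor `e^{t + πi c_1} Γ` at the fixed point `v`. -/
noncomputable def gam (t : Fin r → ℂ) (v : P.X) (y : Fin r → ℂ) : ℂ :=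
  Complex.exp (-P.D.hv t v.1 y - Real.pi * Complex.I * pr (P.D.rt v.1 P.tr) y) *
    ∏ a ∈ P.Pos, Complex.Gamma (1 + pr (P.D.rt v.1 a) y)

/-- The family of matrices `M(λ, z)` intertwines the quantum differential equations at `x⁻¹ y` and at
`y`, `x = t_ν w`, `λ = y z`, `z = e^s`. -/
def Inter (t : Fin r → ℂ) (w : P.D.W) (ν : Fin r → ℤ)
    (M : (Fin r → ℂ) → ℂ → Matrix P.X P.X ℂ) : Prop :=
  ∀ (y : Fin r → ℂ) (s : ℂ) (u v : P.X),
  HasDerivAt (fun s => M (fun i => y i * Complex.exp s) (Complex.exp s) u v)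
    (((Matrix.diagonal P.th - Complex.exp (-s) • P.Cq P.ctr t (fun i => y i * Complex.exp s)) *
        M (fun i => y i * Complex.exp s) (Complex.exp s) -
      M (fun i => y i * Complex.exp s) (Complex.exp s) *
        (Matrix.diagonal P.th - Complex.exp (-s) •
          P.Cq P.ctr t (fun i => P.D.xi w ν y i * Complex.exp s))) u v) s

/-- the matrices of the elementary elements -/
noncomputable def Ms (i : Fin r) (y : Fin r → ℂ) (_z : ℂ) : Matrix P.X P.X ℂ :=
  1 - pr (al i) y • P.A i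

noncomputable def Mθ (t : Fin r → ℂ) (b : Fin r → ℤ) (y : Fin r → ℂ) (z : ℂ) :
    Matrix P.X P.X ℂ := 1 + (z + pr b y) • P.Aθ b t

end Par

end Pool.Agent.FLG
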