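import Pool.Agent.FLG.P.Num
import Pool.Agent.DSTJ.JOde

/-!
# FLG-P-FBase: the solutions at the fixed points

PLAN. As FBase.lean for `G/B` (copy the proofs).
-/

set_option autoImplicit false

open scoped BigOperators Topology
open Filter
open Pool.Agent.DST.TE Pool.Agent.DSTJ

namespace Pool.Agent.FLG.Par

open RS

variable {r : ℕ} {P : Par r} {N : ℕ} (n : P.Num N) (t : Fin r → ℂ)

/-- the equation -/
noncomputable def toBase : Base r N where
  θ := fun p => P.th (n.e p)
  K := P.KK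
  C := fun k y => (P.Cg t k y).submatrix n.e n.e
  C_hol := fun k i j => Cg_diff t k _ _
  C_big := fun k hk y => by rw [Cg_big t hk y]; rfl
  e := fun p => -P.D.rt (n.e p).1 P.tr
  I := {a // a ∈ P.D.Φ}
  finI := inferInstance
  wt := fun a => a.1
  R := fun y => (P.Rm y).submatrix n.e n.e
  R_hol := fun i j => Rm_diff _ _
  R_comm := fun y => base_R_comm n t y
  R_det := fun y hy => base_R_det n y hy
  ξ := n.ξ
  ξ_wt := fun a => ξ_ne n a.2
  ξ_e := base_ξ_e n

/-- the solutions attached to the fixed points -/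
noncomputable def FF (y : Fin r → ℂ) (s : ℂ) : Matrix P.X P.X ℂ :=
  ((toBase n t).EE y s * Matrix.diagonal fun p => Complex.exp (-s * pr ((toBase n t).e p) y)).submatrix
    n.e.symm n.e.symm

private theorem pr_neg' (a : Fin r → ℤ) (y : Fin r → ℂ) : pr (-a) y = -pr a y := by
  simp only [pr, Pi.neg_apply, Int.cast_neg, neg_mul, Finset.sum_neg_distrib]

theorem sg_nr {y : Fin r → ℂ} (hy : P.SG y) : (toBase n t).NR y := by
  intro p q k hk h
  have h1 : pr (-P.D.rt (n.e p).1 P.tr) y - pr (-P.D.rt (n.e q).1 P.tr) y = k := h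
  rw [pr_neg', pr_neg'] at h1
  by_cases hpq : p = q
  · subst hpq
    apply hk
    have h2 : ((k : ℤ) : ℂ) = 0 := by
      rw [← h1]
      ring
    exact_mod_cast h2
  · apply hy.2 (n.e q) (n.e p) (fun e => hpq (n.e.injective e).symm) k
    rw [← h1]
    ring

theorem sg_w1 {y : Fin r → ℂ} (hy : P.SG y) : (toBase n t).W1 y :=
  fun k m => hy.1 k.1 k.2 m

private theorem exp_diag' (v : Fin N → ℂ) (w : ℂ) :
    NormedSpace.exp (w • Matrix.diagonal v) = Matrix.diagonal fun a => Complex.exp (w * v a) := by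
  have h1 : w • Matrix.diagonal v = Matrix.diagonal fun a => w * v a := by
    rw [← Matrix.diagonal_smul]
    rfl
  rw [h1, Matrix.exp_diagonal]
  congr 1
  funext a
  rw [Pi.coe_exp, Complex.exp_eq_exp_ℂ]

private theorem EE_entry (y : Fin r → ℂ) (s : ℂ) (i j : Fin N) :
    (toBase n t).EE y s i j = Complex.exp (s * P.th (n.e i)) *
      ((toBase n t).cal y (Complex.exp (-s)) * ((toBase n t).R y)⁻¹) i j := by
  have h : NormedSpace.exp (s • Matrix.diagonal (toBase n t).θ) =
      Matrix.diagonal fun a => Complex.exp (s * (toBase n t).θ a) := exp_diag' _ _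
  rw [Base.EE, h, Matrix.mul_assoc, Matrix.diagonal_mul]
  rfl

private theorem FF_entry (y : Fin r → ℂ) (s : ℂ) (u v : P.X) :
    FF n t y s u v = Complex.exp (s * P.th u) *
      ((toBase n t).cal y (Complex.exp (-s)) * ((toBase n t).R y)⁻¹) (n.e.symm u) (n.e.symm v) *
      Complex.exp (s * pr (P.D.rt v.1 P.tr) y) := by
  unfold FF
  rw [Matrix.submatrix_apply, Matrix.mul_diagonal, EE_entry]
  have h1 : pr ((toBase n t).e (n.e.symm v)) y = -pr (P.D.rt v.1 P.tr) y := by
    show pr (-P.D.rt (n.e (n.e.symm v)).1 P.tr) y = _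
    rw [n.e.apply_symm_apply, pr_neg']
  rw [h1, n.e.apply_symm_apply, neg_mul_neg]

theorem FF_ode {y : Fin r → ℂ} (hy : P.SG y) (s : ℂ) (u v : P.X) :
    HasDerivAt (fun s => FF n t y s u v) (((Matrix.diagonal P.th -
      Complex.exp (-s) • P.Cq P.ctr t (fun i => y i * Complex.exp s)) * FF n t y s) u v) s := by
  have hR : ((toBase n t).R y).det ≠ 0 := base_R_det n y fun a => by
    have h1 := hy.1 a.1 a.2 0
    simpa using h1
  have hJ : ∀ s, (toBase n t).J0 (fun y => ((toBase n t).R y)⁻¹) y s =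
      (toBase n t).EE y s * Matrix.diagonal fun p => Complex.exp (-s * pr ((toBase n t).e p) y) := by
    intro s
    rw [Base.J0_EE _ hR, Matrix.mul_nonsing_inv _ (isUnit_iff_ne_zero.2 hR), Matrix.mul_one]
  have h := (toBase n t).J0_ode (G := fun y => ((toBase n t).R y)⁻¹) (sg_nr n t hy)
    (fun s => (P.Cq P.ctr t (fun i => y i * Complex.exp s)).submatrix n.e n.e)
    (fun w i j => C_graded t y w (n.e i) (n.e j)) s (n.e.symm u) (n.e.symm v)
  simp only [hJ] at h
  refine HasDerivAt.congr_deriv (f := fun s => FF n t y s u v) h ?_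
  rw [Matrix.mul_apply, Matrix.mul_apply, ← Equiv.sum_comp n.e]
  refine Finset.sum_congr rfl fun p _ => ?_
  have h1 : FF n t y s (n.e p) v = ((toBase n t).EE y s *
      Matrix.diagonal fun p => Complex.exp (-s * pr ((toBase n t).e p) y)) p (n.e.symm v) := by
    unfold FF
    rw [Matrix.submatrix_apply, n.e.symm_apply_apply]
  rw [h1]
  congr 1
  rw [Matrix.sub_apply, Matrix.sub_apply, Matrix.smul_apply, Matrix.smul_apply,
    Matrix.submatrix_apply, n.e.apply_symm_apply]
  congr 1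
  rw [Matrix.diagonal_apply, Matrix.diagonal_apply]
  by_cases hu : n.e.symm u = p
  · rw [if_pos hu, if_pos (by rw [← hu, n.e.apply_symm_apply])]
    show P.th (n.e (n.e.symm u)) = _
    rw [n.e.apply_symm_apply]
  · rw [if_neg hu, if_neg fun h2 => hu (by rw [h2, n.e.symm_apply_apply])]

theorem FF_period (y : Fin r → ℂ) (s : ℂ) (u v : P.X) :
    FF n t y (s + 2 * Real.pi * Complex.I) u v = (-1) ^ P.dm *
      Complex.exp (2 * Real.pi * Complex.I * pr (P.D.rt v.1 P.tr) y) * FF n t y s u v := by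
  rw [FF_entry, FF_entry]
  have h1 : Complex.exp (-(s + 2 * Real.pi * Complex.I)) = Complex.exp (-s) := by
    rw [neg_add, Complex.exp_add, Complex.exp_neg (2 * Real.pi * Complex.I),
      Complex.exp_two_pi_mul_I, inv_one, mul_one]
  have h2 : Complex.exp ((s + 2 * Real.pi * Complex.I) * P.th u) =
      (-1) ^ P.dm * Complex.exp (s * P.th u) := by
    have h3 : (s + 2 * Real.pi * Complex.I) * P.th u = (P.dm : ℕ) * (Real.pi * Complex.I) +
        ((-(P.len u.1 : ℤ) : ℤ) * (2 * Real.pi * Complex.I) + s * P.th u) := by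
      unfold th
      push_cast
      ring
    rw [h3, Complex.exp_add, Complex.exp_add, Complex.exp_nat_mul, Complex.exp_pi_mul_I,
      Complex.exp_int_mul_two_pi_mul_I, one_mul]
  have h4 : Complex.exp ((s + 2 * Real.pi * Complex.I) * pr (P.D.rt v.1 P.tr) y) =
      Complex.exp (2 * Real.pi * Complex.I * pr (P.D.rt v.1 P.tr) y) *
        Complex.exp (s * pr (P.D.rt v.1 P.tr) y) := by
    rw [← Complex.exp_add]
    congr 1
    ring
  rw [h1, h2, h4]
  ring

theorem FF_lim {y : Fin r → ℂ} (hy : P.SG y) (u v : P.X) :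
    Tendsto (fun s : ℝ => Complex.exp (-s * P.th u) * Complex.exp (-s * pr (P.D.rt v.1 P.tr) y) *
      FF n t y s u v) atTop (𝓝 ((P.Rm y)⁻¹ u v)) := by
  have h0 : Tendsto (fun s : ℝ => Complex.exp (s : ℂ)) atTop (Bornology.cobounded ℂ) := by
    rw [← tendsto_norm_atTop_iff_cobounded]
    have h1 : (fun s : ℝ => ‖Complex.exp (s : ℂ)‖) = fun s : ℝ => Real.exp s := by
      funext s
      rw [Complex.norm_exp, Complex.ofReal_re]
    rw [h1]
    exact Real.tendsto_exp_atTop
  have h1 : ∀ s : ℝ, Complex.exp (-s * P.th u) * Complex.exp (-s * pr (P.D.rt v.1 P.tr) y) *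
      FF n t y s u v = ∑ k, (toBase n t).cal y (Complex.exp (s : ℂ))⁻¹ (n.e.symm u) k *
        ((toBase n t).R y)⁻¹ k (n.e.symm v) := by
    intro s
    rw [FF_entry, ← Matrix.mul_apply, ← Complex.exp_neg]
    have h2 : Complex.exp (-s * P.th u) * Complex.exp (s * P.th u) = 1 := by
      rw [← Complex.exp_add, neg_mul, neg_add_cancel, Complex.exp_zero]
    have h3 : Complex.exp (-s * pr (P.D.rt v.1 P.tr) y) * Complex.exp (s * pr (P.D.rt v.1 P.tr) y) = 1 := by
      rw [← Complex.exp_add, neg_mul, neg_add_cancel, Complex.exp_zero]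
    linear_combination (((toBase n t).cal y (Complex.exp (-s)) * ((toBase n t).R y)⁻¹)
      (n.e.symm u) (n.e.symm v)) * (Complex.exp (-s * pr (P.D.rt v.1 P.tr) y) *
        Complex.exp (s * pr (P.D.rt v.1 P.tr) y)) * h2 +
      (((toBase n t).cal y (Complex.exp (-s)) * ((toBase n t).R y)⁻¹)
      (n.e.symm u) (n.e.symm v)) * h3
  simp only [h1]
  have h4 : (P.Rm y)⁻¹ u v = ∑ k, (1 : Matrix (Fin N) (Fin N) ℂ) (n.e.symm u) k *
        ((toBase n t).R y)⁻¹ k (n.e.symm v) := by
    rw [← Matrix.mul_apply, Matrix.one_mul]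
    have h5 : ((toBase n t).R y)⁻¹ = ((P.Rm y)⁻¹).submatrix n.e n.e :=
      Matrix.inv_submatrix_equiv _ _ _
    rw [h5, Matrix.submatrix_apply, n.e.apply_symm_apply, n.e.apply_symm_apply]
  rw [h4]
  refine tendsto_finsetSum _ fun k _ => Tendsto.mul_const _ ?_
  exact ((toBase n t).cal_lim (sg_nr n t hy) (n.e.symm u) k).comp h0


/-- a solution of a linear equation which vanishes at `0` vanishes at `1` -/
private theorem fd_zero {ι : Type} [Fintype ι] {B : ℝ → Matrix ι ι ℂ}
    (hB : ∀ i j, Continuous fun τ => B τ i j) {Z : ℝ → ι → ℂ}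
    (hZ : ∀ τ i, HasDerivAt (fun τ => Z τ i) (((B τ).mulVec (Z τ)) i) τ) (h0 : Z 0 = 0) :
    Z 1 = 0 := by
  have hb : ∀ i j, ∃ C : ℝ, ∀ τ ∈ Set.Icc (0 : ℝ) 1, ‖B τ i j‖ ≤ C := fun i j =>
    isCompact_Icc.exists_bound_of_continuousOn (hB i j).continuousOn
  choose C hC using hb
  have hC0 : ∀ i j, 0 ≤ C i j := fun i j =>
    (norm_nonneg _).trans (hC i j 0 (Set.left_mem_Icc.2 zero_le_one))
  have hZ' : ∀ τ, HasDerivAt Z ((B τ).mulVec (Z τ)) τ := fun τ => hasDerivAt_pi.2 (hZ τ)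
  have h1 := norm_le_gronwallBound_of_norm_deriv_right_le (f := Z)
    (f' := fun τ => (B τ).mulVec (Z τ)) (δ := 0) (K := ∑ i, ∑ j, C i j) (ε := 0) (a := 0) (b := 1)
    (fun τ _ => (hZ' τ).continuousAt.continuousWithinAt) (fun τ _ => (hZ' τ).hasDerivWithinAt)
    (by rw [h0, norm_zero]) (fun τ hτ => ?_) 1 (Set.right_mem_Icc.2 zero_le_one)
  · rw [gronwallBound_ε0_δ0] at h1
    exact norm_le_zero_iff.1 h1
  · rw [add_zero]
    have hS0 : ∀ i, 0 ≤ ∑ j, C i j := fun i => Finset.sum_nonneg fun j _ => hC0 i j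
    refine (pi_norm_le_iff_of_nonneg (mul_nonneg (Finset.sum_nonneg fun i _ => hS0 i)
      (norm_nonneg _))).2 fun i => ?_
    show ‖∑ j, B τ i j * Z τ j‖ ≤ _
    calc ‖∑ j, B τ i j * Z τ j‖ ≤ ∑ j, ‖B τ i j * Z τ j‖ := norm_sum_le _ _
      _ ≤ ∑ j, C i j * ‖Z τ‖ := by
          refine Finset.sum_le_sum fun j _ => ?_
          rw [norm_mul]
          exact mul_le_mul (hC i j τ ⟨hτ.1, hτ.2.le⟩) (norm_le_pi_norm (Z τ) j) (norm_nonneg _)
            (hC0 i j)
      _ = (∑ j, C i j) * ‖Z τ‖ := by rw [Finset.sum_mul]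
      _ ≤ (∑ i, ∑ j, C i j) * ‖Z τ‖ :=
          mul_le_mul_of_nonneg_right (Finset.single_le_sum (f := fun i => ∑ j, C i j)
            (fun i _ => hS0 i) (Finset.mem_univ i)) (norm_nonneg _)


private theorem fd_cont (y : Fin r → ℂ) (u v : P.X) : Continuous fun s : ℂ =>
    (Matrix.diagonal P.th - Complex.exp (-s) • P.Cq P.ctr t (fun i => y i * Complex.exp s)) u v := by
  simp only [Matrix.sub_apply, Matrix.smul_apply, smul_eq_mul, Cq, Matrix.diagonal_apply]
  split_ifs
  · unfold hv yt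
    fun_prop
  · fun_prop

theorem FF_det {y : Fin r → ℂ} (hy : P.SG y) (s : ℂ) : (FF n t y s).det ≠ 0 := by
  intro hdet
  obtain ⟨c, hc0, hc⟩ := Matrix.exists_mulVec_eq_zero_iff.2 hdet
  -- the determinant vanishes on the real axis
  have hall : ∀ x : ℝ, (FF n t y x).det = 0 := by
    intro x
    refine Matrix.exists_mulVec_eq_zero_iff.1 ⟨c, hc0, ?_⟩
    have hv : ∀ τ : ℝ, HasDerivAt (fun τ : ℝ => s + (τ : ℂ) * ((x : ℂ) - s)) ((x : ℂ) - s) τ := by
      intro τ
      have h1 : HasDerivAt (fun τ : ℝ => (τ : ℂ)) 1 τ := Complex.ofRealCLM.hasDerivAt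
      have h2 := (h1.mul_const ((x : ℂ) - s)).const_add s
      simpa using h2
    have hvc : Continuous fun τ : ℝ => s + (τ : ℂ) * ((x : ℂ) - s) := by fun_prop
    have h1 := fd_zero (ι := P.X)
      (B := fun τ : ℝ => ((x : ℂ) - s) • (Matrix.diagonal P.th -
        Complex.exp (-(s + (τ : ℂ) * ((x : ℂ) - s))) •
          P.Cq P.ctr t (fun i => y i * Complex.exp (s + (τ : ℂ) * ((x : ℂ) - s)))))
      (Z := fun τ : ℝ => (FF n t y (s + (τ : ℂ) * ((x : ℂ) - s))).mulVec c) ?_ ?_ ?_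
    · have e1 : s + ((1 : ℝ) : ℂ) * ((x : ℂ) - s) = x := by push_cast; ring
      rw [e1] at h1
      exact h1
    · intro i j
      have h2 := (fd_cont t y i j).comp hvc
      exact continuous_const.mul h2
    · intro τ i
      have h2 : HasDerivAt (fun w : ℂ => ∑ k, FF n t y w i k * c k)
          (∑ k, ((Matrix.diagonal P.th - Complex.exp (-(s + (τ : ℂ) * ((x : ℂ) - s))) •
            P.Cq P.ctr t (fun i => y i * Complex.exp (s + (τ : ℂ) * ((x : ℂ) - s)))) *
              FF n t y (s + (τ : ℂ) * ((x : ℂ) - s))) i k * c k) (s + (τ : ℂ) * ((x : ℂ) - s)) :=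
        HasDerivAt.fun_sum fun k _ => (FF_ode n t hy _ i k).mul_const _
      have h3 := HasDerivAt.comp τ h2 (hv τ)
      refine h3.congr_deriv ?_
      rw [Matrix.smul_mulVec, Pi.smul_apply, smul_eq_mul, Matrix.mulVec_mulVec, mul_comm]
      rfl
    · have e0 : s + ((0 : ℝ) : ℂ) * ((x : ℂ) - s) = s := by push_cast; ring
      rw [e0]
      exact hc
  -- the limit
  have hlim : Tendsto (fun x : ℝ => (Matrix.of fun u v : P.X =>
      Complex.exp (-x * P.th u) * Complex.exp (-x * pr (P.D.rt v.1 P.tr) y) * FF n t y x u v :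
        Matrix P.X P.X ℂ)) atTop (𝓝 ((P.Rm y)⁻¹)) :=
    tendsto_pi_nhds.2 fun u => tendsto_pi_nhds.2 fun v => FF_lim n t hy u v
  have h2 : Continuous fun M : Matrix P.X P.X ℂ => M.det := continuous_id.matrix_det
  have h3 := (h2.tendsto ((P.Rm y)⁻¹)).comp hlim
  have h4 : ∀ x : ℝ, ((fun M : Matrix P.X P.X ℂ => M.det) ∘ fun x : ℝ => (Matrix.of fun u v : P.X =>
      Complex.exp (-x * P.th u) * Complex.exp (-x * pr (P.D.rt v.1 P.tr) y) * FF n t y x u v :
        Matrix P.X P.X ℂ)) x = 0 := by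
    intro x
    have h5 : (Matrix.of fun u v : P.X =>
        Complex.exp (-x * P.th u) * Complex.exp (-x * pr (P.D.rt v.1 P.tr) y) * FF n t y x u v :
          Matrix P.X P.X ℂ) = Matrix.diagonal (fun u => Complex.exp (-x * P.th u)) * FF n t y x *
            Matrix.diagonal fun v => Complex.exp (-x * pr (P.D.rt v.1 P.tr) y) := by
      ext u v
      rw [Matrix.mul_diagonal, Matrix.diagonal_mul, Matrix.of_apply]
      ring
    show (Matrix.of fun u v : P.X =>
        Complex.exp (-x * P.th u) * Complex.exp (-x * pr (P.D.rt v.1 P.tr) y) * FF n t y x u v :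
          Matrix P.X P.X ℂ).det = 0
    rw [h5, Matrix.det_mul, Matrix.det_mul, hall x, mul_zero, zero_mul]
  have h5 : ((P.Rm y)⁻¹).det = 0 :=
    tendsto_nhds_unique h3 (tendsto_const_nhds.congr fun x => (h4 x).symm)
  rw [Matrix.det_nonsing_inv, Ring.inverse_eq_inv', inv_eq_zero] at h5
  refine Rm_det_ne (P := P) (y := y) (fun a ha => ?_) h5
  have h6 := hy.1 a ha 0
  rwa [Int.cast_zero] at h6

end Pool.Agent.FLG.Par
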