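import Pool.Agent.FLG.P.FBase
import Pool.Agent.FLG.P.Ode
import Pool.Agent.FLG.Good

/-!
# FLG-P-Good: elements of the extended affine Weyl group with a good matrix

As for `G/B`.
-/

set_option autoImplicit false

open scoped BigOperators Topology
open Filter
open Pool.Agent.DST.TE Pool.Agent.DSTJ

namespace Pool.Agent.FLG.Par

open RS

variable {r : ℕ} {P : Par r} {N : ℕ} (n : P.Num N) (t : Fin r → ℂ)

theorem sg_xi {y : Fin r → ℂ} (hy : P.SG y) (w : P.D.W) (ν : Fin r → ℤ) :
    P.SG (P.D.xi w ν y) := by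
  refine ⟨fun a ha k h => ?_, fun p q hpq k h => ?_⟩
  · rw [pr_xi] at h
    refine hy.1 (P.D.rt w a) (P.D.rt_mem.2 ha) (k - dotProduct ν (P.D.rt w a)) ?_
    push_cast
    rw [← h]
    ring
  · rw [pr_xi, pr_xi, ← P.D.rt_mul, ← P.D.rt_mul, ← rt_lm_tr, ← rt_lm_tr] at h
    have hne : P.lm w p ≠ P.lm w q := by
      intro h1
      apply hpq
      rw [← lm_inv_lm w p, h1, lm_inv_lm]
    refine hy.2 (P.lm w p) (P.lm w q) hne
      (k - dotProduct ν (P.D.rt (P.lm w p).1 P.tr) + dotProduct ν (P.D.rt (P.lm w q).1 P.tr)) ?_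
    push_cast
    rw [← h]
    ring

private theorem diff_det' {n : Type*} [Fintype n] [DecidableEq n] {F : ℂ → Matrix n n ℂ} {s : ℂ}
    (h : ∀ i j, DifferentiableAt ℂ (fun s => F s i j) s) :
    DifferentiableAt ℂ (fun s => (F s).det) s := by
  simp only [Matrix.det_apply]
  refine DifferentiableAt.fun_sum fun σ _ => ?_
  refine DifferentiableAt.const_smul ?_ _
  exact DifferentiableAt.fun_finsetProd fun i _ => h _ _

private theorem diff_inv' {n : Type*} [Fintype n] [DecidableEq n] {F : ℂ → Matrix n n ℂ} {s : ℂ}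
    (h : ∀ i j, DifferentiableAt ℂ (fun s => F s i j) s) (hd : (F s).det ≠ 0) (i j : n) :
    DifferentiableAt ℂ (fun s => (F s)⁻¹ i j) s := by
  have h1 : (fun s => (F s)⁻¹ i j) =
      fun s => ((F s).det)⁻¹ * ((F s).updateRow j (Pi.single i 1)).det := by
    funext s
    rw [Matrix.inv_def, Matrix.smul_apply, Matrix.adjugate_apply, smul_eq_mul, Ring.inverse_eq_inv']
  rw [h1]
  refine DifferentiableAt.mul ((diff_det' h).inv hd) (diff_det' fun k l => ?_)
  by_cases hk : k = j
  · subst hk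
    simp only [Matrix.updateRow_self]
    exact differentiableAt_const _
  · simp only [Matrix.updateRow_ne hk]
    exact h k l

theorem FF_unique {y : Fin r → ℂ} (hy : P.SG y) {Y : ℂ → P.X → ℂ}
    (hode : ∀ s u, HasDerivAt (fun s => Y s u) (((Matrix.diagonal P.th -
      Complex.exp (-s) • P.Cq P.ctr t (fun i => y i * Complex.exp s)).mulVec (Y s)) u) s) {v : P.X}
    (hper : ∀ s u, Y (s + 2 * Real.pi * Complex.I) u = (-1) ^ P.dm *
      Complex.exp (2 * Real.pi * Complex.I * pr (P.D.rt v.1 P.tr) y) * Y s u) :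
    ∃ h : ℂ, ∀ s u, Y s u = h * FF n t y s u v := by
  obtain ⟨a, ha⟩ : ∃ a : ℂ → P.X → ℂ, a = fun s => ((FF n t y s)⁻¹).mulVec (Y s) := ⟨_, rfl⟩
  have hF : ∀ s, (FF n t y s).det ≠ 0 := fun s => FF_det n t hy s
  have hode' := FF_ode n t hy
  have hYa : ∀ s u, Y s u = ∑ q, FF n t y s u q * a s q := by
    intro s u
    have h1 : (FF n t y s).mulVec (a s) = Y s := by
      rw [ha]
      show (FF n t y s).mulVec (((FF n t y s)⁻¹).mulVec (Y s)) = Y s
      rw [Matrix.mulVec_mulVec, Matrix.mul_nonsing_inv _ (isUnit_iff_ne_zero.2 (hF s)),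
        Matrix.one_mulVec]
    exact (congrFun h1 u).symm
  have hker : ∀ s (b : P.X → ℂ), (∀ u, ∑ q, FF n t y s u q * b q = 0) → ∀ q, b q = 0 := by
    intro s b hb q
    have h1 : (FF n t y s).mulVec b = 0 := by
      funext u
      exact hb u
    have h2 : b = 0 := by
      have h3 := congrArg (fun x => ((FF n t y s)⁻¹).mulVec x) h1
      simp only [Matrix.mulVec_mulVec, Matrix.mulVec_zero] at h3
      rwa [Matrix.nonsing_inv_mul _ (isUnit_iff_ne_zero.2 (hF s)), Matrix.one_mulVec] at h3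
    exact congrFun h2 q
  have had : ∀ q, Differentiable ℂ fun s => a s q := by
    intro q s
    have h1 : (fun s => a s q) = fun s => ∑ u, (FF n t y s)⁻¹ q u * Y s u := by
      funext s
      rw [ha]
      rfl
    rw [h1]
    refine DifferentiableAt.fun_sum fun u _ => ?_
    exact DifferentiableAt.mul (diff_inv' (fun i j => (hode' s i j).differentiableAt) (hF s) q u)
      (hode s u).differentiableAt
  have hderiv : ∀ s q, deriv (fun s => a s q) s = 0 := by
    intro s
    apply hker s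
    intro u
    obtain ⟨B, hB⟩ : ∃ B : Matrix P.X P.X ℂ, B = Matrix.diagonal P.th -
      Complex.exp (-s) • P.Cq P.ctr t (fun i => y i * Complex.exp s) := ⟨_, rfl⟩
    have h1 : HasDerivAt (fun s => ∑ q, FF n t y s u q * a s q)
        (∑ q, ((B * FF n t y s) u q * a s q + FF n t y s u q * deriv (fun s => a s q) s)) s := by
      refine HasDerivAt.fun_sum fun q _ => ?_
      rw [hB]
      exact (hode' s u q).mul (had q s).hasDerivAt
    have h2 : HasDerivAt (fun s => Y s u) ((B.mulVec (Y s)) u) s := by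
      rw [hB]
      exact hode s u
    have h3 : (fun s => Y s u) = fun s => ∑ q, FF n t y s u q * a s q := by
      funext s
      exact hYa s u
    rw [h3] at h2
    have h4 := h1.unique h2
    rw [Finset.sum_add_distrib] at h4
    have h5 : ∑ q, (B * FF n t y s) u q * a s q = (B.mulVec (Y s)) u := by
      have h6 : Y s = (FF n t y s).mulVec (a s) := by
        funext u
        exact hYa s u
      rw [h6, Matrix.mulVec_mulVec]
      rfl
    rw [h5] at h4
    exact left_eq_add.1 h4.symm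
  have hconst : ∀ s q, a s q = a 0 q := fun s q =>
    is_const_of_deriv_eq_zero (had q) (fun s => hderiv s q) s 0
  have hvan : ∀ q, (Complex.exp (2 * Real.pi * Complex.I * pr (P.D.rt q.1 P.tr) y) -
      Complex.exp (2 * Real.pi * Complex.I * pr (P.D.rt v.1 P.tr) y)) * a 0 q = 0 := by
    apply hker 0
    intro u
    have h1 := hper 0 u
    rw [hYa, hYa 0 u] at h1
    simp only [hconst (0 + 2 * Real.pi * Complex.I), FF_period] at h1
    have hc : ((-1 : ℂ)) ^ P.dm ≠ 0 := pow_ne_zero _ (by norm_num)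
    apply mul_left_cancel₀ hc
    rw [mul_zero, Finset.mul_sum]
    rw [Finset.mul_sum, ← sub_eq_zero, ← Finset.sum_sub_distrib] at h1
    refine Eq.trans ?_ h1
    exact Finset.sum_congr rfl fun q _ => by ring
  have hz : ∀ q, q ≠ v → a 0 q = 0 := by
    intro q hq
    refine (mul_eq_zero.1 (hvan q)).resolve_left fun h => ?_
    rw [sub_eq_zero, Complex.exp_eq_exp_iff_exists_int] at h
    obtain ⟨k, hk⟩ := h
    refine hy.2 q v hq k ?_
    have hpi : (2 * Real.pi * Complex.I : ℂ) ≠ 0 := Complex.two_pi_I_ne_zero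
    apply mul_left_cancel₀ hpi
    rw [mul_sub, hk]
    ring
  refine ⟨a 0 v, fun s u => ?_⟩
  rw [hYa s u, Finset.sum_eq_single v]
  · rw [hconst s v, mul_comm]
  · intro q _ hq
    rw [hconst s q, hz q hq, mul_zero]
  · intro h
    exact absurd (Finset.mem_univ v) h

theorem inter_FF {w : P.D.W} {ν : Fin r → ℤ} {M : (Fin r → ℂ) → ℂ → Matrix P.X P.X ℂ}
    (hM : P.Inter t w ν M) {y : Fin r → ℂ} (hy : P.SG y) (v : P.X) :
    ∃ h : ℂ, ∀ s u, (M (fun i => y i * Complex.exp s) (Complex.exp s) *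
      FF n t (P.D.xi w ν y) s) u v = h * FF n t y s u (P.lm w v) := by
  refine FF_unique n t hy (Y := fun s u => (M (fun i => y i * Complex.exp s) (Complex.exp s) *
      FF n t (P.D.xi w ν y) s) u v) ?_ ?_
  · intro s u
    have hx := sg_xi hy w ν
    have h1 := HasDerivAt.fun_sum (u := Finset.univ) fun q _ =>
      (hM y s u q).mul (FF_ode n t hx s q v)
    refine h1.congr_deriv ?_
    rw [Finset.sum_add_distrib]
    obtain ⟨B, hB⟩ : ∃ B : Matrix P.X P.X ℂ, B = Matrix.diagonal P.th -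
      Complex.exp (-s) • P.Cq P.ctr t (fun i => y i * Complex.exp s) := ⟨_, rfl⟩
    obtain ⟨B', hB'⟩ : ∃ B' : Matrix P.X P.X ℂ, B' = Matrix.diagonal P.th -
      Complex.exp (-s) • P.Cq P.ctr t (fun i => P.D.xi w ν y i * Complex.exp s) := ⟨_, rfl⟩
    obtain ⟨Q, hP⟩ : ∃ Q : Matrix P.X P.X ℂ,
      Q = M (fun i => y i * Complex.exp s) (Complex.exp s) := ⟨_, rfl⟩
    obtain ⟨F, hF⟩ : ∃ F : Matrix P.X P.X ℂ, F = FF n t (P.D.xi w ν y) s := ⟨_, rfl⟩
    rw [← hB, ← hB', ← hP, ← hF]
    show ((B * Q - Q * B') * F) u v + (Q * (B' * F)) u v = (B.mulVec fun u => (Q * F) u v) u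
    have h2 : (B.mulVec fun u => (Q * F) u v) u = (B * (Q * F)) u v := rfl
    rw [h2, Matrix.sub_mul, ← Matrix.mul_assoc Q, Matrix.mul_assoc B, Matrix.sub_apply]
    ring
  · intro s u
    have h1 : Complex.exp (s + 2 * Real.pi * Complex.I) = Complex.exp s := by
      rw [Complex.exp_add, Complex.exp_two_pi_mul_I, mul_one]
    have h2 : Complex.exp (2 * Real.pi * Complex.I * pr (P.D.rt v.1 P.tr) (P.D.xi w ν y)) =
        Complex.exp (2 * Real.pi * Complex.I * pr (P.D.rt (P.lm w v).1 P.tr) y) := by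
      rw [pr_xi, ← P.D.rt_mul, rt_lm_tr, mul_add, Complex.exp_add]
      have h3 : Complex.exp (2 * Real.pi * Complex.I *
          ((dotProduct ν (P.D.rt (w * v.1) P.tr) : ℤ) : ℂ)) = 1 := by
        rw [mul_comm]
        exact Complex.exp_int_mul_two_pi_mul_I _
      rw [h3, mul_one]
    show (M (fun i => y i * Complex.exp (s + 2 * Real.pi * Complex.I))
      (Complex.exp (s + 2 * Real.pi * Complex.I)) *
      FF n t (P.D.xi w ν y) (s + 2 * Real.pi * Complex.I)) u v = _
    rw [h1, Matrix.mul_apply, Matrix.mul_apply, Finset.mul_sum]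
    refine Finset.sum_congr rfl fun q _ => ?_
    rw [FF_period, h2]
    ring

/-- The element `t_ν w` has a good matrix. -/
def Good (w : P.D.W) (ν : Fin r → ℤ) : Prop := ∃ M : (Fin r → ℂ) → ℂ → Matrix P.X P.X ℂ,
  (∀ u v, ContDiff ℂ 1 fun q : (Fin r → ℂ) × ℂ => M q.1 q.2 u v) ∧ (∀ y z, (M y z).det ≠ 0) ∧
  ∀ y, P.SG y → ∀ s u v, (M (fun i => y i * Complex.exp s) (Complex.exp s) *
    FF n t (P.D.xi w ν y) s) u v * P.gam t v (P.D.xi w ν y) =
      FF n t y s u (P.lm w v) * P.gam t (P.lm w v) y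

theorem good_one : Good n t 1 0 := by
  refine ⟨fun _ _ => 1, fun u v => contDiff_const, fun y z => ?_, fun y hy s u v => ?_⟩
  · rw [Matrix.det_one]
    exact one_ne_zero
  · have h1 : P.D.xi 1 0 y = y := by
      unfold xi
      rw [inv_one, P.D.yt_one]
      funext i
      simp [cc]
    rw [h1, Matrix.one_mul, lm_one]

private theorem xi_mul_P (w u : P.D.W) (ν μ : Fin r → ℤ) (y : Fin r → ℂ) :
    P.D.xi (w * u) (ν + P.D.yt w μ) y = P.D.xi u μ (P.D.xi w ν y) := by
  unfold xi
  rw [mul_inv_rev, P.D.yt_mul]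
  congr 1
  have h1 : cc (ν + P.D.yt w μ) = cc ν + cc (P.D.yt w μ) := by
    funext i
    simp [cc]
  rw [h1, ← add_assoc, P.D.yt_add w⁻¹ (y + cc ν), ← P.D.yt_cc, P.D.yt_inv_yt]

theorem good_mul {w u : P.D.W} {ν μ : Fin r → ℤ} (h : Good n t w ν) (h' : Good n t u μ) :
    Good n t (w * u) (ν + P.D.yt w μ) := by
  obtain ⟨M, hM1, hM2, hM3⟩ := h
  obtain ⟨M', hM1', hM2', hM3'⟩ := h'
  refine ⟨fun l z => M l z * M' (P.D.yt w⁻¹ (l + z • cc ν)) z, fun p q => ?_, fun y z => ?_,
    fun y hy s p v => ?_⟩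
  · have h1 : ContDiff ℂ 1 fun x : (Fin r → ℂ) × ℂ => (P.D.yt w⁻¹ (x.1 + x.2 • cc ν), x.2) := by
      refine ContDiff.prodMk ?_ contDiff_snd
      rw [contDiff_pi]
      intro j
      unfold yt
      refine ContDiff.sum fun i _ => ?_
      refine contDiff_const.mul ?_
      have h2 : (fun x : (Fin r → ℂ) × ℂ => (x.1 + x.2 • cc ν) i) =
          fun x => x.1 i + x.2 * cc ν i := by
        funext x
        rw [Pi.add_apply, Pi.smul_apply, smul_eq_mul]
      rw [h2]
      refine ContDiff.add ?_ (contDiff_snd.mul contDiff_const)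
      exact (contDiff_apply ℂ ℂ i).comp contDiff_fst
    simp only [Matrix.mul_apply]
    refine ContDiff.sum fun k _ => ?_
    refine (hM1 p k).mul ?_
    exact (hM1' k q).comp h1
  · rw [Matrix.det_mul]
    exact mul_ne_zero (hM2 _ _) (hM2' _ _)
  · have hx := sg_xi hy w ν
    have h1 : P.D.yt w⁻¹ ((fun i => y i * Complex.exp s) + Complex.exp s • cc ν) =
        fun i => P.D.xi w ν y i * Complex.exp s := by
      have h2 : ((fun i => y i * Complex.exp s) + Complex.exp s • cc ν) =
          Complex.exp s • (y + cc ν) := by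
        funext i
        rw [Pi.add_apply, Pi.smul_apply, Pi.smul_apply, Pi.add_apply, smul_eq_mul, smul_eq_mul]
        ring
      rw [h2, P.D.yt_smul]
      funext i
      rw [Pi.smul_apply, smul_eq_mul, mul_comm]
      rfl
    show (M (fun i => y i * Complex.exp s) (Complex.exp s) *
      M' (P.D.yt w⁻¹ ((fun i => y i * Complex.exp s) + Complex.exp s • cc ν)) (Complex.exp s) *
      FF n t (P.D.xi (w * u) (ν + P.D.yt w μ) y) s) p v * _ = _
    rw [h1, xi_mul_P, Matrix.mul_assoc, Matrix.mul_apply, Finset.sum_mul]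
    have h3 : ∀ q, M (fun i => y i * Complex.exp s) (Complex.exp s) p q *
        (M' (fun i => P.D.xi w ν y i * Complex.exp s) (Complex.exp s) *
          FF n t (P.D.xi u μ (P.D.xi w ν y)) s) q v * P.gam t v (P.D.xi u μ (P.D.xi w ν y)) =
        M (fun i => y i * Complex.exp s) (Complex.exp s) p q * FF n t (P.D.xi w ν y) s q (P.lm u v) *
          P.gam t (P.lm u v) (P.D.xi w ν y) := by
      intro q
      rw [mul_assoc, hM3' _ hx s q v, ← mul_assoc]
    rw [Finset.sum_congr rfl fun q _ => h3 q, ← Finset.sum_mul, ← Matrix.mul_apply,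
      hM3 y hy s p (P.lm u v), ← lm_mul]

end Pool.Agent.FLG.Par
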