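import Pool.Agent.FLG.P.Phi
import Pool.Agent.FLG.P.PhiT
import Pool.Agent.DSTJ.DetAll
import Pool.Agent.FLG.GenP

/-!
# FLG-P-ShiftF: the shift operators of `G/P`

PLAN. As ShiftF.lean for `G/B`, without signs (`gam` contains `e^{πi c_1}`).
-/

set_option autoImplicit false

open scoped BigOperators Topology
open Filter
open Pool.Agent.DST.TE Pool.Agent.DSTJ

namespace Pool.Agent.FLG.Par

open RS

variable {r : ℕ} {P : Par r} {N : ℕ} (n : P.Num N) {t : Fin r → ℂ} (ht : P.Inv t)

private theorem xi_one (μ : Fin r → ℤ) (y : Fin r → ℂ) : P.D.xi 1 (-μ) y = y - cc μ := by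
  unfold xi
  rw [inv_one, P.D.yt_one]
  funext i
  simp [cc, sub_eq_add_neg]

private theorem J0_FF {y : Fin r → ℂ} (hy : P.SG y) (G : (Fin r → ℂ) → Matrix (Fin N) (Fin N) ℂ)
    (s : ℂ) : (toBase n t).J0 G y s =
      (FF n t y s).submatrix n.e n.e * ((toBase n t).R y * G y) := by
  have hR : ((toBase n t).R y).det ≠ 0 :=
    base_R_det n y fun a h => hy.1 a.1 a.2 0 (by rw [h]; simp)
  rw [(toBase n t).J0_EE hR, ← Matrix.mul_assoc]
  congr 1
  ext i j
  simp [FF]

include ht

theorem good_all (ν : Fin r → ℤ) : Good n t 1 ν :=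
  generation (fun w ν => Good n t w ν) (good_one n t) (fun _ _ _ _ h h' => good_mul n t h h')
    (good_s n ht) (fun _ h => good_θ n ht h) (fun _ _ h => good_τ n ht h) ν

/-- The shift operators, for solutions `J0 G` with `R G = gam B`, `B` periodic. -/
theorem exists_shift (μ : Fin r → ℤ) :
    ∃ S : (Fin r → ℂ) → ℂ → Matrix (Fin N) (Fin N) ℂ,
      (∀ i j, ContDiff ℂ 1 fun q : (Fin r → ℂ) × ℂ => S q.1 q.2 i j) ∧
      (∀ y z, (S y z).det ≠ 0) ∧
      ∀ (G B : (Fin r → ℂ) → Matrix (Fin N) (Fin N) ℂ),
        (∀ y, (toBase n t).W2 y → ∀ i j, DifferentiableAt ℂ (fun y => G y i j) y) →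
        (∀ y, (toBase n t).W1 y → B (y - cc μ) = B y) →
        (∀ y, (toBase n t).W1 y → (toBase n t).R y * G y =
          Matrix.diagonal (fun p => P.gam t (n.e p) y) * B y) →
        ∀ y, (toBase n t).W1 y → (toBase n t).NR y → (toBase n t).NR (y - cc μ) → ∀ s,
          (toBase n t).J0 G y s = S (fun i => y i * Complex.exp s) (Complex.exp s) *
            (toBase n t).J0 G (y - cc μ) s := by
  obtain ⟨M, hM1, hM2, hM3⟩ := good_all n ht (-μ)
  refine ⟨fun y z => (M y z).submatrix n.e n.e, fun i j => hM1 _ _, fun y z => ?_, ?_⟩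
  · rw [Matrix.det_submatrix_equiv_self]
    exact hM2 _ _
  · intro G B hG hB hRG
    have hSG : ∀ y, P.SG y → ∀ s, (toBase n t).J0 G y s =
        (M (fun i => y i * Complex.exp s) (Complex.exp s)).submatrix n.e n.e *
          (toBase n t).J0 G (y - cc μ) s := by
      intro y hy s
      have hy' : P.SG (y - cc μ) := by
        rw [← xi_one]
        exact sg_xi hy _ _
      rw [J0_FF n hy, J0_FF n hy', hRG y (sg_w1 n t hy), hRG _ (sg_w1 n t hy'),
        hB y (sg_w1 n t hy), ← Matrix.mul_assoc, ← Matrix.mul_assoc, ← Matrix.mul_assoc]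
      congr 1
      ext i p
      rw [Matrix.mul_diagonal, Matrix.mul_diagonal, Matrix.submatrix_apply,
        Matrix.submatrix_mul_equiv, Matrix.submatrix_apply]
      have h1 := hM3 y hy s (n.e i) (n.e p)
      rw [lm_one, xi_one] at h1
      exact h1.symm
    intro y hy hn hn' s
    have hw2 : (toBase n t).W2 y := fun k m _ => hy k m
    have hw2' : (toBase n t).W2 (y - cc μ) := by
      intro k m _ h
      rw [pr_sub, pr_cc] at h
      refine hy k (m + ∑ i, (toBase n t).wt k i * μ i) ?_
      push_cast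
      push_cast at h
      rw [← h]
      ring
    ext i j
    have hcont : ∀ i, ContinuousAt (fun y => (toBase n t).J0 G y s i j) y := by
      intro i
      have h1 := ((toBase n t).J0_diff hn (hG y hw2) s i j).continuousAt
      have h2 : ContinuousAt (fun y : Fin r → ℂ => (y, s)) y := by fun_prop
      exact ContinuousAt.comp (f := fun y : Fin r → ℂ => (y, s))
        (g := fun q : (Fin r → ℂ) × ℂ => (toBase n t).J0 G q.1 q.2 i j) h1 h2
    have hcont' : ∀ i, ContinuousAt (fun y => (toBase n t).J0 G (y - cc μ) s i j) y := by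
      intro i
      have h1 := ((toBase n t).J0_diff hn' (hG _ hw2') s i j).continuousAt
      have h2 : ContinuousAt (fun y : Fin r → ℂ => (y - cc μ, s)) y := by fun_prop
      exact ContinuousAt.comp (f := fun y : Fin r → ℂ => (y - cc μ, s))
        (g := fun q : (Fin r → ℂ) × ℂ => (toBase n t).J0 G q.1 q.2 i j) h1 h2
    have hright : ContinuousAt (fun y => ∑ k, M (fun i => y i * Complex.exp s)
        (Complex.exp s) (n.e i) (n.e k) * (toBase n t).J0 G (y - cc μ) s k j) y := by
      refine tendsto_finsetSum _ fun k _ => ?_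
      refine ContinuousAt.mul ?_ (hcont' k)
      have h1 : Continuous fun y : Fin r → ℂ => M (fun i => y i * Complex.exp s)
          (Complex.exp s) (n.e i) (n.e k) :=
        (hM1 (n.e i) (n.e k)).continuous.comp (f := fun y : Fin r → ℂ =>
          ((fun i => y i * Complex.exp s, Complex.exp s) : (Fin r → ℂ) × ℂ)) (by fun_prop)
      exact h1.continuousAt
    have hne : (𝓝[{y | P.SG y}] y).NeBot := mem_closure_iff_nhdsWithin_neBot.1 (dense_SG P y)
    have h1 : (toBase n t).J0 G y s i j = ∑ k, M (fun i => y i * Complex.exp s)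
        (Complex.exp s) (n.e i) (n.e k) * (toBase n t).J0 G (y - cc μ) s k j := by
      refine tendsto_nhds_unique_of_eventuallyEq (l := 𝓝[{y | P.SG y}] y)
        ((hcont i).tendsto.mono_left nhdsWithin_le_nhds)
        (hright.tendsto.mono_left nhdsWithin_le_nhds) ?_
      filter_upwards [self_mem_nhdsWithin] with y' hy'
      rw [hSG y' hy' s, Matrix.mul_apply]
      exact Finset.sum_congr rfl fun k _ => by
        rw [Matrix.submatrix_apply]
    rw [h1, Matrix.mul_apply]
    rfl

end Pool.Agent.FLG.Par
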